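import Mathlib

/-!
The definitions used in the statements of the theorems.
-/

open Finset Complex InnerProductSpace

universe u

namespace ApproxC

section one

variable {V : Type u} [NormedAddCommGroup V] [InnerProductSpace ℂ V]

/-- the diagonal part of `T` in the orthonormal basis `b`. -/
noncomputable def dg {d : ℕ} (b : OrthonormalBasis (Fin d) ℂ V) (T : V →ₗ[ℂ] V) :
    V →ₗ[ℂ] V where
  toFun x := ∑ i, (inner ℂ (b i) (T (b i)) * inner ℂ (b i) x : ℂ) • b i
  map_add' x y := by
    simp only [inner_add_right, mul_add, add_smul, sum_add_distrib]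
  map_smul' a x := by
    simp only [inner_smul_right, RingHom.id_apply, smul_sum, smul_smul]
    refine sum_congr rfl fun i _ => ?_
    congr 1
    ring

/-- For every `η > 0` the ordered orthonormal basis `b` can be cut into (at most) `L η`
consecutive intervals such that `|⟨x, (T - diagonal of T) x⟩| ≤ η ‖x‖ ^ 2` for all `x` in the span
of each interval (the numerical radius of the compression is at most `η`). -/
def CutB (T : V →ₗ[ℂ] V) {d : ℕ} (b : OrthonormalBasis (Fin d) ℂ V) (L : ℝ → ℕ) : Prop :=
  ∀ η : ℝ, 0 < η → ∃ s : Fin d → ℕ, Monotone s ∧ (∀ i, s i < L η) ∧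
    ∀ j, ∀ x ∈ Submodule.span ℂ (b '' {i | s i = j}),
      ‖(inner ℂ x (T x - dg b T x) : ℂ)‖ ≤ η * ‖x‖ ^ 2

end one

/-- `T` is an operator on a finite-dimensional inner product space which, in some ordered
orthonormal basis `b`, is upper triangular, with the real parts of `v` times the diagonal entries
nondecreasing, and whose strictly upper triangular part `N x = T x - dg b T x` satisfies one of
the following two conditions: (a) for every `η > 0` the basis can be cut into at most `r η`
consecutive intervals such that `|⟨x, N x⟩| ≤ η ‖x‖ ^ 2` on the span of each interval (`CutB`);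
(b) for every `δ > 0`, `N` is within `δ` of an operator of rank at most `r δ`. -/
def RadicalDeparture {V : Type u} [NormedAddCommGroup V] [InnerProductSpace ℂ V] (v : ℂ)
    (r : ℝ → ℕ) (T : V →ₗ[ℂ] V) : Prop :=
  ∃ (d : ℕ) (b : OrthonormalBasis (Fin d) ℂ V),
    (∀ i j, j < i → (inner ℂ (b i) (T (b j)) : ℂ) = 0) ∧
    (∀ i j, i ≤ j → (v * inner ℂ (b i) (T (b i))).re ≤ (v * inner ℂ (b j) (T (b j))).re) ∧
    (CutB T b r ∨
      ∀ δ : ℝ, 0 < δ → ∃ F : V →ₗ[ℂ] V, Module.finrank ℂ (LinearMap.range F) ≤ r δ ∧
        ∀ x, ‖(T x - dg b T x) - F x‖ ≤ δ * ‖x‖)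

/-- the imaginary part `(T - T*) / (2i)` of an operator on a finite-dimensional inner product
space. -/
noncomputable def imPart {V : Type u} [NormedAddCommGroup V] [InnerProductSpace ℂ V]
    [FiniteDimensional ℂ V] (T : V →ₗ[ℂ] V) : V →ₗ[ℂ] V :=
  (1 / (2 * I)) • (T - LinearMap.adjoint T)

variable {H : Type u} [NormedAddCommGroup H] [InnerProductSpace ℂ H] [CompleteSpace H]

/-- `B` is an orthogonal (Hilbert) direct sum of finite-dimensional blocks satisfying
`RadicalDeparture v r`: there is a family of pairwise orthogonal subspaces with dense linear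
span, each invariant under `B` and `B*`, such that the restriction of `B` to each of them
satisfies `RadicalDeparture v r` (in particular, each of them is finite-dimensional). -/
def BlockRadical (v : ℂ) (r : ℝ → ℕ) (B : H →L[ℂ] H) : Prop :=
  ∃ 𝒱 : Set (Submodule ℂ H), 𝒱.Pairwise (fun V W => V ⟂ W) ∧
    (sSup 𝒱).topologicalClosure = ⊤ ∧
    ∀ V ∈ 𝒱, (∀ x ∈ V, ContinuousLinearMap.adjoint B x ∈ V) ∧
      ∃ h : ∀ x ∈ V, (B : H →ₗ[ℂ] H) x ∈ V, RadicalDeparture v r ((B : H →ₗ[ℂ] H).restrict h)

/-- `B` is an orthogonal (Hilbert) direct sum of finite-dimensional blocks, and the trace of the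
`2 ^ (k + 1)`-th power of the imaginary part of each block (the `2 ^ (k + 1)`-th power of its
Schatten norm of exponent `2 ^ (k + 1)`) is at most `D`: there is a family of pairwise orthogonal
finite-dimensional subspaces with dense linear span, each invariant under `B` and `B*`, such that
the restriction of `B` to each of them has this property. -/
def BlockSchatten (k : ℕ) (D : ℝ) (B : H →L[ℂ] H) : Prop :=
  ∃ 𝒱 : Set (Submodule ℂ H), 𝒱.Pairwise (fun V W => V ⟂ W) ∧
    (sSup 𝒱).topologicalClosure = ⊤ ∧
    ∀ V ∈ 𝒱, (∀ x ∈ V, ContinuousLinearMap.adjoint B x ∈ V) ∧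
      ∃ (_ : FiniteDimensional ℂ V) (h : ∀ x ∈ V, (B : H →ₗ[ℂ] H) x ∈ V),
        (LinearMap.trace ℂ V
          ((imPart ((B : H →ₗ[ℂ] H).restrict h)) ^ (2 ^ (k + 1)))).re ≤ D

end ApproxC
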