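import Pool.Agent.Work.MP_ecaf63_an_c.Loop
import Pool.Agent.Work.MP_ecaf63_an_c.Defs

/-!
Operators on a finite-dimensional space in triangular form, whose strictly upper part is small on
few consecutive intervals of the basis: the data of one block.
-/

open Finset Complex InnerProductSpace Filter Topology

universe u

namespace ApproxC

section one

variable {V : Type u} [NormedAddCommGroup V] [InnerProductSpace ℂ V]

/-- `T` is an operator on a finite-dimensional inner product space which, in some ordered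
orthonormal basis, is upper triangular, with the real parts of `v` times the diagonal entries
nondecreasing, and such that for every `η > 0` the basis can be cut into at most `r η` consecutive
intervals on each of which the strictly upper triangular part has numerical radius at
most `η`. -/
def IntervalDeparture (v : ℂ) (r : ℝ → ℕ) (T : V →ₗ[ℂ] V) : Prop :=
  ∃ (d : ℕ) (b : OrthonormalBasis (Fin d) ℂ V),
    (∀ i j, j < i → (inner ℂ (b i) (T (b j)) : ℂ) = 0) ∧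
    (∀ i j, i ≤ j → (v * inner ℂ (b i) (T (b i))).re ≤ (v * inner ℂ (b j) (T (b j))).re) ∧
    CutB T b r

lemma inner_dg {d : ℕ} (b : OrthonormalBasis (Fin d) ℂ V) (T : V →ₗ[ℂ] V) (i : Fin d) (x : V) :
    (inner ℂ (b i) (dg b T x) : ℂ) = inner ℂ (b i) (T (b i)) * inner ℂ (b i) x := by
  classical
  simp only [dg, LinearMap.coe_mk, AddHom.coe_mk]
  rw [inner_sum, sum_eq_single i]
  · rw [inner_smul_right, inner_self_eq_norm_sq_to_K, b.orthonormal.1 i]
    simp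
  · intro j _ hji
    rw [inner_smul_right, b.orthonormal.2 (Ne.symm hji), mul_zero]
  · intro h
    exact absurd (mem_univ i) h

lemma norm_dg {d : ℕ} (b : OrthonormalBasis (Fin d) ℂ V) (T : V →ₗ[ℂ] V) {M : ℝ} (hM : 0 ≤ M)
    (hT : ∀ x, ‖T x‖ ≤ M * ‖x‖) (x : V) : ‖dg b T x‖ ≤ M * ‖x‖ := by
  apply le_of_sq_le_sq _ (by positivity)
  rw [mul_pow, ← b.sum_sq_norm_inner_right (dg b T x), ← b.sum_sq_norm_inner_right x, mul_sum]
  apply sum_le_sum
  intro i _
  rw [inner_dg, norm_mul, mul_pow]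
  apply mul_le_mul_of_nonneg_right _ (sq_nonneg _)
  apply pow_le_pow_left₀ (norm_nonneg _)
  calc ‖(inner ℂ (b i) (T (b i)) : ℂ)‖ ≤ ‖b i‖ * ‖T (b i)‖ := norm_inner_le_norm _ _
    _ ≤ ‖b i‖ * (M * ‖b i‖) := mul_le_mul_of_nonneg_left (hT _) (norm_nonneg _)
    _ = M := by rw [b.orthonormal.1 i]; ring

lemma inner_self_dg {d : ℕ} (b : OrthonormalBasis (Fin d) ℂ V) (T : V →ₗ[ℂ] V) (x : V) :
    (inner ℂ x (dg b T x) : ℂ).re
      = ∑ i, (inner ℂ (b i) (T (b i)) : ℂ).re * ‖(inner ℂ (b i) x : ℂ)‖ ^ 2 := by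
  simp only [dg, LinearMap.coe_mk, AddHom.coe_mk]
  rw [inner_sum, re_sum]
  refine sum_congr rfl fun i _ => ?_
  rw [inner_smul_right]
  have h1 : (inner ℂ (b i) (T (b i)) * inner ℂ (b i) x * inner ℂ x (b i) : ℂ)
      = inner ℂ (b i) (T (b i)) * ((‖(inner ℂ (b i) x : ℂ)‖ ^ 2 : ℝ) : ℂ) := by
    rw [mul_assoc, ← inner_conj_symm x (b i), mul_conj, normSq_eq_norm_sq]
  rw [h1, re_mul_ofReal]

/-- the data of one block, inside the block. -/
def CutIn (T : V →ₗ[ℂ] V) (L : ℝ → ℕ) (c : ℝ) : Prop :=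
    ∃ (d k : ℕ) (e : ℕ → V), k ≤ d ∧
      (∀ p < d, (inner ℂ (e p) (e p) : ℂ) = 1) ∧
      (∀ p q, p < d → q < d → p ≠ q → (inner ℂ (e p) (e q) : ℂ) = 0) ∧
      (∀ q < d, T (e q) = ∑ p ∈ range (q + 1), (inner ℂ (e p) (T (e q)) : ℂ) • e p) ∧
      (∀ p < k, (inner ℂ (e p) (T (e p)) : ℂ).re ≤ c) ∧
      (∀ p, k ≤ p → p < d → c < (inner ℂ (e p) (T (e p)) : ℂ).re) ∧
      (∀ x, x = ∑ p ∈ range d, (inner ℂ (e p) x : ℂ) • e p) ∧
      ∀ η : ℝ, 0 < η → ∃ (s : ℕ → ℕ) (m : ℕ), m ≤ L η ∧ (∀ p < d, s p < m) ∧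
        (∀ p q, p ≤ q → q < d → s p ≤ s q) ∧
        (∀ i, ∀ v ∈ spn e {p | p < k ∧ s p = i},
          (inner ℂ v (T v) : ℂ).re ≤ (c + η) * ‖v‖ ^ 2) ∧
        (∀ i, ∀ v ∈ spn e {p | (k ≤ p ∧ p < d) ∧ s p = i},
          (c - η) * ‖v‖ ^ 2 ≤ (inner ℂ v (T v) : ℂ).re)

lemma cutIn_of_basis {T : V →ₗ[ℂ] V} {L : ℝ → ℕ} {c : ℝ} {d : ℕ}
    (b : OrthonormalBasis (Fin d) ℂ V)
    (htri : ∀ i j, j < i → (inner ℂ (b i) (T (b j)) : ℂ) = 0) {k : ℕ} (hkd : k ≤ d)
    (hk1 : ∀ i : Fin d, (i : ℕ) < k → (inner ℂ (b i) (T (b i)) : ℂ).re ≤ c)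
    (hk2 : ∀ i : Fin d, k ≤ (i : ℕ) → c < (inner ℂ (b i) (T (b i)) : ℂ).re)
    (hcut : CutB T b L) : CutIn T L c := by
  classical
  set e : ℕ → V := fun p => if h : p < d then b ⟨p, h⟩ else 0 with he
  have heb : ∀ p (h : p < d), e p = b ⟨p, h⟩ := fun p h => by simp only [he, dif_pos h]
  have hunit : ∀ p < d, (inner ℂ (e p) (e p) : ℂ) = 1 := by
    intro p hp
    rw [heb p hp, inner_self_eq_norm_sq_to_K, b.orthonormal.1]
    simp
  have horth : ∀ p q, p < d → q < d → p ≠ q → (inner ℂ (e p) (e q) : ℂ) = 0 := by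
    intro p q hp hq hpq
    rw [heb p hp, heb q hq]
    exact b.orthonormal.2 (fun h => hpq (congrArg Fin.val h))
  have hexp : ∀ x, x = ∑ p ∈ range d, (inner ℂ (e p) x : ℂ) • e p := by
    intro x
    rw [sum_range]
    nth_rewrite 1 [← b.sum_repr' x]
    refine sum_congr rfl fun i _ => ?_
    rw [heb i i.2]
  have hlow : ∀ p q, p < d → q < p → (inner ℂ (e p) (T (e q)) : ℂ) = 0 := by
    intro p q hp hqp
    rw [heb p hp, heb q (by omega)]
    exact htri _ _ hqp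
  have hk1' : ∀ p < k, (inner ℂ (e p) (T (e p)) : ℂ).re ≤ c := by
    intro p hp
    rw [heb p (by omega)]
    exact hk1 ⟨p, by omega⟩ hp
  have hk2' : ∀ p, k ≤ p → p < d → c < (inner ℂ (e p) (T (e p)) : ℂ).re := by
    intro p hkp hp
    rw [heb p hp]
    exact hk2 ⟨p, hp⟩ hkp
  refine ⟨d, k, e, hkd, hunit, horth, ?_, hk1', hk2', hexp, ?_⟩
  · intro q hq
    nth_rewrite 1 [hexp (T (e q))]
    symm
    apply sum_subset
    · intro p hp
      have := mem_range.mp hp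
      exact mem_range.mpr (by omega)
    · intro p hp hp'
      rw [mem_range] at hp hp'
      rw [hlow p q hp (by omega), zero_smul]
  intro η hη
  obtain ⟨s, hs1, hs2, hs3⟩ := hcut η hη
  set s' : ℕ → ℕ := fun p => if h : p < d then s ⟨p, h⟩ else 0 with hs'
  have hss : ∀ p (h : p < d), s' p = s ⟨p, h⟩ := fun p h => by simp only [hs', dif_pos h]
  have hform : ∀ v, (inner ℂ v (T v) : ℂ).re
      = ∑ i, (inner ℂ (b i) (T (b i)) : ℂ).re * ‖(inner ℂ (b i) v : ℂ)‖ ^ 2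
        + (inner ℂ v (T v - dg b T v) : ℂ).re := by
    intro v
    rw [← inner_self_dg, ← add_re, ← inner_add_right]
    congr 3
    abel
  -- coordinates outside vanish
  have hcoord : ∀ (S : Set ℕ), (∀ p ∈ S, p < d) → ∀ v ∈ spn e S, ∀ i : Fin d, (i : ℕ) ∉ S →
      (inner ℂ (b i) v : ℂ) = 0 := by
    intro S hS v hv i hi
    have h5 : b i ∈ spn e {(i : ℕ)} := by
      apply Submodule.subset_span
      exact ⟨i, rfl, heb i i.2⟩
    refine spn_orth e ?_ h5 hv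
    intro p hp q hq
    rw [Set.mem_singleton_iff] at hp
    subst hp
    exact horth _ _ i.2 (hS q hq) (fun h => hi (h ▸ hq))
  have hpart : ∀ (i : ℕ) (S : Set ℕ), (∀ p ∈ S, p < d) → (∀ p ∈ S, s' p = i) → ∀ v ∈ spn e S,
      ‖(inner ℂ v (T v - dg b T v) : ℂ)‖ ≤ η * ‖v‖ ^ 2 := by
    intro i S hS hi v hv
    apply hs3 i
    refine Submodule.span_mono ?_ hv
    rintro x ⟨p, hp, rfl⟩
    refine ⟨⟨p, hS p hp⟩, ?_, (heb p (hS p hp)).symm⟩
    have := hi p hp
    rw [hss p (hS p hp)] at this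
    exact this
  refine ⟨s', L η, le_rfl, ?_, ?_, ?_, ?_⟩
  · intro p hp
    rw [hss p hp]
    exact hs2 _
  · intro p q hpq hq
    rw [hss p (by omega), hss q hq]
    exact hs1 (Fin.mk_le_mk.mpr hpq)
  · intro i v hv
    have h5 := hpart i _ (fun p hp => hp.1.trans_le hkd) (fun p hp => hp.2) v hv
    have h6 : (inner ℂ v (T v - dg b T v) : ℂ).re ≤ η * ‖v‖ ^ 2 :=
      ((le_abs_self _).trans (abs_re_le_norm _)).trans h5
    have h7 : ∑ i, (inner ℂ (b i) (T (b i)) : ℂ).re * ‖(inner ℂ (b i) v : ℂ)‖ ^ 2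
        ≤ c * ‖v‖ ^ 2 := by
      rw [← b.sum_sq_norm_inner_right v, mul_sum]
      apply sum_le_sum
      intro j _
      by_cases hj : (j : ℕ) < k
      · exact mul_le_mul_of_nonneg_right (hk1 j hj) (sq_nonneg _)
      · rw [hcoord _ (fun p hp => hp.1.trans_le hkd) v hv j (fun h => hj h.1)]
        simp
    rw [hform]
    linarith
  · intro i v hv
    have h5 := hpart i _ (fun p hp => hp.1.2) (fun p hp => hp.2) v hv
    have h6 : -(η * ‖v‖ ^ 2) ≤ (inner ℂ v (T v - dg b T v) : ℂ).re :=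
      neg_le_of_abs_le ((abs_re_le_norm _).trans h5)
    have h7 : c * ‖v‖ ^ 2
        ≤ ∑ i, (inner ℂ (b i) (T (b i)) : ℂ).re * ‖(inner ℂ (b i) v : ℂ)‖ ^ 2 := by
      rw [← b.sum_sq_norm_inner_right v, mul_sum]
      apply sum_le_sum
      intro j _
      by_cases hj : k ≤ (j : ℕ)
      · exact mul_le_mul_of_nonneg_right (hk2 j hj).le (sq_nonneg _)
      · rw [hcoord _ (fun p hp => hp.1.2) v hv j (fun h => hj h.1.1)]
        simp
    rw [hform]
    linarith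

/-- sorted bases give the data at every cut. -/
lemma IntervalDeparture.cutIn {T : V →ₗ[ℂ] V} {r : ℝ → ℕ} (h : IntervalDeparture 1 r T)
    (c : ℝ) : CutIn T r c := by
  classical
  obtain ⟨d, b, htri, hmono, hcut⟩ := h
  have hex : ∃ p, ∀ h : p < d, c < (inner ℂ (b ⟨p, h⟩) (T (b ⟨p, h⟩)) : ℂ).re :=
    ⟨d, fun h => absurd h (lt_irrefl _)⟩
  refine cutIn_of_basis b htri (k := Nat.find hex)
    (Nat.find_min' hex (fun h => absurd h (lt_irrefl _))) ?_ ?_ hcut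
  · intro i hi
    have := Nat.find_min hex hi
    push Not at this
    obtain ⟨_, h2⟩ := this
    exact h2
  · intro i hi
    have h1 := Nat.find_spec hex (lt_of_le_of_lt hi i.2)
    refine h1.trans_le ?_
    have := hmono ⟨Nat.find hex, lt_of_le_of_lt hi i.2⟩ i hi
    rw [one_mul, one_mul] at this
    exact this

/-- few bad orthonormal vectors give a cutting. -/
lemma cutB_of_count (T : V →ₗ[ℂ] V) {d : ℕ} (b : OrthonormalBasis (Fin d) ℂ V) (R : ℝ → ℕ)
    (hcount : ∀ η, 0 < η → ∀ (m : ℕ) (w : Fin m → V), Orthonormal ℂ w →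
      (∀ j, η < ‖(inner ℂ (w j) (T (w j) - dg b T (w j)) : ℂ)‖) → m ≤ R η) :
    CutB T b (fun η => 2 * R η + 1) := by
  intro η hη
  set e : ℕ → V := fun p => if h : p < d then b ⟨p, h⟩ else 0 with he
  have heb : ∀ p (h : p < d), e p = b ⟨p, h⟩ := fun p h => by simp only [he, dif_pos h]
  obtain ⟨s, h1, h2, h3⟩ := cut_of_count d e
    (by
      intro p q hp hq hpq
      rw [heb p hp, heb q hq]
      exact b.orthonormal.2 (fun h => hpq (congrArg Fin.val h)))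
    (T - dg b T) hη
    (by
      intro p hp
      rw [LinearMap.sub_apply, inner_sub_right, heb p hp, inner_dg, inner_self_eq_norm_sq_to_K,
        b.orthonormal.1]
      simp)
    (R η) (fun m w hw hbad => hcount η hη m w hw hbad)
  refine ⟨fun i => s i, fun i j hij => h2 i j hij j.2, fun i => h1 i i.2, ?_⟩
  intro j x hx
  apply h3 j
  refine Submodule.span_mono ?_ hx
  rintro x ⟨i, hi, rfl⟩
  exact ⟨i, ⟨i.2, hi⟩, heb i i.2⟩

end one

variable {H : Type u} [NormedAddCommGroup H] [InnerProductSpace ℂ H]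

/-- the data of one block, in the big space. -/
def CutData (B : H →L[ℂ] H) (L : ℝ → ℕ) (c : ℝ) (V : Submodule ℂ H) : Prop :=
    ∃ (d k : ℕ) (e : ℕ → H), k ≤ d ∧ (∀ p, e p ∈ V) ∧
      (∀ p < d, (inner ℂ (e p) (e p) : ℂ) = 1) ∧
      (∀ p q, p < d → q < d → p ≠ q → (inner ℂ (e p) (e q) : ℂ) = 0) ∧
      (∀ q < d, B (e q) = ∑ p ∈ range (q + 1), (inner ℂ (e p) (B (e q)) : ℂ) • e p) ∧
      (∀ p < k, (inner ℂ (e p) (B (e p)) : ℂ).re ≤ c) ∧
      (∀ p, k ≤ p → p < d → c < (inner ℂ (e p) (B (e p)) : ℂ).re) ∧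
      (∀ x ∈ V, x = ∑ p ∈ range d, (inner ℂ (e p) x : ℂ) • e p) ∧
      ∀ η : ℝ, 0 < η → ∃ (s : ℕ → ℕ) (m : ℕ), m ≤ L η ∧ (∀ p < d, s p < m) ∧
        (∀ p q, p ≤ q → q < d → s p ≤ s q) ∧
        (∀ i, ∀ v ∈ spn e {p | p < k ∧ s p = i},
          (inner ℂ v (B v) : ℂ).re ≤ (c + η) * ‖v‖ ^ 2) ∧
        (∀ i, ∀ v ∈ spn e {p | (k ≤ p ∧ p < d) ∧ s p = i},
          (c - η) * ‖v‖ ^ 2 ≤ (inner ℂ v (B v) : ℂ).re)

lemma CutIn.cutData {B : H →L[ℂ] H} {L : ℝ → ℕ} {c : ℝ} {V : Submodule ℂ H}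
    (h : ∀ x ∈ V, (B : H →ₗ[ℂ] H) x ∈ V)
    (hcd : CutIn ((B : H →ₗ[ℂ] H).restrict h) L c) : CutData B L c V := by
  set T := (B : H →ₗ[ℂ] H).restrict h with hT
  have hTapp : ∀ x : V, ((T x : V) : H) = B (x : H) := fun x => rfl
  obtain ⟨d, k, e, hk, h1, h2, h3, h4, h5, h6, h7⟩ := hcd
  have hspn : ∀ (S : Set ℕ) (v : H), v ∈ spn (fun p => (e p : H)) S →
      ∃ v' ∈ spn e S, (v' : H) = v := by
    intro S v hv
    have h8 : spn (fun p => (e p : H)) S = (spn e S).map V.subtype := by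
      unfold spn
      rw [Submodule.map_span]
      congr 1
      ext x
      simp only [Set.mem_image, Submodule.subtype_apply]
      constructor
      · rintro ⟨p, hp, rfl⟩
        exact ⟨e p, ⟨p, hp, rfl⟩, rfl⟩
      · rintro ⟨y, ⟨p, hp, rfl⟩, rfl⟩
        exact ⟨p, hp, rfl⟩
    rw [h8] at hv
    obtain ⟨v', hv', rfl⟩ := Submodule.mem_map.mp hv
    exact ⟨v', hv', rfl⟩
  refine ⟨d, k, fun p => (e p : H), hk, fun p => (e p).2, ?_, ?_, ?_, ?_, ?_, ?_, ?_⟩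
  · intro p hp
    exact h1 p hp
  · intro p q hp hq hpq
    exact h2 p q hp hq hpq
  · intro q hq
    have h8 := congrArg (fun x : V => (x : H)) (h3 q hq)
    simp only [hTapp] at h8
    refine h8.trans ?_
    rw [Submodule.coe_sum]
    refine sum_congr rfl fun p _ => ?_
    rw [Submodule.coe_smul]
    rfl
  · intro p hp
    exact h4 p hp
  · intro p hp1 hp2
    exact h5 p hp1 hp2
  · intro x hx
    have := congrArg (fun x : V => (x : H)) (h6 ⟨x, hx⟩)
    simp only [Submodule.coe_sum, Submodule.coe_smul] at this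
    exact this
  · intro η hη
    obtain ⟨s, m, g1, g2, g3, g4, g5⟩ := h7 η hη
    refine ⟨s, m, g1, g2, g3, ?_, ?_⟩
    · intro i v hv
      obtain ⟨v', hv', rfl⟩ := hspn _ v hv
      exact g4 i v' hv'
    · intro i v hv
      obtain ⟨v', hv', rfl⟩ := hspn _ v hv
      exact g5 i v' hv'

end ApproxC
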