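import Pool.Agent.Work.MP_ecaf63_an_c.Greedy

/-!
Cutting an ordered orthonormal basis into few intervals on which the strictly upper part has small
numerical radius.
-/

open Finset Complex InnerProductSpace

universe u

namespace ApproxC

section span

variable {V : Type u} [NormedAddCommGroup V] [InnerProductSpace ℂ V]

/-- span of the basis vectors with index in a set. -/
def spn (e : ℕ → V) (S : Set ℕ) : Submodule ℂ V := Submodule.span ℂ (e '' S)

lemma spn_mono (e : ℕ → V) {S T : Set ℕ} (h : S ⊆ T) : spn e S ≤ spn e T :=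
  Submodule.span_mono (Set.image_mono h)

lemma spn_orth (e : ℕ → V) {S T : Set ℕ}
    (h : ∀ p ∈ S, ∀ q ∈ T, (inner ℂ (e p) (e q) : ℂ) = 0) {x y : V} (hx : x ∈ spn e S)
    (hy : y ∈ spn e T) : (inner ℂ x y : ℂ) = 0 := by
  induction hx using Submodule.span_induction with
  | mem x hx =>
    obtain ⟨p, hp, rfl⟩ := hx
    induction hy using Submodule.span_induction with
    | mem y hy =>
      obtain ⟨q, hq, rfl⟩ := hy
      exact h p hp q hq
    | zero => exact inner_zero_right _
    | add y z _ _ h1 h2 => rw [inner_add_right, h1, h2, add_zero]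
    | smul a y _ h1 => rw [inner_smul_right, h1, mul_zero]
  | zero => exact inner_zero_left _
  | add y z _ _ h1 h2 => rw [inner_add_left, h1, h2, add_zero]
  | smul a y _ h1 => rw [inner_smul_left, h1, mul_zero]

end span

variable {V : Type u} [NormedAddCommGroup V] [InnerProductSpace ℂ V]

/-- a cutting exists as soon as few orthonormal vectors are bad. -/
lemma cut_of_count (d : ℕ) (e : ℕ → V)
    (horth : ∀ p q, p < d → q < d → p ≠ q → (inner ℂ (e p) (e q) : ℂ) = 0)
    (U : V →ₗ[ℂ] V) {η : ℝ} (hη : 0 < η) (hdiag : ∀ p < d, (inner ℂ (e p) (U (e p)) : ℂ) = 0)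
    (R : ℕ) (hcount : ∀ (m : ℕ) (w : Fin m → V), Orthonormal ℂ w →
      (∀ j, η < ‖(inner ℂ (w j) (U (w j)) : ℂ)‖) → m ≤ R) :
    ∃ s : ℕ → ℕ, (∀ p < d, s p < 2 * R + 1) ∧
      (∀ p q, p ≤ q → q < d → s p ≤ s q) ∧
      ∀ i, ∀ v ∈ spn e {p | p < d ∧ s p = i}, ‖(inner ℂ v (U v) : ℂ)‖ ≤ η * ‖v‖ ^ 2 := by
  set bad : ℕ → ℕ → Prop := fun x y => ∃ v ∈ spn e {p | x ≤ p ∧ p < y ∧ p < d},
    η * ‖v‖ ^ 2 < ‖(inner ℂ v (U v) : ℂ)‖ with hbad
  have hlt : ∀ a b, bad a b → a + 1 < b := by
    intro a b hab
    by_contra hcon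
    push Not at hcon
    obtain ⟨v, hv, hv2⟩ := hab
    have hv' : v ∈ Submodule.span ℂ {x | a < d ∧ x = e a} := by
      refine Submodule.span_mono ?_ hv
      rintro x ⟨p, ⟨h1, h2, h3⟩, rfl⟩
      have : p = a := by omega
      subst this
      exact ⟨h3, rfl⟩
    have h0 : (inner ℂ v (U v) : ℂ) = 0 := by
      by_cases had : a < d
      · have h1 : {x | a < d ∧ x = e a} = {e a} := by
          ext x
          simp [had]
        rw [h1, Submodule.mem_span_singleton] at hv'
        obtain ⟨α, rfl⟩ := hv'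
        rw [map_smul, inner_smul_left, inner_smul_right, hdiag a had, mul_zero, mul_zero]
      · have h1 : {x | a < d ∧ x = e a} = ∅ := by
          ext x
          simp [had]
        rw [h1, Submodule.span_empty, Submodule.mem_bot] at hv'
        rw [hv', inner_zero_left]
    rw [h0, norm_zero] at hv2
    have : 0 ≤ η * ‖v‖ ^ 2 := by positivity
    linarith
  obtain ⟨m, t, s, -, ht, htm, hs1, hs2, hs3⟩ := greedy bad d hlt (d - 0) 0 rfl (Nat.zero_le _)
  -- the bad intervals are few
  have hm : m ≤ R := by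
    choose v hv1 hv2 using fun j : Fin m => (ht j j.2).2
    have hv0 : ∀ j, v j ≠ 0 := by
      intro j h
      have := hv2 j
      rw [h, inner_zero_left, norm_zero] at this
      simp at this
    have htmono : ∀ i j, i ≤ j → j ≤ m → t i ≤ t j := by
      intro i j hij hj
      induction j with
      | zero =>
        have : i = 0 := by omega
        rw [this]
      | succ j ih =>
        rcases Nat.lt_or_ge i (j + 1) with h | h
        · exact (ih (by omega) (by omega)).trans (ht j (by omega)).1.le
        · have : i = j + 1 := by omega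
          rw [this]
    set w : Fin m → V := fun j => ((‖v j‖⁻¹ : ℝ) : ℂ) • v j with hw
    have hwn : ∀ j, ‖w j‖ = 1 := by
      intro j
      simp only [hw]
      rw [norm_smul, norm_real, norm_inv, norm_norm]
      exact inv_mul_cancel₀ (norm_ne_zero_iff.mpr (hv0 j))
    have hwo : Orthonormal ℂ w := by
      refine ⟨hwn, ?_⟩
      have key : ∀ i j : Fin m, (i : ℕ) < j → (inner ℂ (v i) (v j) : ℂ) = 0 := by
        intro i j hij
        apply spn_orth e _ (hv1 i) (hv1 j)
        rintro p ⟨h1, h2, h3⟩ q ⟨h4, h5, h6⟩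
        have h7 := htmono (i + 1) j (by omega) (by omega)
        exact horth p q h3 h6 (by omega)
      intro i j hij
      simp only [hw]
      rw [inner_smul_left, inner_smul_right]
      rcases lt_or_gt_of_ne (fun h => hij (Fin.ext h) : (i : ℕ) ≠ j) with h | h
      · rw [key i j h, mul_zero, mul_zero]
      · rw [← inner_conj_symm, key j i h, map_zero, mul_zero, mul_zero]
    have hwb : ∀ j, η < ‖(inner ℂ (w j) (U (w j)) : ℂ)‖ := by
      intro j
      simp only [hw]
      rw [map_smul, inner_smul_left, inner_smul_right, norm_mul, norm_mul, RCLike.norm_conj,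
        norm_real, norm_inv, norm_norm]
      have h1 := hv2 j
      have h2 : 0 < ‖v j‖ := norm_pos_iff.mpr (hv0 j)
      rw [← mul_assoc, ← mul_inv, inv_mul_eq_div, lt_div_iff₀ (by positivity)]
      calc η * (‖v j‖ * ‖v j‖) = η * ‖v j‖ ^ 2 := by ring
        _ < _ := h1
    exact hcount m w hwo hwb
  refine ⟨s, fun p hp => ?_, fun p q hpq hq => hs1 p q (Nat.zero_le _) hpq hq, ?_⟩
  · have := hs2 p (Nat.zero_le _) hp
    omega
  · intro i v hv
    obtain ⟨x, y, hxy, h⟩ := hs3 i
    by_contra hcon
    push Not at hcon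
    apply hxy
    refine ⟨v, ?_, hcon⟩
    apply spn_mono e _ hv
    rintro p ⟨hp, hpi⟩
    have := h p (Nat.zero_le _) hp hpi
    exact ⟨this.1, this.2, hp⟩

end ApproxC
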