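import Pool.Agent.Work.MP_ecaf63_an_c.Split

/-!
Hyperinvariant subspaces of norm limits of block operators.
-/

open Finset Complex InnerProductSpace Filter Topology ApproxInv

universe u

namespace ApproxC

section gen

variable {H : Type u} [NormedAddCommGroup H] [InnerProductSpace ℂ H] [CompleteSpace H]

/-- the general sequence version. -/
theorem hyper_gen (A : H →L[ℂ] H) {z w : ℂ} (hz : z ∈ spectrum ℂ A) (hw : w ∈ spectrum ℂ A)
    (hzw : z.re < w.re) (B : ℕ → H →L[ℂ] H) (K : ℕ → ℝ → ℝ) (hK : ∀ k η, 0 < η → 0 < K k η)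
    (hB : ∀ k c, ∃ N : Submodule ℂ H, WLeft (B k) c (K k) N ∧
      WLeft (-(ContinuousLinearMap.adjoint (B k))) (-c) (K k) Nᗮ)
    (γ : ℕ → ℝ) (hγ : ∀ k, 0 < γ k) (hγs : Summable γ) (hγS : ∑' k, γ k ≤ (w.re - z.re) / 4)
    (hsum : Summable fun k => 2 / γ k * (K k (γ k / 4) * K (k + 1) (γ k / 4))
      * (‖A - B k‖ + ‖A - B (k + 1)‖))
    (hres : ∀ᶠ k in atTop, ‖A - B k‖ <
      (w.re - z.re) / 4 / 2 * (K k ((w.re - z.re) / 4 / 2))⁻¹) :
    ∃ M : Submodule ℂ H, IsClosed (M : Set H) ∧ M ≠ ⊥ ∧ M ≠ ⊤ ∧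
      ∀ T : H →L[ℂ] H, T.comp A = A.comp T → ∀ x ∈ M, T x ∈ M := by
  set L : ℝ := w.re - z.re with hL
  have hLpos : 0 < L := by
    rw [hL]
    linarith
  have hpart : ∀ k, ∑ j ∈ range k, γ j < L / 4 := by
    intro k
    have h1 : ∑ j ∈ range (k + 1), γ j ≤ ∑' k, γ k := hγs.sum_le_tsum _ (fun j _ => (hγ j).le)
    rw [sum_range_succ] at h1
    linarith [hγ k]
  have hsumgen : ∀ (b : ℕ → ℝ), (∀ k, b (k + 1) - b k = γ k) →
      Summable fun k => 2 / (b (k + 1) - b k)
        * (K k ((b (k + 1) - b k) / 4) * K (k + 1) ((b (k + 1) - b k) / 4))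
          * (‖A - B k‖ + ‖A - B (k + 1)‖) := by
    intro b hb
    simp only [hb]
    exact hsum
  -- the cuts
  set c : ℕ → ℝ := fun k => z.re + L / 4 + ∑ j ∈ range k, γ j with hc
  set b : ℕ → ℝ := fun k => -(z.re + 3 * L / 4) + ∑ j ∈ range k, γ j with hb
  have hcs : ∀ k, c (k + 1) - c k = γ k := by
    intro k
    simp only [hc, sum_range_succ]
    ring
  have hbs : ∀ k, b (k + 1) - b k = γ k := by
    intro k
    simp only [hb, sum_range_succ]
    ring
  have hcb : ∀ k, c k + b k < 0 := by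
    intro k
    have h1 := hpart k
    simp only [hc, hb]
    linarith
  choose N hN1 hN2 using fun k => hB k (c k)
  choose N' hN1' hN2' using fun k => hB k (-(b k))
  have hcompl : ∀ k, CompleteSpace (N k) := fun k => (hN1 k).isClosed.completeSpace_coe
  have hcompl' : ∀ k, CompleteSpace (N' k) := fun k => (hN1' k).isClosed.completeSpace_coe
  obtain ⟨M, hM1, hM2, hM3, hM4⟩ := exists_M A B c K N hK hN1 hN2
    (fun k => by have := hcs k; have := hγ k; linarith)
    (hsumgen c hcs) hz (by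
      simp only [hc, sum_range_zero, add_zero]
      linarith)
    (by
      have e1 : c 0 - z.re = L / 4 := by
        simp only [hc, sum_range_zero, add_zero]
        ring
      rw [e1]
      exact hres)
  set A2 : H →L[ℂ] H := -(ContinuousLinearMap.adjoint A) with hA2
  set C2 : ℕ → H →L[ℂ] H := fun k => -(ContinuousLinearMap.adjoint (B k)) with hC2
  have hC2adj : ∀ k, -(ContinuousLinearMap.adjoint (C2 k)) = B k := by
    intro k
    simp only [hC2]
    rw [map_neg, neg_neg, ContinuousLinearMap.adjoint_adjoint]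
  have hdelta2 : ∀ k, ‖A2 - C2 k‖ = ‖A - B k‖ := by
    intro k
    simp only [hA2, hC2]
    rw [← neg_sub', norm_neg, ← map_sub]
    exact LinearIsometryEquiv.norm_map _ _
  have hspec2 : -(starRingEnd ℂ w) ∈ spectrum ℂ A2 := by
    have h6 : star w ∈ spectrum ℂ (star A) := by
      rw [spectrum.map_star]
      simpa using hw
    have h7 := spectrum.neg_eq (R := ℂ) (star A)
    have h8 : -(star w) ∈ spectrum ℂ (-(star A)) := by
      rw [← h7]
      simpa using h6
    exact h8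
  obtain ⟨M2, hM21, hM22, hM23, hM24⟩ := exists_M A2 C2 b K (fun k => (N' k)ᗮ) hK
    (fun k => by
      have := hN2' k
      rw [neg_neg] at this
      exact this)
    (fun k => by
      rw [hC2adj, Submodule.orthogonal_orthogonal]
      exact hN1' k)
    (fun k => by have := hbs k; have := hγ k; linarith)
    (by
      simp only [hdelta2]
      exact hsumgen b hbs)
    hspec2 (by
      simp only [hb, sum_range_zero, add_zero, neg_re, conj_re]
      linarith)
    (by
      have e1 : b 0 - (-(starRingEnd ℂ w)).re = L / 4 := by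
        simp only [hb, sum_range_zero, add_zero, neg_re, conj_re]
        rw [hL]
        ring
      rw [e1]
      simp only [hdelta2]
      exact hres)
  refine ⟨M, hM1, hM2, ?_, hM3⟩
  intro htop
  obtain ⟨y, hy, hy0⟩ := Submodule.exists_mem_ne_zero_of_ne_bot hM22
  have hyM : y ∈ M := by rw [htop]; trivial
  have h1 := hM4 y hyM
  have h2 := hM24 y hy
  have h3 : ∀ k, (inner ℂ (((N' k)ᗮ).starProjection y) ((N k).starProjection y) : ℂ) = 0 := by
    intro k
    have h4 := (hN1 k).pair (hK k) (hK k) (hN2' k) (by rw [neg_neg]; exact hcb k)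
      (ContinuousLinearMap.id ℂ H)
      (g := 0) le_rfl
      (by
        intro x
        rw [map_neg, ContinuousLinearMap.adjoint_adjoint]
        simp)
      (Submodule.starProjection_apply_mem (N k) y)
      (Submodule.starProjection_apply_mem ((N' k)ᗮ) y)
    rw [mul_zero, zero_mul, zero_mul] at h4
    exact norm_le_zero_iff.mp h4
  have h5 : Tendsto (fun k => (inner ℂ (((N' k)ᗮ).starProjection y) ((N k).starProjection y) : ℂ))
      atTop (𝓝 (inner ℂ y y)) := h2.inner h1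
  have h6 : (inner ℂ y y : ℂ) = 0 := by
    have h7 : Tendsto (fun k => (inner ℂ (((N' k)ᗮ).starProjection y)
        ((N k).starProjection y) : ℂ)) atTop (𝓝 0) := by
      simp only [h3]
      exact tendsto_const_nhds
    exact tendsto_nhds_unique h5 h7
  exact hy0 (inner_self_eq_zero.mp h6)

end gen

/-- `T` is an operator on a finite-dimensional inner product space which, in some ordered
orthonormal basis, is upper triangular, with the real parts of `v` times the diagonal entries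
nondecreasing, and whose strictly upper triangular part (that is `T` minus its diagonal) is, for
every `δ > 0`, within `δ` of an operator of rank at most `r δ`. -/
def CompactDeparture {V : Type u} [NormedAddCommGroup V] [InnerProductSpace ℂ V] (v : ℂ)
    (r : ℝ → ℕ) (T : V →ₗ[ℂ] V) : Prop :=
  ∃ (d : ℕ) (b : OrthonormalBasis (Fin d) ℂ V),
    (∀ i j, j < i → (inner ℂ (b i) (T (b j)) : ℂ) = 0) ∧
    (∀ i j, i ≤ j → (v * inner ℂ (b i) (T (b i))).re ≤ (v * inner ℂ (b j) (T (b j))).re) ∧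
    ∀ δ : ℝ, 0 < δ → ∃ F : V →ₗ[ℂ] V, Module.finrank ℂ (LinearMap.range F) ≤ r δ ∧
      ∀ x, ‖(T x - dg b T x) - F x‖ ≤ δ * ‖x‖

/-- the number of intervals for uniformly compact strictly upper parts. -/
noncomputable def Lfun (r : ℝ → ℕ) (M η : ℝ) : ℕ :=
  2 * ⌈(r (η / 2) : ℝ) * ((2 * M + η / 2) / (η / 2)) ^ 2⌉₊ + 1

/-- uniformly compact strictly upper parts are small on few intervals. -/
lemma CompactDeparture.interval {V : Type u} [NormedAddCommGroup V] [InnerProductSpace ℂ V]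
    {v : ℂ} {r : ℝ → ℕ} {T : V →ₗ[ℂ] V} (h : CompactDeparture v r T) {M : ℝ} (hM : 0 ≤ M)
    (hT : ∀ x, ‖T x‖ ≤ M * ‖x‖) : IntervalDeparture v (Lfun r M) T := by
  obtain ⟨d, b, h1, h2, h3⟩ := h
  have hfd : FiniteDimensional ℂ V := Module.Finite.of_basis b.toBasis
  refine ⟨d, b, h1, h2, ?_⟩
  apply cutB_of_count T b (fun η => ⌈(r (η / 2) : ℝ) * ((2 * M + η / 2) / (η / 2)) ^ 2⌉₊)
  intro η hη m w hw hbad
  obtain ⟨F, hF1, hF2⟩ := h3 (η / 2) (by positivity)
  have hc := count_bad m w hw (T - dg b T) F (δ := η / 2) (η := η) (M := 2 * M) (by positivity)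
    (by linarith) hF2
    (by
      intro x
      rw [LinearMap.sub_apply]
      calc ‖T x - dg b T x‖ ≤ ‖T x‖ + ‖dg b T x‖ := norm_sub_le _ _
        _ ≤ M * ‖x‖ + M * ‖x‖ := add_le_add (hT x) (norm_dg b T hM hT x)
        _ = _ := by ring) hbad
  have h2' : η - η / 2 = η / 2 := by ring
  rw [h2'] at hc
  have h3' : (0 : ℝ) < 2 * M + η / 2 := by linarith
  have h4 : (m : ℝ) ≤ (r (η / 2) : ℝ) * ((2 * M + η / 2) / (η / 2)) ^ 2 := by
    have h5 : (m : ℝ) = m * ((η / 2) / (2 * M + η / 2)) ^ 2 * ((2 * M + η / 2) / (η / 2)) ^ 2 := by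
      field_simp
    rw [h5]
    apply mul_le_mul_of_nonneg_right _ (sq_nonneg _)
    refine hc.trans ?_
    exact_mod_cast hF1
  exact_mod_cast h4.trans (Nat.le_ceil _)

/-- rotation of a block. -/
lemma IntervalDeparture.rot {V : Type u} [NormedAddCommGroup V] [InnerProductSpace ℂ V] {v : ℂ}
    (hv : v ≠ 0) {r : ℝ → ℕ} {T : V →ₗ[ℂ] V} (h : IntervalDeparture v r T) :
    IntervalDeparture 1 (fun η => r (η / ‖v‖)) (v • T) := by
  have hv' : 0 < ‖v‖ := norm_pos_iff.mpr hv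
  obtain ⟨d, b, h1, h2, h3⟩ := h
  refine ⟨d, b, ?_, ?_, ?_⟩
  · intro i j hij
    rw [LinearMap.smul_apply, inner_smul_right, h1 i j hij, mul_zero]
  · intro i j hij
    rw [LinearMap.smul_apply, LinearMap.smul_apply, inner_smul_right, inner_smul_right, one_mul,
      one_mul]
    exact h2 i j hij
  · intro η hη
    obtain ⟨s, hs1, hs2, hs3⟩ := h3 (η / ‖v‖) (by positivity)
    refine ⟨s, hs1, hs2, ?_⟩
    intro j x hx
    have h4 : (v • T) x - dg b (v • T) x = v • (T x - dg b T x) := by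
      simp only [dg, LinearMap.coe_mk, AddHom.coe_mk, LinearMap.smul_apply, inner_smul_right,
        smul_sub, smul_sum, smul_smul, mul_assoc]
    rw [h4, inner_smul_right, norm_mul]
    calc ‖v‖ * _ ≤ ‖v‖ * (η / ‖v‖ * ‖x‖ ^ 2) := mul_le_mul_of_nonneg_left (hs3 j x hx) hv'.le
      _ = η * ‖x‖ ^ 2 := by field_simp

variable {H : Type u} [NormedAddCommGroup H] [InnerProductSpace ℂ H] [CompleteSpace H]

/-- `B` is an orthogonal (Hilbert) direct sum of finite-dimensional blocks satisfying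
`IntervalDeparture v r`: there is a family of pairwise orthogonal subspaces with dense linear
span, each invariant under `B` and `B*`, such that the restriction of `B` to each of them
satisfies `IntervalDeparture v r` (in particular, each of them is finite-dimensional). -/
def BlockInterval (v : ℂ) (r : ℝ → ℕ) (B : H →L[ℂ] H) : Prop :=
  ∃ 𝒱 : Set (Submodule ℂ H), 𝒱.Pairwise (fun V W => V ⟂ W) ∧
    (sSup 𝒱).topologicalClosure = ⊤ ∧
    ∀ V ∈ 𝒱, (∀ x ∈ V, ContinuousLinearMap.adjoint B x ∈ V) ∧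
      ∃ h : ∀ x ∈ V, (B : H →ₗ[ℂ] H) x ∈ V, IntervalDeparture v r ((B : H →ₗ[ℂ] H).restrict h)

/-- rotation of a block operator. -/
lemma BlockInterval.rot {v : ℂ} (hv : v ≠ 0) {r : ℝ → ℕ} {B : H →L[ℂ] H}
    (h : BlockInterval v r B) : BlockInterval 1 (fun η => r (η / ‖v‖)) (v • B) := by
  obtain ⟨𝒱, h1, h2, h3⟩ := h
  refine ⟨𝒱, h1, h2, fun V hV => ⟨?_, ?_⟩⟩
  · intro x hx
    rw [map_smulₛₗ]
    exact V.smul_mem _ ((h3 V hV).1 x hx)
  · obtain ⟨h4, h5⟩ := (h3 V hV).2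
    refine ⟨fun x hx => V.smul_mem v (h4 x hx), ?_⟩
    exact h5.rot hv

lemma BlockInterval.split {B : H →L[ℂ] H} {r : ℝ → ℕ} (hB : BlockInterval 1 r B) {M : ℝ}
    (hM : ‖B‖ ≤ M) (c : ℝ) :
    ∃ N : Submodule ℂ H, WLeft B c (Kfun r M) N ∧
      WLeft (-(ContinuousLinearMap.adjoint B)) (-c) (Kfun r M) Nᗮ := by
  obtain ⟨𝒱, h1, h2, h3⟩ := hB
  apply split_blocks hM c 𝒱 h1 h2
  intro V hV
  obtain ⟨h4, h5⟩ := (h3 V hV).2
  exact ⟨(h3 V hV).1, (h5.cutIn c).cutData h4⟩

/-- real part version. -/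
theorem hyper_re (A : H →L[ℂ] H) {z w : ℂ} (hz : z ∈ spectrum ℂ A) (hw : w ∈ spectrum ℂ A)
    (hzw : z.re < w.re) (r : ℝ → ℕ)
    (happrox : ∀ ε : ℝ, 0 < ε → ∃ B : H →L[ℂ] H, ‖A - B‖ ≤ ε ∧ BlockInterval 1 r B) :
    ∃ M : Submodule ℂ H, IsClosed (M : Set H) ∧ M ≠ ⊥ ∧ M ≠ ⊤ ∧
      ∀ T : H →L[ℂ] H, T.comp A = A.comp T → ∀ x ∈ M, T x ∈ M := by
  set L : ℝ := w.re - z.re with hL
  have hLpos : 0 < L := by
    rw [hL]
    linarith
  set M₀ : ℝ := ‖A‖ + 1 with hM₀
  have hM₀0 : 0 ≤ M₀ := by positivity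
  set K : ℝ → ℝ := Kfun r M₀ with hKdef
  have hK : ∀ η, 0 < η → 0 < K η := fun η hη => Kfun_pos r hM₀0 hη
  set gap : ℕ → ℝ := fun k => L / 4 / 2 * (1 / 2) ^ k with hgap
  have hgap0 : ∀ k, 0 < gap k := fun k => by
    simp only [hgap]
    positivity
  have hgaps : Summable gap :=
    (summable_geometric_of_lt_one (by norm_num) (by norm_num)).mul_left _
  have hgapS : ∑' k, gap k ≤ L / 4 := by
    simp only [hgap]
    rw [tsum_mul_left, tsum_geometric_of_lt_one (by norm_num) (by norm_num)]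
    norm_num
  set G : ℕ → ℝ := fun k => 2 / gap k * (K (gap k / 4) * K (gap k / 4)) with hG
  have hG0 : ∀ k, 0 ≤ G k := by
    intro k
    have h1 := hgap0 k
    have h2 := hK (gap k / 4) (by positivity)
    simp only [hG]
    positivity
  have hS0 : ∀ k, 0 ≤ ∑ j ∈ range (k + 1), G j := fun k => sum_nonneg fun j _ => hG0 j
  have hGS : ∀ k, G k ≤ ∑ j ∈ range (k + 1), G j := fun k =>
    single_le_sum (f := G) (fun j _ => hG0 j) (mem_range.mpr (Nat.lt_succ_self k))
  have hGS' : ∀ k, G k ≤ ∑ j ∈ range (k + 1 + 1), G j := fun k =>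
    single_le_sum (f := G) (fun j _ => hG0 j) (mem_range.mpr (by omega))
  set ε : ℕ → ℝ := fun k => min 1 ((1 / 2) ^ k / (1 + ∑ j ∈ range (k + 1), G j)) with hε
  have hε0 : ∀ k, 0 < ε k := by
    intro k
    have := hS0 k
    simp only [hε]
    apply lt_min one_pos
    positivity
  have hε1 : ∀ k, ε k ≤ 1 := fun k => min_le_left _ _
  have hε2 : ∀ k, ε k * (1 + ∑ j ∈ range (k + 1), G j) ≤ (1 / 2) ^ k := by
    intro k
    have h0 := hS0 k
    rw [← le_div_iff₀ (by linarith)]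
    exact min_le_right _ _
  have hε3 : ∀ k, ε k ≤ (1 / 2) ^ k := by
    intro k
    refine le_trans ?_ (hε2 k)
    have h0 := hS0 k
    have h1 := (hε0 k).le
    nlinarith
  choose B hB1 hB2 using fun k => happrox (ε k) (hε0 k)
  have hBM : ∀ k, ‖B k‖ ≤ M₀ := by
    intro k
    have h1 : B k = A - (A - B k) := by abel
    rw [h1]
    refine (norm_sub_le _ _).trans ?_
    rw [hM₀]
    linarith [(hB1 k).trans (hε1 k)]
  apply hyper_gen A hz hw hzw B (fun _ => K) (fun _ => hK) (fun k c => (hB2 k).split (hBM k) c)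
    gap hgap0 hgaps hgapS
  · have hgeo : Summable (fun k : ℕ => 2 * (1 / 2 : ℝ) ^ k) :=
      (summable_geometric_of_lt_one (by norm_num) (by norm_num)).mul_left 2
    refine Summable.of_nonneg_of_le ?_ ?_ hgeo
    · intro k
      have h1 : 0 ≤ ‖A - B k‖ + ‖A - B (k + 1)‖ := by positivity
      exact mul_nonneg (hG0 k) h1
    · intro k
      have h0 := hG0 k
      have h1 : G k * ‖A - B k‖ ≤ (1 / 2) ^ k := by
        calc G k * ‖A - B k‖ ≤ G k * ε k := mul_le_mul_of_nonneg_left (hB1 k) h0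
          _ = ε k * G k := mul_comm _ _
          _ ≤ ε k * (1 + ∑ j ∈ range (k + 1), G j) := by
              apply mul_le_mul_of_nonneg_left _ (hε0 k).le
              linarith [hGS k]
          _ ≤ _ := hε2 k
      have h2 : G k * ‖A - B (k + 1)‖ ≤ (1 / 2) ^ (k + 1) := by
        calc G k * ‖A - B (k + 1)‖ ≤ G k * ε (k + 1) := mul_le_mul_of_nonneg_left (hB1 _) h0
          _ = ε (k + 1) * G k := mul_comm _ _
          _ ≤ ε (k + 1) * (1 + ∑ j ∈ range (k + 1 + 1), G j) := by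
              apply mul_le_mul_of_nonneg_left _ (hε0 _).le
              linarith [hGS' k]
          _ ≤ _ := hε2 (k + 1)
      have h3 : (1 / 2 : ℝ) ^ (k + 1) ≤ (1 / 2) ^ k := by
        rw [pow_succ]
        have : (0 : ℝ) ≤ (1 / 2) ^ k := by positivity
        linarith
      calc 2 / gap k * (K (gap k / 4) * K (gap k / 4)) * (‖A - B k‖ + ‖A - B (k + 1)‖)
          = G k * ‖A - B k‖ + G k * ‖A - B (k + 1)‖ := by
            simp only [hG]
            ring
        _ ≤ 2 * (1 / 2) ^ k := by linarith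
  · have h0 : 0 < K (L / 4 / 2) := hK _ (by positivity)
    have h1 : Tendsto (fun k : ℕ => (1 / 2 : ℝ) ^ k) atTop (𝓝 0) :=
      tendsto_pow_atTop_nhds_zero_of_lt_one (by norm_num) (by norm_num)
    have h2 := h1.eventually_lt_const (show (0 : ℝ) < (L / 4) / 2 * (K (L / 4 / 2))⁻¹ by positivity)
    filter_upwards [h2] with k hk
    exact ((hB1 k).trans (hε3 k)).trans_lt hk

/-- The main theorem. -/
theorem hyper_dir (A : H →L[ℂ] H) {z w : ℂ} (hz : z ∈ spectrum ℂ A) (hw : w ∈ spectrum ℂ A)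
    (v : ℂ) (hzw : (v * z).re ≠ (v * w).re) (r : ℝ → ℕ)
    (happrox : ∀ ε : ℝ, 0 < ε → ∃ B : H →L[ℂ] H, ‖A - B‖ ≤ ε ∧ BlockInterval v r B) :
    ∃ M : Submodule ℂ H, IsClosed (M : Set H) ∧ M ≠ ⊥ ∧ M ≠ ⊤ ∧
      ∀ T : H →L[ℂ] H, T.comp A = A.comp T → ∀ x ∈ M, T x ∈ M := by
  have hv : v ≠ 0 := by
    rintro rfl
    simp at hzw
  have hv' : 0 < ‖v‖ := norm_pos_iff.mpr hv
  have hspec : ∀ t : ℂ, t ∈ spectrum ℂ A → v * t ∈ spectrum ℂ (v • A) := by
    intro t ht
    exact (spectrum.smul_mem_smul_iff (R := ℂ) (a := A) (s := t) (r := Units.mk0 v hv)).mpr ht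
  have happ : ∀ ε : ℝ, 0 < ε → ∃ B : H →L[ℂ] H, ‖v • A - B‖ ≤ ε ∧
      BlockInterval 1 (fun η => r (η / ‖v‖)) B := by
    intro ε hε
    obtain ⟨B, hB1, hB2⟩ := happrox (ε / ‖v‖) (by positivity)
    refine ⟨v • B, ?_, hB2.rot hv⟩
    rw [← smul_sub, norm_smul]
    calc ‖v‖ * ‖A - B‖ ≤ ‖v‖ * (ε / ‖v‖) := mul_le_mul_of_nonneg_left hB1 hv'.le
      _ = ε := by field_simp
  have key : ∃ M : Submodule ℂ H, IsClosed (M : Set H) ∧ M ≠ ⊥ ∧ M ≠ ⊤ ∧
      ∀ T : H →L[ℂ] H, T.comp (v • A) = (v • A).comp T → ∀ x ∈ M, T x ∈ M := by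
    rcases lt_or_gt_of_ne hzw with h | h
    · exact hyper_re (v • A) (hspec z hz) (hspec w hw) h _ happ
    · exact hyper_re (v • A) (hspec w hw) (hspec z hz) h _ happ
  obtain ⟨M, h1, h2, h3, h4⟩ := key
  refine ⟨M, h1, h2, h3, fun T hT => h4 T ?_⟩
  rw [ContinuousLinearMap.comp_smul, ContinuousLinearMap.smul_comp, hT]

end ApproxC
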