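import Pool.Agent.Work.MP_ecaf63_an_c.Schat
import Pool.Agent.Work.MP_ecaf63_an_c.Final

/-!
Hyperinvariant subspaces of operators approximable by block operators whose imaginary parts are
controlled in a Schatten class.
-/

open Finset Complex InnerProductSpace Filter Topology ApproxInv

universe u

namespace ApproxC

lemma Sfun_anti (k : ℕ) {D : ℝ} (hD : 0 ≤ D) {η η' : ℝ} (hη : 0 < η) (h : η ≤ η') :
    Sfun k D η' ≤ Sfun k D η := by
  unfold Sfun
  have hc := (ck_pos k).le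
  have h1 : ck k * D / η' ^ (2 ^ (k + 1)) ≤ ck k * D / η ^ (2 ^ (k + 1)) := by
    apply div_le_div_of_nonneg_left (by positivity) (by positivity)
    exact pow_le_pow_left₀ hη.le h _
  have h2 := Nat.ceil_le_ceil h1
  omega

lemma Kfun_anti (L : ℝ → ℕ) (hL : ∀ η η', 0 < η → η ≤ η' → L η' ≤ L η) {M : ℝ} (hM : 0 ≤ M)
    {η η' : ℝ} (hη : 0 < η) (h : η ≤ η') : Kfun L M η' ≤ Kfun L M η := by
  unfold Kfun
  have hη' : 0 < η' := hη.trans_le h
  have e1 : ∀ x : ℝ, 0 < x → (x / 2 + M) / (x / 2) = 1 + 2 * M / x := by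
    intro x hx
    field_simp
  rw [e1 η hη, e1 η' hη']
  have h1 : 1 + 2 * M / η' ≤ 1 + 2 * M / η := by
    have := div_le_div_of_nonneg_left (show 0 ≤ 2 * M by linarith) hη h
    linarith
  have h2 : 0 ≤ 2 * M / η' := by positivity
  calc (1 + 2 * M / η') ^ L (η' / 2) ≤ (1 + 2 * M / η) ^ L (η' / 2) :=
        pow_le_pow_left₀ (by linarith) h1 _
    _ ≤ (1 + 2 * M / η) ^ L (η / 2) :=
        pow_le_pow_right₀ (by linarith) (hL _ _ (by positivity) (by linarith))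

lemma Kfun_ge_one (L : ℝ → ℕ) {M : ℝ} (hM : 0 ≤ M) {η : ℝ} (hη : 0 < η) : 1 ≤ Kfun L M η := by
  unfold Kfun
  apply one_le_pow₀
  rw [one_le_div (by positivity)]
  linarith

variable {H : Type u} [NormedAddCommGroup H] [InnerProductSpace ℂ H] [CompleteSpace H]

lemma BlockSchatten.mono {k : ℕ} {D D' : ℝ} {B : H →L[ℂ] H} (h : BlockSchatten k D B)
    (hD : D ≤ D') : BlockSchatten k D' B := by
  obtain ⟨𝒱, h1, h2, h3⟩ := h
  refine ⟨𝒱, h1, h2, fun V hV => ⟨(h3 V hV).1, ?_⟩⟩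
  obtain ⟨hf, hi, hd⟩ := (h3 V hV).2
  exact ⟨hf, hi, hd.trans hD⟩

lemma BlockSchatten.split {k : ℕ} {D : ℝ} (hD : 0 < D) {B : H →L[ℂ] H} (hB : BlockSchatten k D B)
    {M : ℝ} (hM : ‖B‖ ≤ M) {v : ℂ} (hv : ‖v‖ = 1) (c : ℝ) :
    ∃ N : Submodule ℂ H, WLeft (v • B) c (Kfun (Sfun k D) M) N ∧
      WLeft (-(ContinuousLinearMap.adjoint (v • B))) (-c) (Kfun (Sfun k D) M) Nᗮ := by
  obtain ⟨𝒱, h1, h2, h3⟩ := hB
  have hM' : ‖v • B‖ ≤ M := by
    rw [norm_smul, hv, one_mul]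
    exact hM
  apply split_blocks hM' c 𝒱 h1 h2
  intro V hV
  obtain ⟨hf, hi, hd⟩ := (h3 V hV).2
  refine ⟨?_, ?_⟩
  · intro x hx
    rw [map_smulₛₗ]
    exact V.smul_mem _ ((h3 V hV).1 x hx)
  · have h4 := schat_cutIn ((B : H →ₗ[ℂ] H).restrict hi) k hD hd hv c
    exact CutIn.cutData (B := v • B) (fun x hx => V.smul_mem v (hi x hx)) h4

/-- sequence version. -/
theorem schat_seq (A : H →L[ℂ] H) {z w : ℂ} (hz : z ∈ spectrum ℂ A) (hw : w ∈ spectrum ℂ A)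
    (hzw : z ≠ w) (B : ℕ → H →L[ℂ] H) (k : ℕ) (D η : ℕ → ℝ) (hD : ∀ j, 0 < D j)
    (hη : ∀ j, 0 < η j) (hηs : Summable η) (hB : ∀ j, BlockSchatten k (D j) (B j)) {M : ℝ}
    (hM : ∀ j, ‖B j‖ ≤ M)
    (hsum : ∀ κ : ℝ, 0 < κ → Summable fun j => 2 / (κ * η j)
      * (Kfun (Sfun k (D j)) M (κ * η j / 4) * Kfun (Sfun k (D (j + 1))) M (κ * η j / 4))
      * (‖A - B j‖ + ‖A - B (j + 1)‖)) :
    ∃ M : Submodule ℂ H, IsClosed (M : Set H) ∧ M ≠ ⊥ ∧ M ≠ ⊤ ∧
      ∀ T : H →L[ℂ] H, T.comp A = A.comp T → ∀ x ∈ M, T x ∈ M := by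
  have hM0 : 0 ≤ M := (norm_nonneg _).trans (hM 0)
  set L : ℝ := ‖w - z‖ with hL
  have hLpos : 0 < L := norm_pos_iff.mpr (sub_ne_zero.mpr (Ne.symm hzw))
  set v : ℂ := starRingEnd ℂ (w - z) / (L : ℂ) with hv
  have hvn : ‖v‖ = 1 := by
    rw [hv, norm_div, RCLike.norm_conj, norm_real, Real.norm_of_nonneg hLpos.le]
    exact div_self hLpos.ne'
  have hvwz : (v * (w - z)).re = L := by
    have h1 : v * (w - z) = ((L : ℝ) : ℂ) := by
      rw [hv, div_mul_eq_mul_div, mul_comm (starRingEnd ℂ (w - z)), mul_conj, normSq_eq_norm_sq,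
        ← hL]
      have : (L : ℂ) ≠ 0 := by exact_mod_cast hLpos.ne'
      push_cast
      field_simp
    rw [h1, ofReal_re]
  have hvd : (v * w).re - (v * z).re = L := by
    rw [← hvwz, ← sub_re]
    congr 1
    ring
  have hv0 : v ≠ 0 := by
    intro h
    rw [h, norm_zero] at hvn
    exact zero_ne_one hvn
  have hspec : ∀ t : ℂ, t ∈ spectrum ℂ A → v * t ∈ spectrum ℂ (v • A) := by
    intro t ht
    exact (spectrum.smul_mem_smul_iff (R := ℂ) (a := A) (s := t) (r := Units.mk0 v hv0)).mpr ht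
  have hdelta : ∀ j, ‖v • A - v • B j‖ = ‖A - B j‖ := by
    intro j
    rw [← smul_sub, norm_smul, hvn, one_mul]
  set S : ℝ := ∑' j, η j with hS
  have hSpos : 0 < S := hηs.tsum_pos (fun j => (hη j).le) 0 (hη 0)
  have hηle : ∀ j, η j ≤ S := fun j => hηs.le_tsum j (fun i _ => (hη i).le)
  set κ : ℝ := L / (4 * S) with hκ
  have hκpos : 0 < κ := by positivity
  have hκS : κ * S = L / 4 := by
    rw [hκ]
    field_simp
  have hsumκ := hsum κ hκpos
  have key : ∃ M : Submodule ℂ H, IsClosed (M : Set H) ∧ M ≠ ⊥ ∧ M ≠ ⊤ ∧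
      ∀ T : H →L[ℂ] H, T.comp (v • A) = (v • A).comp T → ∀ x ∈ M, T x ∈ M := by
    apply hyper_gen (v • A) (hspec z hz) (hspec w hw) (by linarith) (fun j => v • B j)
      (fun j => Kfun (Sfun k (D j)) M) (fun j η hη => Kfun_pos _ hM0 hη)
      (fun j c => (hB j).split (hD j) (hM j) hvn c) (fun j => κ * η j)
      (fun j => mul_pos hκpos (hη j)) (hηs.mul_left κ)
    · rw [tsum_mul_left, ← hS, hκS, hvd]
    · simp only [hdelta]
      exact hsumκ
    · simp only [hdelta, hvd]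
      have h2 := hsumκ.tendsto_atTop_zero.eventually_lt_const (show (0 : ℝ) < 1 by norm_num)
      filter_upwards [h2] with j hj
      have hγ : 0 < κ * η j := mul_pos hκpos (hη j)
      have hγL : κ * η j ≤ L / 4 := by
        rw [← hκS]
        exact mul_le_mul_of_nonneg_left (hηle j) hκpos.le
      have h3 : Kfun (Sfun k (D j)) M (L / 4 / 2) ≤ Kfun (Sfun k (D j)) M (κ * η j / 4) := by
        apply Kfun_anti _ (fun a b ha hab => Sfun_anti k (hD j).le ha hab) hM0 (by positivity)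
        linarith
      have h4 : 1 ≤ Kfun (Sfun k (D (j + 1))) M (κ * η j / 4) := Kfun_ge_one _ hM0 (by positivity)
      have h5 : 0 < Kfun (Sfun k (D j)) M (L / 4 / 2) := Kfun_pos _ hM0 (by positivity)
      have h6 : 0 < Kfun (Sfun k (D j)) M (κ * η j / 4) := Kfun_pos _ hM0 (by positivity)
      rw [← div_eq_mul_inv, lt_div_iff₀ h5]
      have h7 : 2 / (κ * η j) * (Kfun (Sfun k (D j)) M (κ * η j / 4)) * ‖A - B j‖ < 1 := by
        refine lt_of_le_of_lt ?_ hj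
        have h8 : Kfun (Sfun k (D j)) M (κ * η j / 4)
            ≤ Kfun (Sfun k (D j)) M (κ * η j / 4) * Kfun (Sfun k (D (j + 1))) M (κ * η j / 4) :=
          le_mul_of_one_le_right h6.le h4
        have h9 : ‖A - B j‖ ≤ ‖A - B j‖ + ‖A - B (j + 1)‖ := by
          linarith [norm_nonneg (A - B (j + 1))]
        have h10 : 0 ≤ 2 / (κ * η j) := by positivity
        apply mul_le_mul _ h9 (norm_nonneg _) (by positivity)
        exact mul_le_mul_of_nonneg_left h8 h10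
      have h8 : Kfun (Sfun k (D j)) M (κ * η j / 4) * ‖A - B j‖ < κ * η j / 2 := by
        have h9 : 2 / (κ * η j) * (Kfun (Sfun k (D j)) M (κ * η j / 4)) * ‖A - B j‖
            = (Kfun (Sfun k (D j)) M (κ * η j / 4) * ‖A - B j‖) / (κ * η j / 2) := by
          field_simp
        rw [h9, div_lt_one (by positivity)] at h7
        exact h7
      calc ‖A - B j‖ * Kfun (Sfun k (D j)) M (L / 4 / 2)
          ≤ ‖A - B j‖ * Kfun (Sfun k (D j)) M (κ * η j / 4) :=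
            mul_le_mul_of_nonneg_left h3 (norm_nonneg _)
        _ = Kfun (Sfun k (D j)) M (κ * η j / 4) * ‖A - B j‖ := mul_comm _ _
        _ < κ * η j / 2 := h8
        _ ≤ L / 4 / 2 := by linarith
  obtain ⟨N, h1, h2, h3, h4⟩ := key
  refine ⟨N, h1, h2, h3, fun T hT => h4 T ?_⟩
  rw [ContinuousLinearMap.comp_smul, ContinuousLinearMap.smul_comp, hT]

/-- growth of the exponents. -/
lemma growth (K s ρ K' : ℝ) (hs : 0 < s) (hρ : ρ < s) (k₀ : ℕ) (hk₀ : 1 ≤ k₀) :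
    ∀ᶠ j : ℕ in atTop, K' * (3 + |K| * (2 : ℝ) ^ (j + k₀) / (((j + k₀ : ℕ) : ℝ) * Real.log 2) ^ s
      + |K| * (2 : ℝ) ^ (j + 1 + k₀) / (((j + 1 + k₀ : ℕ) : ℝ) * Real.log 2) ^ s)
      * ((j + k₀ : ℕ) : ℝ) ^ ρ ≤ (2 : ℝ) ^ (j + k₀) / 2 := by
  have hl2 : 0 < Real.log 2 := Real.log_pos (by norm_num)
  have hmpos : ∀ k : ℕ, (1 : ℝ) ≤ ((k + k₀ : ℕ) : ℝ) := by
    intro k
    exact_mod_cast (by omega : 1 ≤ k + k₀)
  have hcore : Tendsto (fun m : ℕ => |K'| * 3 * ((m : ℝ) ^ ρ / (2 : ℝ) ^ m)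
      + |K'| * (3 * |K| / (Real.log 2) ^ s) * (m : ℝ) ^ (ρ - s)) atTop (𝓝 0) := by
    have h1 : Tendsto (fun m : ℕ => (m : ℝ) ^ ρ / (2 : ℝ) ^ m) atTop (𝓝 0) := by
      have h2 := (tendsto_rpow_mul_exp_neg_mul_atTop_nhds_zero ρ (Real.log 2) hl2).comp
        tendsto_natCast_atTop_atTop
      refine h2.congr fun m => ?_
      simp only [Function.comp_apply]
      rw [div_eq_mul_inv]
      congr 1
      rw [← Real.rpow_natCast, ← Real.rpow_neg (by norm_num), Real.rpow_def_of_pos (by norm_num)]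
      congr 1
      ring
    have h3 : Tendsto (fun m : ℕ => (m : ℝ) ^ (ρ - s)) atTop (𝓝 0) := by
      have h4 := (tendsto_rpow_neg_atTop (show 0 < s - ρ by linarith)).comp
        tendsto_natCast_atTop_atTop
      refine h4.congr fun m => ?_
      simp only [Function.comp_apply, neg_sub]
    have h5 := (h1.const_mul (|K'| * 3)).add (h3.const_mul (|K'| * (3 * |K| / (Real.log 2) ^ s)))
    simpa using h5
  have h1 := (tendsto_add_atTop_iff_nat k₀).mpr hcore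
  have h2 := h1.eventually_lt_const (show (0 : ℝ) < 1 / 2 by norm_num)
  filter_upwards [h2] with j hj
  have hm := hmpos j
  set m : ℝ := ((j + k₀ : ℕ) : ℝ) with hmdef
  have hm0 : 0 < m := by linarith
  have hls : 0 < (Real.log 2) ^ s := Real.rpow_pos_of_pos hl2 s
  have hDk : |K| * (2 : ℝ) ^ (j + k₀) / (m * Real.log 2) ^ s
      = |K| / (Real.log 2) ^ s * (2 : ℝ) ^ (j + k₀) * m ^ (-s) := by
    rw [Real.mul_rpow hm0.le hl2.le, Real.rpow_neg hm0.le]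
    have := (Real.rpow_pos_of_pos hm0 s).ne'
    field_simp
  have hDk1 : |K| * (2 : ℝ) ^ (j + 1 + k₀) / (((j + 1 + k₀ : ℕ) : ℝ) * Real.log 2) ^ s
      ≤ 2 * (|K| / (Real.log 2) ^ s) * (2 : ℝ) ^ (j + k₀) * m ^ (-s) := by
    have hm1 : m ≤ ((j + 1 + k₀ : ℕ) : ℝ) := by
      rw [hmdef]
      exact_mod_cast (by omega : j + k₀ ≤ j + 1 + k₀)
    have hm1pos : 0 < ((j + 1 + k₀ : ℕ) : ℝ) := by linarith
    rw [Real.mul_rpow hm1pos.le hl2.le, Real.rpow_neg hm0.le]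
    have h3 : m ^ s ≤ ((j + 1 + k₀ : ℕ) : ℝ) ^ s := Real.rpow_le_rpow hm0.le hm1 hs.le
    have h4 := Real.rpow_pos_of_pos hm0 s
    have h5 : (2 : ℝ) ^ (j + 1 + k₀) = 2 * 2 ^ (j + k₀) := by
      rw [show j + 1 + k₀ = (j + k₀) + 1 by ring, pow_succ]
      ring
    rw [h5]
    have h6 : |K| * (2 * 2 ^ (j + k₀)) / (((j + 1 + k₀ : ℕ) : ℝ) ^ s * (Real.log 2) ^ s)
        ≤ |K| * (2 * 2 ^ (j + k₀)) / (m ^ s * (Real.log 2) ^ s) := by
      gcongr
    refine h6.trans (le_of_eq ?_)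
    field_simp
  have hsplit : m ^ (-s) * m ^ ρ = m ^ (ρ - s) := by
    rw [← Real.rpow_add hm0]
    congr 1
    ring
  have hpow : (0 : ℝ) < 2 ^ (j + k₀) := by positivity
  have hmr : 0 ≤ m ^ ρ := (Real.rpow_pos_of_pos hm0 _).le
  have hm1pos : (0 : ℝ) < ((j + 1 + k₀ : ℕ) : ℝ) := by
    exact_mod_cast (by omega : 0 < j + 1 + k₀)
  have hD0 : 0 ≤ |K| * (2 : ℝ) ^ (j + k₀) / (m * Real.log 2) ^ s := by positivity
  have hD1 : 0 ≤ |K| * (2 : ℝ) ^ (j + 1 + k₀) / (((j + 1 + k₀ : ℕ) : ℝ) * Real.log 2) ^ s := by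
    positivity
  calc K' * (3 + |K| * (2 : ℝ) ^ (j + k₀) / (m * Real.log 2) ^ s
      + |K| * (2 : ℝ) ^ (j + 1 + k₀) / (((j + 1 + k₀ : ℕ) : ℝ) * Real.log 2) ^ s) * m ^ ρ
      ≤ |K'| * (3 + |K| * (2 : ℝ) ^ (j + k₀) / (m * Real.log 2) ^ s
      + |K| * (2 : ℝ) ^ (j + 1 + k₀) / (((j + 1 + k₀ : ℕ) : ℝ) * Real.log 2) ^ s) * m ^ ρ := by
        apply mul_le_mul_of_nonneg_right _ hmr
        exact mul_le_mul_of_nonneg_right (le_abs_self _) (by linarith)
    _ ≤ |K'| * (3 + |K| / (Real.log 2) ^ s * (2 : ℝ) ^ (j + k₀) * m ^ (-s)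
          + 2 * (|K| / (Real.log 2) ^ s) * (2 : ℝ) ^ (j + k₀) * m ^ (-s)) * m ^ ρ := by
        apply mul_le_mul_of_nonneg_right _ hmr
        apply mul_le_mul_of_nonneg_left _ (abs_nonneg _)
        rw [hDk]
        linarith
    _ = (2 : ℝ) ^ (j + k₀) * (|K'| * 3 * (m ^ ρ / (2 : ℝ) ^ (j + k₀))
          + |K'| * (3 * |K| / (Real.log 2) ^ s) * m ^ (ρ - s)) := by
        rw [← hsplit]
        field_simp
        ring
    _ ≤ (2 : ℝ) ^ (j + k₀) * (1 / 2) := mul_le_mul_of_nonneg_left hj.le hpow.le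
    _ = (2 : ℝ) ^ (j + k₀) / 2 := by ring

/-- bound for the constants. -/
lemma Kfun_bound (k : ℕ) {M κ r t : ℝ} (hM : 0 ≤ M) (hκ : 0 < κ) (hr : 0 < r) (ht : 0 < t) :
    ∃ C : ℝ, 0 < C ∧ ∀ (m : ℝ), 1 ≤ m → ∀ D₁ D₂ : ℝ, 0 ≤ D₁ → 0 ≤ D₂ →
      2 / (κ * (m ^ r)⁻¹) * (Kfun (Sfun k D₁) M (κ * (m ^ r)⁻¹ / 4)
        * Kfun (Sfun k D₂) M (κ * (m ^ r)⁻¹ / 4))
      ≤ Real.exp (C * (1 + D₁ + D₂) * m ^ (r * (2 : ℝ) ^ (k + 1) + r * t)) := by
  set P : ℕ := 2 ^ (k + 1) with hP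
  have hck := ck_pos k
  set C₁ : ℝ := (1 + 8 * M / κ) ^ t / t with hC₁
  set C₂ : ℝ := 2 * ck k * (8 / κ) ^ P + 6 with hC₂
  have hX0 : 0 < 1 + 8 * M / κ := by positivity
  have hC₁0 : 0 < C₁ := by
    have := Real.rpow_pos_of_pos hX0 t
    positivity
  have hC₂0 : 0 < C₂ := by positivity
  refine ⟨C₂ * C₁ + 2 / κ, by positivity, ?_⟩
  intro m hm D₁ D₂ hD₁ hD₂
  have hm0 : 0 < m := by linarith
  set y : ℝ := m ^ r with hy
  have hy1 : 1 ≤ y := Real.one_le_rpow hm hr.le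
  have hy0 : 0 < y := by linarith
  set γ : ℝ := κ * y⁻¹ with hγ
  have hγ0 : 0 < γ := by positivity
  set X : ℝ := 1 + 8 * M / γ with hX
  have hXle : X ≤ (1 + 8 * M / κ) * y := by
    have e1 : 8 * M / γ = 8 * M / κ * y := by
      rw [hγ]
      field_simp
    rw [hX, e1]
    nlinarith
  have hX1 : 1 ≤ X := by
    have : 0 ≤ 8 * M / γ := by positivity
    linarith
  have hlogX : Real.log X ≤ C₁ * m ^ (r * t) := by
    calc Real.log X ≤ X ^ t / t := Real.log_le_rpow_div (by linarith) ht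
      _ ≤ ((1 + 8 * M / κ) * y) ^ t / t := by
          apply div_le_div_of_nonneg_right _ ht.le
          exact Real.rpow_le_rpow (by linarith) hXle ht.le
      _ = C₁ * m ^ (r * t) := by
          rw [Real.mul_rpow hX0.le hy0.le, hy, ← Real.rpow_mul hm0.le, hC₁]
          ring
  have hlogX0 : 0 ≤ Real.log X := Real.log_nonneg hX1
  have hK : ∀ D : ℝ, Kfun (Sfun k D) M (γ / 4) = Real.exp (Sfun k D (γ / 4 / 2) * Real.log X) := by
    intro D
    unfold Kfun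
    have e1 : (γ / 4 / 2 + M) / (γ / 4 / 2) = X := by
      rw [hX]
      field_simp
      ring
    rw [e1, Real.exp_nat_mul, Real.exp_log (by linarith)]
  have hS : ∀ D : ℝ, 0 ≤ D → (Sfun k D (γ / 4 / 2) : ℝ) ≤ 2 * ck k * (8 / κ) ^ P * D * y ^ P + 3 := by
    intro D hD
    unfold Sfun
    rw [← hP]
    push_cast
    have e1 : ck k * D / (γ / 4 / 2) ^ P = ck k * (8 / κ) ^ P * D * y ^ P := by
      rw [hγ]
      have : κ * y⁻¹ / 4 / 2 = (8 / κ * y)⁻¹ := by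
        field_simp
        norm_num
      rw [this, inv_pow, div_inv_eq_mul, mul_pow]
      ring
    have h1 : (⌈ck k * D / (γ / 4 / 2) ^ P⌉₊ : ℝ) < ck k * D / (γ / 4 / 2) ^ P + 1 :=
      Nat.ceil_lt_add_one (by positivity)
    rw [e1] at h1
    rw [e1]
    linarith [h1]
  have hyP : y ^ P = m ^ (r * (2 : ℝ) ^ (k + 1)) := by
    rw [hy, ← Real.rpow_natCast, ← Real.rpow_mul hm0.le, hP]
    push_cast
    rfl
  have hyP1 : 1 ≤ y ^ P := one_le_pow₀ hy1
  have hmt1 : 1 ≤ m ^ (r * t) := Real.one_le_rpow hm (by positivity)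
  have hmt0 : 0 < m ^ (r * t) := by linarith
  have hprod : m ^ (r * (2 : ℝ) ^ (k + 1) + r * t) = y ^ P * m ^ (r * t) := by
    rw [Real.rpow_add hm0, hyP]
  have hsum : ((Sfun k D₁ (γ / 4 / 2) : ℝ) + Sfun k D₂ (γ / 4 / 2))
      ≤ C₂ * (1 + D₁ + D₂) * y ^ P := by
    have h1 := hS D₁ hD₁
    have h2 := hS D₂ hD₂
    have h3 : 0 ≤ (1 + D₁ + D₂) := by linarith
    have h4 : C₂ * (1 + D₁ + D₂) * y ^ P
        = 2 * ck k * (8 / κ) ^ P * (D₁ + D₂) * y ^ P + (2 * ck k * (8 / κ) ^ P * y ^ P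
          + 6 * (1 + D₁ + D₂) * y ^ P) := by
      rw [hC₂]
      ring
    have h5 : 0 ≤ 2 * ck k * (8 / κ) ^ P * y ^ P := by positivity
    have h6 : 6 ≤ 6 * (1 + D₁ + D₂) * y ^ P := by
      have : 1 ≤ (1 + D₁ + D₂) * y ^ P := by
        have h7 : 1 ≤ 1 + D₁ + D₂ := by linarith
        nlinarith
      linarith
    rw [h4]
    linarith
  have hexp1 : ((Sfun k D₁ (γ / 4 / 2) : ℝ) + Sfun k D₂ (γ / 4 / 2)) * Real.log X
      ≤ C₂ * C₁ * (1 + D₁ + D₂) * (y ^ P * m ^ (r * t)) := by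
    calc ((Sfun k D₁ (γ / 4 / 2) : ℝ) + Sfun k D₂ (γ / 4 / 2)) * Real.log X
        ≤ (C₂ * (1 + D₁ + D₂) * y ^ P) * (C₁ * m ^ (r * t)) := by
          apply mul_le_mul hsum hlogX hlogX0
          have : 0 ≤ 1 + D₁ + D₂ := by linarith
          positivity
      _ = _ := by ring
  have hexp2 : 2 / γ ≤ Real.exp (2 / κ * (1 + D₁ + D₂) * (y ^ P * m ^ (r * t))) := by
    have e1 : 2 / γ = 2 / κ * y := by
      rw [hγ]
      field_simp
    have h1 : y ≤ y ^ P := by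
      apply le_self_pow₀ hy1
      rw [hP]
      positivity
    have h2 : 2 / κ * y ≤ 2 / κ * (1 + D₁ + D₂) * (y ^ P * m ^ (r * t)) := by
      have h3 : y ≤ (1 + D₁ + D₂) * (y ^ P * m ^ (r * t)) := by
        have h4 : y ^ P ≤ y ^ P * m ^ (r * t) := le_mul_of_one_le_right (by positivity) hmt1
        have h5 : y ^ P * m ^ (r * t) ≤ (1 + D₁ + D₂) * (y ^ P * m ^ (r * t)) :=
          le_mul_of_one_le_left (by positivity) (by linarith)
        linarith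
      calc 2 / κ * y ≤ 2 / κ * ((1 + D₁ + D₂) * (y ^ P * m ^ (r * t))) :=
            mul_le_mul_of_nonneg_left h3 (by positivity)
        _ = _ := by ring
    rw [e1]
    have h6 := Real.add_one_le_exp (2 / κ * (1 + D₁ + D₂) * (y ^ P * m ^ (r * t)))
    linarith
  rw [hK, hK, ← Real.exp_add, ← add_mul]
  calc 2 / γ * Real.exp (((Sfun k D₁ (γ / 4 / 2) : ℝ) + Sfun k D₂ (γ / 4 / 2)) * Real.log X)
      ≤ Real.exp (2 / κ * (1 + D₁ + D₂) * (y ^ P * m ^ (r * t)))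
        * Real.exp (C₂ * C₁ * (1 + D₁ + D₂) * (y ^ P * m ^ (r * t))) := by
        apply mul_le_mul hexp2 (Real.exp_le_exp.mpr hexp1) (Real.exp_pos _).le (Real.exp_pos _).le
    _ = _ := by
        rw [← Real.exp_add, hprod]
        congr 1
        ring

/-- function version: the Schatten norms may grow slowly. -/
theorem schat_fun (A : H →L[ℂ] H) {z w : ℂ} (hz : z ∈ spectrum ℂ A) (hw : w ∈ spectrum ℂ A)
    (hzw : z ≠ w) (k : ℕ) (K s ε₀ : ℝ) (hs : (2 : ℝ) ^ (k + 1) < s) (hε₀ : 0 < ε₀)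
    (h : ∀ ε : ℝ, 0 < ε → ε < ε₀ → ∃ B : H →L[ℂ] H, ‖A - B‖ ≤ ε ∧
      BlockSchatten k (K * Real.log (1 / ε) / (Real.log (Real.log (1 / ε))) ^ s) B) :
    ∃ M : Submodule ℂ H, IsClosed (M : Set H) ∧ M ≠ ⊥ ∧ M ≠ ⊤ ∧
      ∀ T : H →L[ℂ] H, T.comp A = A.comp T → ∀ x ∈ M, T x ∈ M := by
  have hl2 : 0 < Real.log 2 := Real.log_pos (by norm_num)
  set P : ℝ := (2 : ℝ) ^ (k + 1) with hP
  have hP0 : 0 < P := by positivity
  have hs0 : 0 < s := by linarith
  -- starting index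
  obtain ⟨k₀, hk₀⟩ : ∃ k₀ : ℕ, 1 ≤ k₀ ∧ Real.exp (-((2 : ℝ) ^ k₀)) < ε₀ := by
    have h1 : Tendsto (fun k : ℕ => Real.exp (-((2 : ℝ) ^ k))) atTop (𝓝 0) := by
      apply Real.tendsto_exp_neg_atTop_nhds_zero.comp
      exact tendsto_pow_atTop_atTop_of_one_lt (by norm_num)
    obtain ⟨k₀, h2⟩ := ((h1.eventually_lt_const hε₀).and (eventually_ge_atTop 1)).exists
    exact ⟨k₀, h2.2, h2.1⟩
  set ε : ℕ → ℝ := fun j => Real.exp (-((2 : ℝ) ^ (j + k₀))) with hε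
  have hεpos : ∀ j, 0 < ε j := fun j => Real.exp_pos _
  have hεlt : ∀ j, ε j < ε₀ := by
    intro j
    refine lt_of_le_of_lt ?_ hk₀.2
    apply Real.exp_le_exp.mpr
    rw [neg_le_neg_iff]
    exact pow_le_pow_right₀ (by norm_num) (by omega)
  have hεone : ∀ j, ε j ≤ 1 := by
    intro j
    simp only [hε]
    rw [Real.exp_le_one_iff]
    have : (0 : ℝ) < 2 ^ (j + k₀) := by positivity
    linarith
  choose B hB1 hB2 using fun j => h (ε j) (hεpos j) (hεlt j)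
  have hlog : ∀ j, Real.log (1 / ε j) = (2 : ℝ) ^ (j + k₀) := by
    intro j
    simp only [hε]
    rw [one_div, ← Real.exp_neg, neg_neg, Real.log_exp]
  have hloglog : ∀ j, Real.log (Real.log (1 / ε j)) = ((j + k₀ : ℕ) : ℝ) * Real.log 2 := by
    intro j
    rw [hlog, Real.log_pow]
  set E : ℕ → ℝ := fun j => |K| * (2 : ℝ) ^ (j + k₀) / (((j + k₀ : ℕ) : ℝ) * Real.log 2) ^ s with hE
  have hmpos : ∀ j, (1 : ℝ) ≤ ((j + k₀ : ℕ) : ℝ) := by
    intro j
    exact_mod_cast (by omega : 1 ≤ j + k₀)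
  have hE0 : ∀ j, 0 ≤ E j := by
    intro j
    have h1 : 0 ≤ ((j + k₀ : ℕ) : ℝ) * Real.log 2 := by
      have := hmpos j
      positivity
    have h2 := Real.rpow_nonneg h1 s
    simp only [hE]
    positivity
  set D : ℕ → ℝ := fun j => E j + 1 with hD
  have hD0 : ∀ j, 0 < D j := fun j => by
    have := hE0 j
    simp only [hD]
    linarith
  have hB : ∀ j, BlockSchatten k (D j) (B j) := by
    intro j
    apply (hB2 j).mono
    rw [hloglog, hlog]
    simp only [hD, hE]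
    have h1 : 0 ≤ ((j + k₀ : ℕ) : ℝ) * Real.log 2 := by
      have := hmpos j
      positivity
    have h2 := Real.rpow_nonneg h1 s
    have h3 : K * (2 : ℝ) ^ (j + k₀) / (((j + k₀ : ℕ) : ℝ) * Real.log 2) ^ s
        ≤ |K| * (2 : ℝ) ^ (j + k₀) / (((j + k₀ : ℕ) : ℝ) * Real.log 2) ^ s := by
      apply div_le_div_of_nonneg_right _ h2
      exact mul_le_mul_of_nonneg_right (le_abs_self K) (by positivity)
    linarith
  set M : ℝ := ‖A‖ + 1 with hMdef
  have hM0 : 0 ≤ M := by positivity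
  have hBM : ∀ j, ‖B j‖ ≤ M := by
    intro j
    have h1 : B j = A - (A - B j) := by abel
    rw [h1]
    refine (norm_sub_le _ _).trans ?_
    rw [hMdef]
    linarith [(hB1 j).trans (hεone j)]
  set r : ℝ := (1 + s / P) / 2 with hr
  have hsP : 1 < s / P := by
    rw [lt_div_iff₀ hP0, one_mul]
    exact hs
  have hr1 : 1 < r := by
    rw [hr]
    linarith
  have hr0 : 0 < r := by linarith
  have hrP : r * P = (P + s) / 2 := by
    rw [hr]
    field_simp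
  set t : ℝ := (s - P) / (4 * r) with ht
  have ht0 : 0 < t := by
    rw [ht]
    have : 0 < s - P := by linarith
    positivity
  have hrt : r * t = (s - P) / 4 := by
    rw [ht]
    field_simp
  set ρ : ℝ := r * P + r * t with hρ
  have hρs : ρ < s := by
    rw [hρ, hrP, hrt]
    linarith
  set η : ℕ → ℝ := fun j => (((j + k₀ : ℕ) : ℝ) ^ r)⁻¹ with hη
  have hηpos : ∀ j, 0 < η j := by
    intro j
    have := hmpos j
    simp only [hη]
    positivity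
  have hηs : Summable η := by
    have h1 : Summable (fun n : ℕ => ((n : ℝ) ^ r)⁻¹) := Real.summable_nat_rpow_inv.mpr hr1
    exact (summable_nat_add_iff k₀).mpr h1
  apply schat_seq A hz hw hzw B k D η hD0 hηpos hηs hB hBM
  intro κ hκ
  obtain ⟨C, hC0, hC⟩ := Kfun_bound k hM0 hκ hr0 ht0
  have hev := growth K s ρ C hs0 hρs k₀ hk₀.1
  have hgeo : Summable (fun k : ℕ => 2 * Real.exp (-((k : ℝ) / 2))) := by
    have h1 : Summable (fun k : ℕ => (Real.exp (-(1 / 2 : ℝ))) ^ k) :=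
      summable_geometric_of_lt_one (Real.exp_pos _).le (by
        rw [Real.exp_lt_one_iff]
        norm_num)
    refine (h1.mul_left 2).congr fun k => ?_
    rw [← Real.exp_nat_mul]
    congr 2
    ring
  refine Summable.of_norm_bounded_eventually_nat hgeo ?_
  filter_upwards [hev] with j hj
  have hKb := hC ((j + k₀ : ℕ) : ℝ) (hmpos j) (D j) (D (j + 1)) (hD0 j).le (hD0 (j + 1)).le
  have hKp1 : 0 < Kfun (Sfun k (D j)) M (κ * η j / 4) :=
    Kfun_pos _ hM0 (by have := hηpos j; positivity)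
  have hKp2 : 0 < Kfun (Sfun k (D (j + 1))) M (κ * η j / 4) :=
    Kfun_pos _ hM0 (by have := hηpos j; positivity)
  have hηj := hηpos j
  rw [Real.norm_of_nonneg (by positivity)]
  have h1 : ‖A - B j‖ + ‖A - B (j + 1)‖ ≤ 2 * Real.exp (-((2 : ℝ) ^ (j + k₀))) := by
    have h2 := hB1 j
    have h3 := hB1 (j + 1)
    have h4 : ε (j + 1) ≤ ε j := by
      simp only [hε]
      apply Real.exp_le_exp.mpr
      rw [neg_le_neg_iff]
      exact pow_le_pow_right₀ (by norm_num) (by omega)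
    have h5 : ε j = Real.exp (-((2 : ℝ) ^ (j + k₀))) := rfl
    linarith
  have h2 : C * (1 + D j + D (j + 1)) * ((j + k₀ : ℕ) : ℝ) ^ ρ ≤ (2 : ℝ) ^ (j + k₀) / 2 := by
    have e1 : 1 + D j + D (j + 1) = 3 + E j + E (j + 1) := by
      simp only [hD]
      ring
    rw [e1]
    exact hj
  calc 2 / (κ * η j) * (Kfun (Sfun k (D j)) M (κ * η j / 4)
        * Kfun (Sfun k (D (j + 1))) M (κ * η j / 4)) * (‖A - B j‖ + ‖A - B (j + 1)‖)
      ≤ Real.exp (C * (1 + D j + D (j + 1)) * ((j + k₀ : ℕ) : ℝ) ^ ρ)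
        * (2 * Real.exp (-((2 : ℝ) ^ (j + k₀)))) := by
        apply mul_le_mul hKb h1 (by positivity) (Real.exp_pos _).le
    _ ≤ Real.exp ((2 : ℝ) ^ (j + k₀) / 2) * (2 * Real.exp (-((2 : ℝ) ^ (j + k₀)))) := by
        gcongr
    _ = 2 * Real.exp (-((2 : ℝ) ^ (j + k₀) / 2)) := by
        rw [mul_left_comm, ← Real.exp_add]
        congr 2
        ring
    _ ≤ 2 * Real.exp (-((j : ℝ) / 2)) := by
        have h6 : (j : ℝ) ≤ (2 : ℝ) ^ (j + k₀) := by
          have h7 : (j + k₀ : ℕ) < 2 ^ (j + k₀) := Nat.lt_two_pow_self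
          have h8 : (j : ℝ) ≤ ((j + k₀ : ℕ) : ℝ) := by exact_mod_cast (by omega : j ≤ j + k₀)
          have h9 : ((j + k₀ : ℕ) : ℝ) ≤ (2 : ℝ) ^ (j + k₀) := by exact_mod_cast h7.le
          linarith
        gcongr

end ApproxC
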