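import Pool.Agent.Work.MP_ecaf63_an_c.Nest

/-!
Cutting an ordered orthonormal basis into few intervals on which an operator of small essential
size has small numerical radius.
-/

open Finset Complex InnerProductSpace

universe u

namespace ApproxC

/-- greedy cutting. -/
lemma greedy (bad : ℕ → ℕ → Prop) (n : ℕ) (hlt : ∀ a b, bad a b → a + 1 < b) :
    ∀ (l a : ℕ), n - a = l → a ≤ n → ∃ (m : ℕ) (t s : ℕ → ℕ), t 0 = a ∧
      (∀ j < m, t j < t (j + 1) ∧ bad (t j) (t (j + 1))) ∧ t m ≤ n ∧
      (∀ p q, a ≤ p → p ≤ q → q < n → s p ≤ s q) ∧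
      (∀ p, a ≤ p → p < n → s p < 2 * m + 1) ∧
      (∀ i, ∃ x y, ¬ bad x y ∧ ∀ p, a ≤ p → p < n → s p = i → x ≤ p ∧ p < y) := by
  classical
  intro l
  induction l using Nat.strong_induction_on with
  | _ l ih =>
    intro a hl ha
    by_cases hex : ∃ b, b ≤ n ∧ bad a b
    · set b := Nat.find hex with hb
      obtain ⟨hbn, hbad⟩ := Nat.find_spec hex
      rw [← hb] at hbn hbad
      have hmin : ∀ b' < b, ¬ (b' ≤ n ∧ bad a b') := fun b' hb' => Nat.find_min hex hb'
      have hab := hlt a b hbad
      obtain ⟨m, t, s, ht0, ht, htm, hs1, hs2, hs3⟩ := ih (n - b) (by omega) b rfl hbn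
      refine ⟨m + 1, fun j => if j = 0 then a else t (j - 1),
        fun p => if p < b - 1 then 0 else if p = b - 1 then 1 else s p + 2, by simp, ?_, ?_, ?_, ?_, ?_⟩
      · intro j hj
        rcases Nat.eq_zero_or_pos j with rfl | hj0
        · simp only [if_true, zero_add, one_ne_zero, if_false, Nat.sub_self, ht0]
          exact ⟨by omega, hbad⟩
        · have h1 := ht (j - 1) (by omega)
          have h2 : j - 1 + 1 = j := by omega
          rw [h2] at h1
          simp only [Nat.add_sub_cancel, if_neg (show ¬ j = 0 by omega),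
            if_neg (show ¬ j + 1 = 0 by omega)]
          exact h1
      · simpa using htm
      · intro p q hp hpq hq
        have h1 : ∀ p q, b ≤ p → p ≤ q → q < n → s p ≤ s q := hs1
        simp only
        split_ifs with h2 h3 h4 h5 h6 h7 h8 <;> try omega
        have := h1 p q (by omega) hpq hq
        omega
      · intro p hp hpn
        simp only
        split_ifs with h2 h3
        · omega
        · omega
        · have := hs2 p (by omega) hpn
          omega
      · intro i
        rcases i with _ | _ | i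
        · refine ⟨a, b - 1, fun h => hmin (b - 1) (by omega) ⟨by omega, h⟩, ?_⟩
          intro p hp hpn hi
          simp only at hi
          split_ifs at hi with h2 h3
          · omega
        · refine ⟨b - 1, b, fun h => by have := hlt _ _ h; omega, ?_⟩
          intro p hp hpn hi
          simp only at hi
          split_ifs at hi with h2 h3
          · omega
          · omega
        · obtain ⟨x, y, hxy, h⟩ := hs3 i
          refine ⟨x, y, hxy, ?_⟩
          intro p hp hpn hi
          simp only at hi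
          split_ifs at hi with h2 h3
          · omega
          · exact h p (by omega) hpn (by omega)
    · push Not at hex
      refine ⟨0, fun _ => a, fun _ => 0, rfl, by omega, ha, fun _ _ _ _ _ => le_rfl,
        fun _ _ _ => by simp, fun i => ?_⟩
      by_cases hi : i = 0
      · exact ⟨a, n, hex n le_rfl, fun p h1 h2 _ => ⟨h1, h2⟩⟩
      · exact ⟨a, a, fun h => by have := hlt _ _ h; omega, fun p _ _ h => absurd h.symm hi⟩

variable {V : Type u} [NormedAddCommGroup V] [InnerProductSpace ℂ V] [FiniteDimensional ℂ V]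

/-- an operator close to one of small rank is small on most vectors of an orthonormal family. -/
lemma count_bad (m : ℕ) (w : Fin m → V) (hw : Orthonormal ℂ w) (U F : V →ₗ[ℂ] V) {δ η M : ℝ}
    (hδ : 0 ≤ δ) (hδη : δ < η) (hUF : ∀ x, ‖U x - F x‖ ≤ δ * ‖x‖)
    (hU : ∀ x, ‖U x‖ ≤ M * ‖x‖) (hbad : ∀ j, η < ‖(inner ℂ (w j) (U (w j)) : ℂ)‖) :
    m * ((η - δ) / (M + δ)) ^ 2 ≤ Module.finrank ℂ (LinearMap.range F) := by
  rcases Nat.eq_zero_or_pos m with rfl | hm
  · simp
  have hn1 : ∀ j, ‖w j‖ = 1 := fun j => hw.norm_eq_one j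
  have hMpos : 0 < M + δ := by
    have h1 := hbad ⟨0, hm⟩
    have h2 : ‖(inner ℂ (w ⟨0, hm⟩) (U (w ⟨0, hm⟩)) : ℂ)‖ ≤ M := by
      calc _ ≤ ‖w ⟨0, hm⟩‖ * ‖U (w ⟨0, hm⟩)‖ := norm_inner_le_norm _ _
        _ ≤ 1 * (M * 1) := by
            rw [hn1]
            have := hU (w ⟨0, hm⟩)
            rw [hn1] at this
            linarith
        _ = M := by ring
    linarith
  set G := LinearMap.range F with hG
  set g := stdOrthonormalBasis ℂ G with hg
  have hP : ∀ j, ((η - δ) / (M + δ)) ^ 2 ≤ ∑ i, ‖(inner ℂ (w j) (g i : V) : ℂ)‖ ^ 2 := by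
    intro j
    have h1 : ∑ i, ‖(inner ℂ (w j) (g i : V) : ℂ)‖ ^ 2 = ‖G.starProjection (w j)‖ ^ 2 := by
      have h2 := g.sum_sq_norm_inner_right (G.orthogonalProjectionOnto (w j))
      have h3 : ‖G.starProjection (w j)‖ = ‖G.orthogonalProjectionOnto (w j)‖ := rfl
      rw [h3, ← h2]
      refine sum_congr rfl fun i _ => ?_
      rw [Submodule.coe_inner, norm_inner_symm]
      congr 2
      have h4 : ((G.orthogonalProjectionOnto (w j) : G) : V) = G.starProjection (w j) := rfl
      rw [h4, ← Submodule.inner_starProjection_left_eq_right,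
        Submodule.starProjection_eq_self_iff.mpr (g i).2]
    rw [h1]
    have h2 : (inner ℂ (w j) (F (w j)) : ℂ) = inner ℂ (G.starProjection (w j)) (F (w j)) := by
      rw [Submodule.inner_starProjection_left_eq_right,
        Submodule.starProjection_eq_self_iff.mpr (LinearMap.mem_range_self F _)]
    have h3 : η - δ ≤ ‖(inner ℂ (w j) (F (w j)) : ℂ)‖ := by
      have h4 : (inner ℂ (w j) (U (w j)) : ℂ)
          = inner ℂ (w j) (F (w j)) + inner ℂ (w j) (U (w j) - F (w j)) := by
        rw [← inner_add_right]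
        congr 1
        abel
      have h5 : ‖(inner ℂ (w j) (U (w j) - F (w j)) : ℂ)‖ ≤ δ := by
        calc _ ≤ ‖w j‖ * ‖U (w j) - F (w j)‖ := norm_inner_le_norm _ _
          _ ≤ 1 * (δ * 1) := by
              rw [hn1]
              have := hUF (w j)
              rw [hn1] at this
              linarith
          _ = δ := by ring
      have h6 := hbad j
      rw [h4] at h6
      have h7 := norm_add_le (inner ℂ (w j) (F (w j)) : ℂ) (inner ℂ (w j) (U (w j) - F (w j)))
      linarith
    have h4 : ‖F (w j)‖ ≤ M + δ := by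
      have h5 : F (w j) = U (w j) - (U (w j) - F (w j)) := by abel
      rw [h5]
      have h6 := hU (w j)
      have h7 := hUF (w j)
      rw [hn1] at h6 h7
      have := norm_sub_le (U (w j)) (U (w j) - F (w j))
      linarith
    have h5 : η - δ ≤ ‖G.starProjection (w j)‖ * (M + δ) := by
      rw [h2] at h3
      calc η - δ ≤ _ := h3
        _ ≤ ‖G.starProjection (w j)‖ * ‖F (w j)‖ := norm_inner_le_norm _ _
        _ ≤ _ := mul_le_mul_of_nonneg_left h4 (norm_nonneg _)
    have h6 : (η - δ) / (M + δ) ≤ ‖G.starProjection (w j)‖ := by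
      rw [div_le_iff₀ hMpos]
      exact h5
    exact pow_le_pow_left₀ (div_nonneg (by linarith) hMpos.le) h6 2
  calc m * ((η - δ) / (M + δ)) ^ 2 = ∑ j : Fin m, ((η - δ) / (M + δ)) ^ 2 := by
        rw [sum_const, card_univ, Fintype.card_fin, nsmul_eq_mul]
    _ ≤ ∑ j : Fin m, ∑ i, ‖(inner ℂ (w j) (g i : V) : ℂ)‖ ^ 2 := sum_le_sum fun j _ => hP j
    _ = ∑ i, ∑ j : Fin m, ‖(inner ℂ (w j) (g i : V) : ℂ)‖ ^ 2 := sum_comm
    _ ≤ ∑ i, ‖(g i : V)‖ ^ 2 := sum_le_sum fun i _ => hw.sum_inner_products_le (g i : V)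
    _ = ∑ i : Fin (Module.finrank ℂ G), (1 : ℝ) := by
        refine sum_congr rfl fun i _ => ?_
        have h1 : ‖(g i : V)‖ = ‖g i‖ := rfl
        rw [h1, g.orthonormal.norm_eq_one, one_pow]
    _ = Module.finrank ℂ G := by
        rw [sum_const, card_univ, Fintype.card_fin, nsmul_eq_mul, mul_one]

end ApproxC
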