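import Mathlib

/-!
Weights for block triangular operators whose diagonal blocks are almost dissipative.
-/

open Finset Complex InnerProductSpace

universe u

namespace ApproxC

/-- the off-diagonal terms are small in the weighted norm. -/
lemma off_sum (m : ℕ) (y : ℕ → ℝ) {σ : ℝ} (hσ0 : 0 ≤ σ) (hσ1 : σ < 1) :
    ∑ i ∈ range m, ∑ j ∈ range m, (if i < j then σ ^ (j - i) * (y i * y j) else 0)
      ≤ σ / (1 - σ) * ∑ i ∈ range m, y i ^ 2 := by
  have hgeo : ∀ k : ℕ, ∑ j ∈ range k, σ ^ (j + 1) ≤ σ / (1 - σ) := by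
    intro k
    have h1 : ∑ j ∈ range k, σ ^ (j + 1) = σ * ∑ j ∈ range k, σ ^ j := by
      rw [mul_sum]
      exact sum_congr rfl fun j _ => by ring
    rw [h1, div_eq_mul_inv]
    apply mul_le_mul_of_nonneg_left _ hσ0
    have h2 : Summable (fun j : ℕ => σ ^ j) := summable_geometric_of_lt_one hσ0 hσ1
    rw [← tsum_geometric_of_lt_one hσ0 hσ1]
    exact h2.sum_le_tsum _ (fun j _ => by positivity)
  have h1 : ∀ i ∈ range m, ∀ j ∈ range m, (if i < j then σ ^ (j - i) * (y i * y j) else 0)
      ≤ (if i < j then σ ^ (j - i) * (y i ^ 2 / 2) else 0)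
        + (if i < j then σ ^ (j - i) * (y j ^ 2 / 2) else 0) := by
    intro i _ j _
    split_ifs with hij
    · rw [← mul_add]
      apply mul_le_mul_of_nonneg_left _ (by positivity)
      nlinarith [sq_nonneg (y i - y j)]
    · simp
  refine (sum_le_sum fun i hi => sum_le_sum fun j hj => h1 i hi j hj).trans ?_
  simp only [sum_add_distrib]
  have h2 : ∑ i ∈ range m, ∑ j ∈ range m, (if i < j then σ ^ (j - i) * (y i ^ 2 / 2) else 0)
      ≤ ∑ i ∈ range m, σ / (1 - σ) * (y i ^ 2 / 2) := by
    apply sum_le_sum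
    intro i hi
    have h3 : ∑ j ∈ range m, (if i < j then σ ^ (j - i) * (y i ^ 2 / 2) else 0)
        = (∑ j ∈ range (m - (i + 1)), σ ^ (j + 1)) * (y i ^ 2 / 2) := by
      rw [← sum_filter, sum_mul]
      have h4 : (range m).filter (fun j => i < j) = Ico (i + 1) m := by
        ext j
        simp only [mem_filter, mem_range, mem_Ico]
        omega
      rw [h4, sum_Ico_eq_sum_range]
      refine sum_congr rfl fun j _ => ?_
      congr 2
      omega
    rw [h3]
    exact mul_le_mul_of_nonneg_right (hgeo _) (by positivity)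
  have h5 : ∑ i ∈ range m, ∑ j ∈ range m, (if i < j then σ ^ (j - i) * (y j ^ 2 / 2) else 0)
      ≤ ∑ j ∈ range m, σ / (1 - σ) * (y j ^ 2 / 2) := by
    rw [sum_comm]
    apply sum_le_sum
    intro j hj
    have h3 : ∑ i ∈ range m, (if i < j then σ ^ (j - i) * (y j ^ 2 / 2) else 0)
        = (∑ i ∈ range j, σ ^ (i + 1)) * (y j ^ 2 / 2) := by
      rw [← sum_filter, sum_mul]
      have h4 : (range m).filter (fun i => i < j) = range j := by
        ext i
        have := mem_range.mp hj
        simp only [mem_filter, mem_range]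
        omega
      rw [h4, ← sum_range_reflect (fun i => σ ^ (i + 1) * (y j ^ 2 / 2)) j]
      refine sum_congr rfl fun i hi => ?_
      have := mem_range.mp hi
      congr 2
      omega
    rw [h3]
    exact mul_le_mul_of_nonneg_right (hgeo _) (by positivity)
  have h6 : ∑ i ∈ range m, σ / (1 - σ) * (y i ^ 2 / 2) + ∑ i ∈ range m, σ / (1 - σ) * (y i ^ 2 / 2)
      = σ / (1 - σ) * ∑ i ∈ range m, y i ^ 2 := by
    rw [← sum_add_distrib, mul_sum]
    exact sum_congr rfl fun i _ => by ring
  linarith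

variable {H : Type u} [NormedAddCommGroup H] [InnerProductSpace ℂ H]

/-- block triangular operators with almost dissipative diagonal blocks are almost dissipative in
a weighted norm. -/
lemma nest_form (B : H →ₗ[ℂ] H) (m : ℕ) (v : ℕ → H) {c η M : ℝ} (hη : 0 < η) (hM : 0 ≤ M)
    (hdiag : ∀ i < m, (inner ℂ (v i) (B (v i)) : ℂ).re ≤ (c + η) * ‖v i‖ ^ 2)
    (hoff : ∀ i j, i < m → j < m → i < j → ‖(inner ℂ (v i) (B (v j)) : ℂ)‖ ≤ M * (‖v i‖ * ‖v j‖))
    (hlow : ∀ i j, i < m → j < m → j < i → (inner ℂ (v i) (B (v j)) : ℂ) = 0) :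
    (∑ i ∈ range m, ((((η / (η + M)) ^ (m - i)) ^ 2 : ℝ) : ℂ)
      * ∑ j ∈ range m, (inner ℂ (v i) (B (v j)) : ℂ)).re
      ≤ (c + 2 * η) * ∑ i ∈ range m, ((η / (η + M)) ^ (m - i)) ^ 2 * ‖v i‖ ^ 2 := by
  set σ : ℝ := η / (η + M) with hσ
  have hηM : 0 < η + M := by linarith
  have hσ0 : 0 < σ := div_pos hη hηM
  rcases hM.eq_or_lt with hM0 | hMpos
  · -- no off-diagonal part
    rw [re_sum, mul_sum]
    apply sum_le_sum
    intro i hi
    have hi' := mem_range.mp hi
    have h1 : ∑ j ∈ range m, (inner ℂ (v i) (B (v j)) : ℂ) = inner ℂ (v i) (B (v i)) := by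
      rw [sum_eq_single i]
      · intro j hj hji
        have hj' := mem_range.mp hj
        rcases lt_or_gt_of_ne hji with h | h
        · exact hlow i j hi' hj' h
        · have := hoff i j hi' hj' h
          rw [← hM0, zero_mul] at this
          exact norm_le_zero_iff.mp this
      · intro h
        exact absurd hi h
    rw [h1, re_ofReal_mul]
    have h2 := hdiag i hi'
    have h3 : (c + η) * ‖v i‖ ^ 2 ≤ (c + 2 * η) * ‖v i‖ ^ 2 := by
      apply mul_le_mul_of_nonneg_right _ (sq_nonneg _)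
      linarith
    calc (σ ^ (m - i)) ^ 2 * (inner ℂ (v i) (B (v i)) : ℂ).re
        ≤ (σ ^ (m - i)) ^ 2 * ((c + 2 * η) * ‖v i‖ ^ 2) :=
          mul_le_mul_of_nonneg_left (h2.trans h3) (sq_nonneg _)
      _ = _ := by ring
  · have hσ1 : σ < 1 := by
      rw [hσ, div_lt_one hηM]
      linarith
    set y : ℕ → ℝ := fun i => σ ^ (m - i) * ‖v i‖ with hy
    have h1 : (∑ i ∈ range m, (((σ ^ (m - i)) ^ 2 : ℝ) : ℂ)
        * ∑ j ∈ range m, (inner ℂ (v i) (B (v j)) : ℂ)).re
        ≤ ∑ i ∈ range m, ((c + η) * y i ^ 2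
          + ∑ j ∈ range m, (if i < j then M * (σ ^ (j - i) * (y i * y j)) else 0)) := by
      rw [re_sum]
      apply sum_le_sum
      intro i hi
      have hi' := mem_range.mp hi
      rw [re_ofReal_mul, re_sum, mul_sum]
      have h2 : ∀ j ∈ range m, (σ ^ (m - i)) ^ 2 * (inner ℂ (v i) (B (v j)) : ℂ).re
          ≤ (if j = i then (c + η) * y i ^ 2 else 0)
            + (if i < j then M * (σ ^ (j - i) * (y i * y j)) else 0) := by
        intro j hj
        have hj' := mem_range.mp hj
        rcases lt_trichotomy i j with h | h | h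
        · rw [if_neg (by omega), if_pos h, zero_add]
          have h3 : (inner ℂ (v i) (B (v j)) : ℂ).re ≤ M * (‖v i‖ * ‖v j‖) :=
            (re_le_norm _).trans (hoff i j hi' hj' h)
          have h4 : σ ^ (m - i) = σ ^ (j - i) * σ ^ (m - j) := by
            rw [← pow_add]
            congr 1
            omega
          calc (σ ^ (m - i)) ^ 2 * (inner ℂ (v i) (B (v j)) : ℂ).re
              ≤ (σ ^ (m - i)) ^ 2 * (M * (‖v i‖ * ‖v j‖)) :=
                mul_le_mul_of_nonneg_left h3 (sq_nonneg _)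
            _ = σ ^ (m - i) * (σ ^ (j - i) * σ ^ (m - j)) * (M * (‖v i‖ * ‖v j‖)) := by
                rw [← h4]
                ring
            _ = M * (σ ^ (j - i) * (y i * y j)) := by
                simp only [hy]
                ring
        · subst h
          rw [if_pos rfl, if_neg (lt_irrefl _), add_zero]
          calc (σ ^ (m - i)) ^ 2 * (inner ℂ (v i) (B (v i)) : ℂ).re
              ≤ (σ ^ (m - i)) ^ 2 * ((c + η) * ‖v i‖ ^ 2) :=
                mul_le_mul_of_nonneg_left (hdiag i hi') (sq_nonneg _)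
            _ = (c + η) * y i ^ 2 := by
                simp only [hy]
                ring
        · rw [if_neg (by omega), if_neg (by omega), hlow i j hi' hj' h]
          simp
      refine (sum_le_sum h2).trans ?_
      rw [sum_add_distrib, sum_ite_eq', if_pos hi]
    refine h1.trans ?_
    rw [sum_add_distrib, ← mul_sum]
    have h5 : ∑ i ∈ range m, ∑ j ∈ range m, (if i < j then M * (σ ^ (j - i) * (y i * y j)) else 0)
        = M * ∑ i ∈ range m, ∑ j ∈ range m, (if i < j then σ ^ (j - i) * (y i * y j) else 0) := by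
      simp only [mul_sum, mul_ite, mul_zero]
    rw [h5]
    have h6 := off_sum m y hσ0.le hσ1
    have h7 : M * (σ / (1 - σ)) = η := by
      rw [hσ]
      have : η + M ≠ 0 := hηM.ne'
      have h8 : 1 - η / (η + M) = M / (η + M) := by
        field_simp
        ring
      rw [h8]
      field_simp
    have h9 : M * ∑ i ∈ range m, ∑ j ∈ range m, (if i < j then σ ^ (j - i) * (y i * y j) else 0)
        ≤ η * ∑ i ∈ range m, y i ^ 2 := by
      calc _ ≤ M * (σ / (1 - σ) * ∑ i ∈ range m, y i ^ 2) := mul_le_mul_of_nonneg_left h6 hM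
        _ = _ := by rw [← mul_assoc, h7]
    have h10 : ∑ i ∈ range m, (σ ^ (m - i)) ^ 2 * ‖v i‖ ^ 2 = ∑ i ∈ range m, y i ^ 2 :=
      sum_congr rfl fun i _ => by
        simp only [hy]
        ring
    rw [h10]
    linarith

end ApproxC
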