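import Pool.Agent.Work.MP_ecaf63_an_c.Final

/-!
The class of operators used in the final theorem without rates.
-/

open Finset Complex InnerProductSpace Filter Topology

universe u

namespace ApproxC

lemma CutB.mono {V : Type u} [NormedAddCommGroup V] [InnerProductSpace ℂ V] {T : V →ₗ[ℂ] V}
    {d : ℕ} {b : OrthonormalBasis (Fin d) ℂ V} {L L' : ℝ → ℕ} (h : CutB T b L)
    (hL : ∀ η, L η ≤ L' η) : CutB T b L' := by
  intro η hη
  obtain ⟨s, h1, h2, h3⟩ := h η hη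
  exact ⟨s, h1, fun i => (h2 i).trans_le (hL η), h3⟩

lemma RadicalDeparture.interval {V : Type u} [NormedAddCommGroup V] [InnerProductSpace ℂ V]
    {v : ℂ} {r : ℝ → ℕ} {T : V →ₗ[ℂ] V} (h : RadicalDeparture v r T) {M : ℝ} (hM : 0 ≤ M)
    (hT : ∀ x, ‖T x‖ ≤ M * ‖x‖) :
    IntervalDeparture v (fun η => max (r η) (Lfun r M η)) T := by
  obtain ⟨d, b, h1, h2, h3 | h3⟩ := h
  · exact ⟨d, b, h1, h2, h3.mono fun η => le_max_left _ _⟩
  · obtain ⟨d', b', g1, g2, g3⟩ := CompactDeparture.interval ⟨d, b, h1, h2, h3⟩ hM hT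
    exact ⟨d', b', g1, g2, g3.mono fun η => le_max_right _ _⟩

variable {H : Type u} [NormedAddCommGroup H] [InnerProductSpace ℂ H] [CompleteSpace H]

lemma BlockRadical.interval {v : ℂ} {r : ℝ → ℕ} {B : H →L[ℂ] H} (h : BlockRadical v r B) {M : ℝ}
    (hM : ‖B‖ ≤ M) : BlockInterval v (fun η => max (r η) (Lfun r M η)) B := by
  obtain ⟨𝒱, h1, h2, h3⟩ := h
  refine ⟨𝒱, h1, h2, fun V hV => ⟨(h3 V hV).1, ?_⟩⟩
  obtain ⟨h4, h5⟩ := (h3 V hV).2
  refine ⟨h4, h5.interval ((norm_nonneg _).trans hM) ?_⟩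
  intro x
  have h6 : ‖((B : H →ₗ[ℂ] H).restrict h4) x‖ = ‖B (x : H)‖ := rfl
  rw [h6]
  exact (B.le_opNorm _).trans (mul_le_mul_of_nonneg_right hM (norm_nonneg _))

/-- The final theorem without rates. -/
theorem hyper_radical (A : H →L[ℂ] H) {z w : ℂ} (hz : z ∈ spectrum ℂ A) (hw : w ∈ spectrum ℂ A)
    (v : ℂ) (hzw : (v * z).re ≠ (v * w).re) (r : ℝ → ℕ)
    (happrox : ∀ ε : ℝ, 0 < ε → ∃ B : H →L[ℂ] H, ‖A - B‖ ≤ ε ∧ BlockRadical v r B) :
    ∃ M : Submodule ℂ H, IsClosed (M : Set H) ∧ M ≠ ⊥ ∧ M ≠ ⊤ ∧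
      ∀ T : H →L[ℂ] H, T.comp A = A.comp T → ∀ x ∈ M, T x ∈ M := by
  apply hyper_dir A hz hw v hzw (fun η => max (r η) (Lfun r (‖A‖ + 1) η))
  intro ε hε
  obtain ⟨B, hB1, hB2⟩ := happrox (min ε 1) (lt_min hε one_pos)
  refine ⟨B, hB1.trans (min_le_left _ _), hB2.interval ?_⟩
  have h1 : B = A - (A - B) := by abel
  rw [h1]
  refine (norm_sub_le _ _).trans ?_
  linarith [hB1.trans (min_le_right ε 1)]

end ApproxC
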