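import Pool.Agent.Work.MP_ecaf63_an_c.Cut

/-!
From a cutting to a weighted norm in which the operator is almost dissipative.
-/

open Finset Complex InnerProductSpace

universe u

namespace ApproxC

variable {H : Type u} [NormedAddCommGroup H] [InnerProductSpace ℂ H]

/-- from a cutting to weights. -/
lemma scale_of_cut (B : H →ₗ[ℂ] H) (k : ℕ) (e : ℕ → H)
    (hunit : ∀ p < k, (inner ℂ (e p) (e p) : ℂ) = 1)
    (horth : ∀ p q, p < k → q < k → p ≠ q → (inner ℂ (e p) (e q) : ℂ) = 0)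
    (s : ℕ → ℕ) (m : ℕ) (hs : ∀ p < k, s p < m) (hmono : ∀ p q, p ≤ q → q < k → s p ≤ s q)
    (hlow : ∀ p q, p < k → q < p → (inner ℂ (e p) (B (e q)) : ℂ) = 0) {c η M : ℝ} (hη : 0 < η)
    (hM : 0 ≤ M) (hB : ∀ x, ‖B x‖ ≤ M * ‖x‖)
    (hform : ∀ i, ∀ v ∈ spn e {p | p < k ∧ s p = i},
      (inner ℂ v (B v) : ℂ).re ≤ (c + η) * ‖v‖ ^ 2) (x : ℕ → ℂ) :
    (∑ p ∈ range k, ((((η / (η + M)) ^ (m - s p)) ^ 2 : ℝ) : ℂ) * (starRingEnd ℂ (x p) *
      ∑ q ∈ Ico p k, (inner ℂ (e p) (B (e q)) : ℂ) * x q)).re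
      ≤ (c + 2 * η) * ∑ p ∈ range k, ((η / (η + M)) ^ (m - s p)) ^ 2 * ‖x p‖ ^ 2 := by
  classical
  set v : ℕ → H := fun i => ∑ p ∈ (range k).filter (fun p => s p = i), x p • e p with hv
  have hvmem : ∀ i, v i ∈ spn e {p | p < k ∧ s p = i} := by
    intro i
    apply Submodule.sum_mem
    intro p hp
    have hp' := mem_filter.mp hp
    exact Submodule.smul_mem _ _ (Submodule.subset_span ⟨p, ⟨mem_range.mp hp'.1, hp'.2⟩, rfl⟩)
  -- norms
  have hnorm : ∀ i, ‖v i‖ ^ 2 = ∑ p ∈ (range k).filter (fun p => s p = i), ‖x p‖ ^ 2 := by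
    intro i
    have h1 : (inner ℂ (v i) (v i) : ℂ)
        = ((∑ p ∈ (range k).filter (fun p => s p = i), ‖x p‖ ^ 2 : ℝ) : ℂ) := by
      simp only [hv]
      rw [sum_inner]
      push_cast
      refine sum_congr rfl fun p hp => ?_
      have hp' := mem_range.mp (mem_filter.mp hp).1
      rw [inner_sum, sum_eq_single p]
      · rw [inner_smul_left, inner_smul_right, hunit p hp', mul_one]
        rw [← Complex.ofReal_pow, ← normSq_eq_norm_sq, normSq_eq_conj_mul_self]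
      · intro q hq hqp
        have hq' := mem_range.mp (mem_filter.mp hq).1
        rw [inner_smul_left, inner_smul_right, horth p q hp' hq' (Ne.symm hqp), mul_zero, mul_zero]
      · intro h
        exact absurd hp h
    rw [inner_self_eq_norm_sq_to_K] at h1
    have h2 : ((‖v i‖ ^ 2 : ℝ) : ℂ)
        = ((∑ p ∈ (range k).filter (fun p => s p = i), ‖x p‖ ^ 2 : ℝ) : ℂ) := by
      rw [← h1]
      push_cast
      rfl
    exact_mod_cast h2
  -- the whole vector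
  set X : H := ∑ q ∈ range k, x q • e q with hX
  have hsumv : ∑ j ∈ range m, v j = X := by
    simp only [hv, hX]
    exact sum_fiberwise_of_maps_to (fun p hp => mem_range.mpr (hs p (mem_range.mp hp))) _
  have hBX : ∀ p ∈ range k, (inner ℂ (e p) (B X) : ℂ)
      = ∑ q ∈ Ico p k, (inner ℂ (e p) (B (e q)) : ℂ) * x q := by
    intro p hp
    have hp' := mem_range.mp hp
    simp only [hX]
    rw [map_sum, inner_sum, range_eq_Ico, ← sum_Ico_consecutive _ (Nat.zero_le p) hp'.le,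
      sum_eq_zero (s := Ico 0 p), zero_add]
    · refine sum_congr rfl fun q _ => ?_
      rw [map_smul, inner_smul_right, mul_comm]
    · intro q hq
      rw [map_smul, inner_smul_right, hlow p q hp' (mem_Ico.mp hq).2, mul_zero]
  have hleft : ∑ i ∈ range m, ((((η / (η + M)) ^ (m - i)) ^ 2 : ℝ) : ℂ)
      * ∑ j ∈ range m, (inner ℂ (v i) (B (v j)) : ℂ)
      = ∑ p ∈ range k, ((((η / (η + M)) ^ (m - s p)) ^ 2 : ℝ) : ℂ) * (starRingEnd ℂ (x p) *
        ∑ q ∈ Ico p k, (inner ℂ (e p) (B (e q)) : ℂ) * x q) := by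
    have h1 : ∀ i ∈ range m, ((((η / (η + M)) ^ (m - i)) ^ 2 : ℝ) : ℂ)
        * ∑ j ∈ range m, (inner ℂ (v i) (B (v j)) : ℂ)
        = ∑ p ∈ (range k).filter (fun p => s p = i), ((((η / (η + M)) ^ (m - s p)) ^ 2 : ℝ) : ℂ)
          * (starRingEnd ℂ (x p) * (inner ℂ (e p) (B X) : ℂ)) := by
      intro i _
      rw [← inner_sum, ← map_sum, hsumv]
      simp only [hv]
      rw [sum_inner, mul_sum]
      refine sum_congr rfl fun p hp => ?_
      rw [inner_smul_left, (mem_filter.mp hp).2]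
    rw [sum_congr rfl h1, sum_fiberwise_of_maps_to
      (fun p hp => mem_range.mpr (hs p (mem_range.mp hp)))]
    exact sum_congr rfl fun p hp => by rw [hBX p hp]
  have hright : ∑ i ∈ range m, ((η / (η + M)) ^ (m - i)) ^ 2 * ‖v i‖ ^ 2
      = ∑ p ∈ range k, ((η / (η + M)) ^ (m - s p)) ^ 2 * ‖x p‖ ^ 2 := by
    have h1 : ∀ i ∈ range m, ((η / (η + M)) ^ (m - i)) ^ 2 * ‖v i‖ ^ 2
        = ∑ p ∈ (range k).filter (fun p => s p = i), ((η / (η + M)) ^ (m - s p)) ^ 2 * ‖x p‖ ^ 2 := by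
      intro i _
      rw [hnorm, mul_sum]
      exact sum_congr rfl fun p hp => by rw [(mem_filter.mp hp).2]
    rw [sum_congr rfl h1, sum_fiberwise_of_maps_to
      (fun p hp => mem_range.mpr (hs p (mem_range.mp hp)))]
  rw [← hleft, ← hright]
  apply nest_form B m v hη hM
  · intro i _
    exact hform i _ (hvmem i)
  · intro i j _ _ _
    calc ‖(inner ℂ (v i) (B (v j)) : ℂ)‖ ≤ ‖v i‖ * ‖B (v j)‖ := norm_inner_le_norm _ _
      _ ≤ ‖v i‖ * (M * ‖v j‖) := mul_le_mul_of_nonneg_left (hB _) (norm_nonneg _)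
      _ = _ := by ring
  · intro i j _ _ hji
    simp only [hv]
    rw [map_sum, sum_inner]
    apply sum_eq_zero
    intro p hp
    rw [inner_sum]
    apply sum_eq_zero
    intro q hq
    have hp' := mem_filter.mp hp
    have hq' := mem_filter.mp hq
    have hqp : q < p := by
      by_contra hcon
      push Not at hcon
      have := hmono p q hcon (mem_range.mp hq'.1)
      omega
    rw [map_smul, inner_smul_left, inner_smul_right, hlow p q (mem_range.mp hp'.1) hqp, mul_zero,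
      mul_zero]

/-- the constant. -/
noncomputable def Kfun (L : ℝ → ℕ) (M η : ℝ) : ℝ :=
  ((η / 2 + M) / (η / 2)) ^ L (η / 2)

lemma Kfun_pos (L : ℝ → ℕ) {M η : ℝ} (hM : 0 ≤ M) (hη : 0 < η) : 0 < Kfun L M η := by
  unfold Kfun
  have : 0 < η / 2 + M := by positivity
  positivity

/-- existence of weights, in the form used for the systems. -/
lemma exists_weights (B : H →ₗ[ℂ] H) (k : ℕ) (e : ℕ → H)
    (hunit : ∀ p < k, (inner ℂ (e p) (e p) : ℂ) = 1)
    (horth : ∀ p q, p < k → q < k → p ≠ q → (inner ℂ (e p) (e q) : ℂ) = 0)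
    (L : ℝ → ℕ) {c η M : ℝ} (hη : 0 < η)
    (s : ℕ → ℕ) (m : ℕ) (hm : m ≤ L (η / 2)) (hs : ∀ p < k, s p < m)
    (hmono : ∀ p q, p ≤ q → q < k → s p ≤ s q)
    (hlow : ∀ p q, p < k → q < p → (inner ℂ (e p) (B (e q)) : ℂ) = 0)
    (hM : 0 ≤ M) (hB : ∀ x, ‖B x‖ ≤ M * ‖x‖)
    (hform : ∀ i, ∀ v ∈ spn e {p | p < k ∧ s p = i},
      (inner ℂ v (B v) : ℂ).re ≤ (c + η / 2) * ‖v‖ ^ 2) :
    ∃ W : ℕ → ℝ, (∀ p, (Kfun L M η)⁻¹ ^ 2 ≤ W p) ∧ (∀ p, W p ≤ 1) ∧
      ∀ x : ℕ → ℂ, (∑ p ∈ range k, (W p : ℂ) * (starRingEnd ℂ (x p) *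
        ∑ q ∈ Ico p k, (inner ℂ (e p) (B (e q)) : ℂ) * x q)).re
          ≤ (c + η) * ∑ p ∈ range k, W p * ‖x p‖ ^ 2 := by
  set σ : ℝ := (η / 2) / (η / 2 + M) with hσ
  have hη2 : 0 < η / 2 := by positivity
  have hηM : 0 < η / 2 + M := by positivity
  have hσ0 : 0 < σ := div_pos hη2 hηM
  have hσ1 : σ ≤ 1 := by
    rw [hσ, div_le_one hηM]
    linarith
  refine ⟨fun p => (σ ^ (m - s p)) ^ 2, ?_, ?_, ?_⟩
  · intro p
    have h1 : (Kfun L M η)⁻¹ = σ ^ L (η / 2) := by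
      unfold Kfun
      rw [← inv_pow, inv_div]
    rw [h1]
    apply pow_le_pow_left₀ (by positivity)
    apply pow_le_pow_of_le_one hσ0.le hσ1
    omega
  · intro p
    exact pow_le_one₀ (by positivity) (pow_le_one₀ hσ0.le hσ1)
  · intro x
    have h1 := scale_of_cut B k e hunit horth s m hs hmono hlow hη2 hM hB hform x
    have h2 : c + 2 * (η / 2) = c + η := by ring
    rw [h2] at h1
    exact h1

end ApproxC
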