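import Pool.Agent.Work.MP_ecaf63_an_c.Block

/-!
Block operators and their splitting along a line.
-/

open Finset Complex InnerProductSpace Filter Topology ApproxInv

universe u

namespace ApproxC

variable {H : Type u} [NormedAddCommGroup H] [InnerProductSpace ℂ H] [CompleteSpace H]

/-- splitting of a block operator along a line. -/
lemma split_blocks {B : H →L[ℂ] H} {L : ℝ → ℕ} {M : ℝ} (hM : ‖B‖ ≤ M) (c : ℝ)
    (𝒱 : Set (Submodule ℂ H)) (hpair : 𝒱.Pairwise (fun V W => V ⟂ W))
    (hdense : (sSup 𝒱).topologicalClosure = ⊤)
    (hV : ∀ V ∈ 𝒱, (∀ x ∈ V, ContinuousLinearMap.adjoint B x ∈ V) ∧ CutData B L c V) :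
    ∃ N : Submodule ℂ H, WLeft B c (Kfun L M) N ∧
      WLeft (-(ContinuousLinearMap.adjoint B)) (-c) (Kfun L M) Nᗮ := by
  classical
  have hM0 : 0 ≤ M := (norm_nonneg _).trans hM
  choose d k e hk heV hunit horth htri hQ1 hQ2 hexp hcut using fun V : 𝒱 => (hV V V.2).2
  -- orthogonality between blocks
  have horth' : ∀ (V W : 𝒱) (p q : ℕ), V ≠ W → (inner ℂ (e V p) (e W q) : ℂ) = 0 := by
    intro V W p q hVW
    have h1 := hpair V.2 W.2 (fun h => hVW (Subtype.ext h))
    exact (Submodule.isOrtho_iff_inner_eq.mp h1) _ (heV V p) _ (heV W q)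
  have hzero : ∀ (V : 𝒱) (p q : ℕ), p < d V → q < d V → q < p →
      (inner ℂ (e V p) (B (e V q)) : ℂ) = 0 := by
    intro V p q hp hq hqp
    rw [htri V q hq, inner_sum]
    apply sum_eq_zero
    intro r hr
    have := mem_range.mp hr
    rw [inner_smul_right, horth V p r hp (by omega) (by omega), mul_zero]
  have hsys1 : WSys B c (Kfun L M) k e := by
    refine ⟨?_, ?_, ?_, ?_, ?_⟩
    · intro V p hp
      exact hunit V p (hp.trans_le (hk V))
    · intro V W p q hp hq hne
      by_cases hVW : V = W
      · subst hVW
        exact horth V p q (hp.trans_le (hk V)) (hq.trans_le (hk V)) (fun h => hne ⟨rfl, h⟩)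
      · exact horth' V W p q hVW
    · intro V q hq
      exact htri V q (hq.trans_le (hk V))
    · intro V p hp
      exact hQ1 V p hp
    · intro η hη V
      obtain ⟨s, m, g1, g2, g3, g4, -⟩ := hcut V (η / 2) (by positivity)
      exact exists_weights (B : H →ₗ[ℂ] H) (k V) (e V)
        (fun p hp => hunit V p (hp.trans_le (hk V)))
        (fun p q hp hq hpq => horth V p q (hp.trans_le (hk V)) (hq.trans_le (hk V)) hpq)
        L hη s m g1 (fun p hp => g2 p (hp.trans_le (hk V)))
        (fun p q hpq hq => g3 p q hpq (hq.trans_le (hk V)))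
        (fun p q hp hqp => hzero V p q (hp.trans_le (hk V)) ((hqp.trans hp).trans_le (hk V)) hqp)
        hM0 (fun x => (B.le_opNorm _).trans (mul_le_mul_of_nonneg_right hM (norm_nonneg _)))
        (fun i v hv => g4 i v hv)
  set f : 𝒱 → ℕ → H := fun V r => e V (d V - 1 - r) with hf
  set n' : 𝒱 → ℕ := fun V => d V - k V with hn'
  have hadj : ∀ x, (-(ContinuousLinearMap.adjoint B)) x = -(ContinuousLinearMap.adjoint B x) :=
    fun x => rfl
  have hinn : ∀ (V : 𝒱) (p q : ℕ), (inner ℂ (e V q)
      ((-(ContinuousLinearMap.adjoint B)) (e V p)) : ℂ)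
        = -(starRingEnd ℂ (inner ℂ (e V p) (B (e V q)))) := by
    intro V p q
    rw [hadj, inner_neg_right, ContinuousLinearMap.adjoint_inner_right, inner_conj_symm]
  have hsys2 : WSys (-(ContinuousLinearMap.adjoint B)) (-c) (Kfun L M) n' f := by
    refine ⟨?_, ?_, ?_, ?_, ?_⟩
    · intro V r hr
      simp only [hn'] at hr
      exact hunit V _ (by omega)
    · intro V W r s hr hs hne
      simp only [hn'] at hr hs
      by_cases hVW : V = W
      · subst hVW
        exact horth V _ _ (by omega) (by omega) (fun h => hne ⟨rfl, by omega⟩)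
      · exact horth' V W _ _ hVW
    · intro V r hr
      simp only [hn'] at hr
      simp only [hf]
      set p := d V - 1 - r with hp
      have hpd : p < d V := by omega
      have hmem : (-(ContinuousLinearMap.adjoint B)) (e V p) ∈ (V : Submodule ℂ H) := by
        rw [hadj]
        exact (V : Submodule ℂ H).neg_mem ((hV V V.2).1 _ (heV V p))
      have h1 := hexp V _ hmem
      refine h1.trans ?_
      rw [range_eq_Ico, ← sum_Ico_consecutive _ (Nat.zero_le p) hpd.le, sum_eq_zero (s := Ico 0 p),
        zero_add]
      · -- reindex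
        symm
        apply sum_nbij' (fun s => d V - 1 - s) (fun q => d V - 1 - q)
        · intro s hs
          have := mem_range.mp hs
          rw [mem_Ico]
          omega
        · intro q hq
          have := mem_Ico.mp hq
          rw [mem_range]
          omega
        · intro s hs
          have := mem_range.mp hs
          omega
        · intro q hq
          have := mem_Ico.mp hq
          omega
        · intro s hs
          rfl
      · intro q hq
        have hq' := (mem_Ico.mp hq).2
        rw [hinn, hzero V p q hpd (by omega) hq', map_zero, neg_zero, zero_smul]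
    · intro V r hr
      simp only [hn'] at hr
      simp only [hf]
      rw [hinn, neg_re, conj_re]
      have := hQ2 V (d V - 1 - r) (by omega) (by omega)
      linarith
    · intro η hη V
      obtain ⟨s, m, g1, g2, g3, -, g5⟩ := hcut V (η / 2) (by positivity)
      apply exists_weights ((-(ContinuousLinearMap.adjoint B) : H →L[ℂ] H) : H →ₗ[ℂ] H)
        (n' V) (f V) _ _ L hη (fun q => m - 1 - s (d V - 1 - q)) m g1 _ _ _ hM0 _ _
      · intro r hr
        simp only [hn'] at hr
        exact hunit V _ (by omega)
      · intro r s hr hs hne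
        simp only [hn'] at hr hs
        exact horth V _ _ (by omega) (by omega) (by omega)
      · intro q hq
        simp only [hn'] at hq
        have := g2 (d V - 1 - q) (by omega)
        show m - 1 - s (d V - 1 - q) < m
        omega
      · intro p q hpq hq
        simp only [hn'] at hq
        have := g3 (d V - 1 - q) (d V - 1 - p) (by omega) (by omega)
        show m - 1 - s (d V - 1 - p) ≤ m - 1 - s (d V - 1 - q)
        omega
      · intro p q hp hqp
        simp only [hn'] at hp
        simp only [hf]
        have h1 := hinn V (d V - 1 - q) (d V - 1 - p)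
        rw [hzero V _ _ (by omega) (by omega) (by omega), map_zero, neg_zero] at h1
        exact h1
      · intro x
        have h1 : ‖(-(ContinuousLinearMap.adjoint B)) x‖ ≤ ‖B‖ * ‖x‖ := by
          rw [hadj, norm_neg]
          have h2 := (ContinuousLinearMap.adjoint B).le_opNorm x
          rwa [LinearIsometryEquiv.norm_map] at h2
        exact h1.trans (mul_le_mul_of_nonneg_right hM (norm_nonneg _))
      · intro i v hv
        have hv' : v ∈ spn (e V) {p | (k V ≤ p ∧ p < d V) ∧ s p = m - 1 - i} := by
          refine Submodule.span_mono ?_ hv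
          rintro x ⟨q, ⟨hq1, hq2⟩, rfl⟩
          simp only [hn'] at hq1
          have h3 := g2 (d V - 1 - q) (by omega)
          refine ⟨d V - 1 - q, ⟨⟨by omega, by omega⟩, ?_⟩, rfl⟩
          have hq2' : m - 1 - s (d V - 1 - q) = i := hq2
          omega
        have h4 := g5 _ v hv'
        have h5 : (inner ℂ v ((-(ContinuousLinearMap.adjoint B)) v) : ℂ).re
            = -(inner ℂ v (B v) : ℂ).re := by
          rw [hadj, inner_neg_right, ContinuousLinearMap.adjoint_inner_right, neg_re]
          have h6 : (inner ℂ (B v) v : ℂ) = starRingEnd ℂ (inner ℂ v (B v)) := by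
            rw [inner_conj_symm]
          rw [h6, conj_re]
        have h6 : (inner ℂ v (((-(ContinuousLinearMap.adjoint B) : H →L[ℂ] H) : H →ₗ[ℂ] H) v) :
            ℂ).re = -(inner ℂ v (B v) : ℂ).re := h5
        rw [h6]
        linarith
  refine ⟨(sysSpan k e).topologicalClosure, ⟨_, _, _, hsys1, rfl⟩, ⟨_, _, _, hsys2, ?_⟩⟩
  -- the orthogonal complement
  set N := (sysSpan k e).topologicalClosure with hN
  set N' := (sysSpan n' f).topologicalClosure with hN'
  have hperp : N' ≤ Nᗮ := by
    apply Submodule.topologicalClosure_minimal _ _ (Submodule.isClosed_orthogonal _)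
    rw [hN, Submodule.orthogonal_closure]
    apply Submodule.span_le.mpr
    rintro x ⟨V, r, hr, rfl⟩
    rw [SetLike.mem_coe, Submodule.mem_orthogonal]
    intro y hy
    induction hy using Submodule.span_induction with
    | mem y hy =>
      obtain ⟨W, p, hp, rfl⟩ := hy
      simp only [hn'] at hr
      by_cases hVW : W = V
      · subst hVW
        have := hk W
        exact horth W _ _ (by omega) (by omega) (by omega)
      · exact horth' W V _ _ hVW
    | zero => exact inner_zero_left _
    | add y z _ _ hy hz => rw [inner_add_left, hy, hz, add_zero]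
    | smul a y _ hy => rw [inner_smul_left, hy, mul_zero]
  apply le_antisymm hperp
  intro x hx
  have hcl : IsClosed (N' : Set H) := Submodule.isClosed_topologicalClosure _
  have : CompleteSpace N' := hcl.completeSpace_coe
  set x' := x - N'.starProjection x with hx'
  have hx'1 : x' ∈ N'ᗮ := Submodule.sub_starProjection_mem_orthogonal _
  have hx'2 : x' ∈ Nᗮ := Nᗮ.sub_mem hx (hperp (Submodule.starProjection_apply_mem _ _))
  have hx'0 : x' ∈ ((sSup 𝒱).topologicalClosure)ᗮ := by
    rw [Submodule.orthogonal_closure, Submodule.mem_orthogonal]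
    intro y hy
    have hle : sSup 𝒱 ≤ (ℂ ∙ x')ᗮ := by
      apply sSup_le
      intro V hVmem y hy
      rw [Submodule.mem_orthogonal_singleton_iff_inner_left]
      rw [hexp ⟨V, hVmem⟩ y hy, sum_inner]
      apply sum_eq_zero
      intro p hp
      have hp' := mem_range.mp hp
      rw [inner_smul_left]
      have h0 : (inner ℂ (e ⟨V, hVmem⟩ p) x' : ℂ) = 0 := by
        by_cases hpk : p < k ⟨V, hVmem⟩
        · apply Submodule.inner_right_of_mem_orthogonal _ hx'2
          exact Submodule.le_topologicalClosure _ (Submodule.subset_span ⟨_, p, hpk, rfl⟩)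
        · apply Submodule.inner_right_of_mem_orthogonal _ hx'1
          have h1 : d ⟨V, hVmem⟩ - 1 - p < n' ⟨V, hVmem⟩ := by
            simp only [hn']
            omega
          have h2 : e ⟨V, hVmem⟩ p = f ⟨V, hVmem⟩ (d ⟨V, hVmem⟩ - 1 - p) := by
            simp only [hf]
            congr 1
            omega
          exact Submodule.le_topologicalClosure _ (Submodule.subset_span ⟨⟨V, hVmem⟩, _, h1, h2⟩)
      rw [h0, mul_zero]
    exact (Submodule.mem_orthogonal_singleton_iff_inner_left.mp (hle hy))
  rw [hdense, Submodule.top_orthogonal_eq_bot, Submodule.mem_bot] at hx'0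
  have : x = N'.starProjection x := sub_eq_zero.mp hx'0
  rw [this]
  exact Submodule.starProjection_apply_mem _ _

end ApproxC
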