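import Pool.Agent.Work.MP_ecaf63_an_c.Trunc
import Pool.Agent.Work.MP_ecaf63_an_c.Split
import Pool.Agent.Work.MP_ecaf63_an.Schur

/-!
Operators whose imaginary part is controlled in a Schatten class: the strictly upper part in any
Schur basis is small on all but few orthonormal vectors.
-/

open Finset Complex InnerProductSpace Matrix

universe u

namespace ApproxC

variable {V : Type u} [NormedAddCommGroup V] [InnerProductSpace ℂ V] [FiniteDimensional ℂ V]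

lemma pow_form (Z : V →ₗ[ℂ] V) (hZ : LinearMap.adjoint Z = Z) {w : V} (hw : ‖w‖ = 1) (k : ℕ) :
    ‖(inner ℂ w (Z w) : ℂ)‖ ^ (2 ^ (k + 1)) ≤ ‖(Z ^ (2 ^ k)) w‖ ^ 2 := by
  induction k with
  | zero =>
    rw [zero_add, pow_one, pow_zero, pow_one]
    apply pow_le_pow_left₀ (norm_nonneg _)
    calc ‖(inner ℂ w (Z w) : ℂ)‖ ≤ ‖w‖ * ‖Z w‖ := norm_inner_le_norm _ _
      _ = ‖Z w‖ := by rw [hw, one_mul]
  | succ k ih =>
    have hG : LinearMap.adjoint (Z ^ (2 ^ k)) = Z ^ (2 ^ k) := by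
      have h1 : star (Z ^ (2 ^ k)) = (star Z) ^ (2 ^ k) := star_pow _ _
      rw [LinearMap.star_eq_adjoint, LinearMap.star_eq_adjoint, hZ] at h1
      exact h1
    have h2 : ‖(Z ^ (2 ^ k)) w‖ ^ 2 ≤ ‖(Z ^ (2 ^ (k + 1))) w‖ := by
      have h3 : (inner ℂ w ((Z ^ (2 ^ (k + 1))) w) : ℂ) = ((‖(Z ^ (2 ^ k)) w‖ ^ 2 : ℝ) : ℂ) := by
        have h4 : (Z ^ (2 ^ (k + 1))) w = (Z ^ (2 ^ k)) ((Z ^ (2 ^ k)) w) := by
          rw [pow_succ 2 k, mul_two, pow_add]
          rfl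
        rw [h4]
        have h5 : (inner ℂ w ((Z ^ (2 ^ k)) ((Z ^ (2 ^ k)) w)) : ℂ)
            = inner ℂ ((Z ^ (2 ^ k)) w) ((Z ^ (2 ^ k)) w) := by
          rw [← LinearMap.adjoint_inner_left, hG]
        rw [h5, inner_self_eq_norm_sq_to_K]
        push_cast
        rfl
      have h6 : ‖(inner ℂ w ((Z ^ (2 ^ (k + 1))) w) : ℂ)‖ = ‖(Z ^ (2 ^ k)) w‖ ^ 2 := by
        rw [h3, norm_real, Real.norm_of_nonneg (by positivity)]
      rw [← h6]
      calc _ ≤ ‖w‖ * ‖(Z ^ (2 ^ (k + 1))) w‖ := norm_inner_le_norm _ _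
        _ = _ := by rw [hw, one_mul]
    calc ‖(inner ℂ w (Z w) : ℂ)‖ ^ (2 ^ (k + 1 + 1))
        = (‖(inner ℂ w (Z w) : ℂ)‖ ^ (2 ^ (k + 1))) ^ 2 := by
          rw [← pow_mul, pow_succ 2 (k + 1)]
      _ ≤ (‖(Z ^ (2 ^ k)) w‖ ^ 2) ^ 2 := pow_le_pow_left₀ (by positivity) ih 2
      _ ≤ ‖(Z ^ (2 ^ (k + 1))) w‖ ^ 2 := pow_le_pow_left₀ (by positivity) h2 2

variable {d : ℕ}

/-- the matrix of an operator. -/
noncomputable abbrev mt (b : OrthonormalBasis (Fin d) ℂ V) (T : V →ₗ[ℂ] V) :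
    Matrix (Fin d) (Fin d) ℂ := LinearMap.toMatrixOrthonormal b T

lemma mt_apply (b : OrthonormalBasis (Fin d) ℂ V) (T : V →ₗ[ℂ] V) (i j : Fin d) :
    mt b T i j = inner ℂ (b i) (T (b j)) := LinearMap.toMatrixOrthonormal_apply_apply b T i j

lemma mt_adj (b : OrthonormalBasis (Fin d) ℂ V) (T : V →ₗ[ℂ] V) :
    mt b (LinearMap.adjoint T) = (mt b T)ᴴ := by
  have h := map_star (LinearMap.toMatrixOrthonormal b) T
  rw [LinearMap.star_eq_adjoint] at h
  exact h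

lemma mt_X (b : OrthonormalBasis (Fin d) ℂ V) (T : V →ₗ[ℂ] V) :
    mt b (T + LinearMap.adjoint T) = Xm (mt b T) := by
  rw [Xm, ← mt_adj]
  exact map_add (LinearMap.toMatrixOrthonormal b) _ _

lemma mt_Y (b : OrthonormalBasis (Fin d) ℂ V) (T : V →ₗ[ℂ] V) :
    mt b ((-I) • (T - LinearMap.adjoint T)) = Ym (mt b T) := by
  rw [Ym, ← mt_adj]
  have h1 : mt b ((-I) • (T - LinearMap.adjoint T)) = (-I) • mt b (T - LinearMap.adjoint T) :=
    map_smul (LinearMap.toMatrixOrthonormal b) _ _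
  rw [h1]
  congr 1
  exact map_sub (LinearMap.toMatrixOrthonormal b) _ _

lemma adj_X (T : V →ₗ[ℂ] V) :
    LinearMap.adjoint (T + LinearMap.adjoint T) = T + LinearMap.adjoint T := by
  rw [map_add, LinearMap.adjoint_adjoint, add_comm]

lemma adj_Y (T : V →ₗ[ℂ] V) :
    LinearMap.adjoint ((-I) • (T - LinearMap.adjoint T)) = (-I) • (T - LinearMap.adjoint T) := by
  rw [map_smulₛₗ, map_sub, LinearMap.adjoint_adjoint]
  simp only [map_neg, conj_I, neg_neg]
  rw [neg_smul, ← smul_neg, neg_sub]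

/-- the trace of an even power as a sum of squares. -/
lemma trace_pow_even (b : OrthonormalBasis (Fin d) ℂ V) (Z : V →ₗ[ℂ] V)
    (hZ : LinearMap.adjoint Z = Z) (k : ℕ) :
    ((mt b Z) ^ (2 ^ (k + 1))).trace = ((∑ i, ‖(Z ^ (2 ^ k)) (b i)‖ ^ 2 : ℝ) : ℂ) := by
  set G := Z ^ (2 ^ k) with hG
  have hGa : LinearMap.adjoint G = G := by
    have h1 : star (Z ^ (2 ^ k)) = (star Z) ^ (2 ^ k) := star_pow _ _
    rw [LinearMap.star_eq_adjoint, LinearMap.star_eq_adjoint, hZ] at h1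
    exact h1
  have h1 : (mt b Z) ^ (2 ^ (k + 1)) = (mt b G)ᴴ * mt b G := by
    rw [← mt_adj, hGa, pow_succ 2 k, mul_two, pow_add]
    have h2 : mt b G = (mt b Z) ^ (2 ^ k) := map_pow (LinearMap.toMatrixOrthonormal b) Z (2 ^ k)
    rw [h2]
  rw [h1, trace_conj_mul]
  congr 1
  rw [sum_comm]
  refine sum_congr rfl fun j _ => ?_
  rw [← b.sum_sq_norm_inner_right]
  refine sum_congr rfl fun i _ => ?_
  rw [mt_apply]

lemma sum_form (b : OrthonormalBasis (Fin d) ℂ V) (Z : V →ₗ[ℂ] V)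
    (hZ : LinearMap.adjoint Z = Z) (k : ℕ) (m : ℕ) (w : Fin m → V) (hw : Orthonormal ℂ w) :
    ∑ j, ‖(inner ℂ (w j) (Z (w j)) : ℂ)‖ ^ (2 ^ (k + 1))
      ≤ ‖((mt b Z) ^ (2 ^ (k + 1))).trace‖ := by
  rw [trace_pow_even b Z hZ k, norm_real, Real.norm_of_nonneg (by positivity)]
  set G := Z ^ (2 ^ k) with hG
  have hGa : LinearMap.adjoint G = G := by
    have h1 : star (Z ^ (2 ^ k)) = (star Z) ^ (2 ^ k) := star_pow _ _
    rw [LinearMap.star_eq_adjoint, LinearMap.star_eq_adjoint, hZ] at h1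
    exact h1
  calc ∑ j, ‖(inner ℂ (w j) (Z (w j)) : ℂ)‖ ^ (2 ^ (k + 1)) ≤ ∑ j, ‖G (w j)‖ ^ 2 :=
        sum_le_sum fun j _ => pow_form Z hZ (hw.norm_eq_one j) k
    _ = ∑ j, ∑ i, ‖(inner ℂ (w j) (G (b i)) : ℂ)‖ ^ 2 := by
        refine sum_congr rfl fun j _ => ?_
        rw [← b.sum_sq_norm_inner_left]
        refine sum_congr rfl fun i _ => ?_
        congr 2
        rw [← LinearMap.adjoint_inner_right, hGa]
    _ = ∑ i, ∑ j, ‖(inner ℂ (w j) (G (b i)) : ℂ)‖ ^ 2 := sum_comm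
    _ ≤ ∑ i, ‖G (b i)‖ ^ 2 := sum_le_sum fun i _ => hw.sum_inner_products_le (G (b i))

lemma Ym_diag (P : Matrix (Fin d) (Fin d) ℂ) :
    Ym (Matrix.diagonal fun i => P i i) = Matrix.diagonal fun i => Ym P i i := by
  ext i j
  by_cases hij : i = j
  · subst hij
    simp [Ym, Matrix.diagonal_apply_eq, Matrix.sub_apply, Matrix.smul_apply,
      Matrix.conjTranspose_apply]
  · simp [Ym, Matrix.diagonal_apply_ne _ hij, Matrix.smul_apply,
      Matrix.sub_apply, Matrix.conjTranspose_apply]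

lemma XY_form (U : V →ₗ[ℂ] V) (w : V) :
    (inner ℂ w ((U + LinearMap.adjoint U) w) : ℂ)
      + I * inner ℂ w (((-I) • (U - LinearMap.adjoint U)) w) = 2 * inner ℂ w (U w) := by
  rw [LinearMap.smul_apply, inner_smul_right, LinearMap.add_apply,
    LinearMap.sub_apply, inner_add_right, inner_sub_right, ← mul_assoc]
  have : I * -I = (1 : ℂ) := by
    rw [mul_neg, I_mul_I, neg_neg]
  rw [this]
  ring

/-- the strictly upper part in a Schur basis has few bad orthonormal vectors. -/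
lemma schat_count (T : V →ₗ[ℂ] V) (b : OrthonormalBasis (Fin d) ℂ V)
    (htri : ∀ i j, j < i → (inner ℂ (b i) (T (b j)) : ℂ) = 0) (k : ℕ) {a : ℝ} (ha : 0 < a)
    (hT : ‖((Ym (mt b T)) ^ (2 ^ (k + 1))).trace‖ ≤ a ^ (2 ^ (k + 1))) {η : ℝ} (hη : 0 < η)
    (m : ℕ) (w : Fin m → V) (hw : Orthonormal ℂ w)
    (hbad : ∀ j, η < ‖(inner ℂ (w j) (T (w j) - dg b T (w j)) : ℂ)‖) :
    m * η ^ (2 ^ (k + 1)) ≤ (Ck k * (a + a)) ^ (2 ^ (k + 1)) + (a + a) ^ (2 ^ (k + 1)) := by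
  classical
  set U : V →ₗ[ℂ] V := T - dg b T with hU
  set N := mt b U with hN
  have hp0 : 2 ^ (k + 1) ≠ 0 := by positivity
  have hNentry : ∀ i j, N i j = mt b T i j - (Matrix.diagonal fun i => mt b T i i) i j := by
    intro i j
    rw [hN, mt_apply, hU, LinearMap.sub_apply, inner_sub_right, inner_dg, mt_apply]
    congr 1
    by_cases hij : i = j
    · subst hij
      rw [Matrix.diagonal_apply_eq, mt_apply, inner_self_eq_norm_sq_to_K, b.orthonormal.1]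
      simp
    · rw [Matrix.diagonal_apply_ne _ hij, b.orthonormal.2 hij, mul_zero]
  have hNdec : N = mt b T - Matrix.diagonal fun i => mt b T i i := by
    ext i j
    rw [hNentry, Matrix.sub_apply]
  have hSU : SU N := by
    intro i j hij
    rw [hNentry]
    rcases hij.lt_or_eq with h | h
    · rw [Matrix.diagonal_apply_ne _ h.ne', mt_apply, htri i j h, sub_zero]
    · subst h
      rw [Matrix.diagonal_apply_eq, sub_self]
  -- the diagonal part
  set Δ : Matrix (Fin d) (Fin d) ℂ := Ym (Matrix.diagonal fun i => mt b T i i) with hΔ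
  have hΔd : Δ = Matrix.diagonal fun i => Ym (mt b T) i i := Ym_diag (mt b T)
  have hYsub : Ym N = Ym (mt b T) + -Δ := by
    rw [hΔ, hNdec]
    simp only [Ym, Matrix.conjTranspose_sub]
    rw [← sub_eq_add_neg, ← smul_sub]
    congr 1
    abel
  have hΔt : ‖(Δ ^ (2 ^ (k + 1))).trace‖ ≤ a ^ (2 ^ (k + 1)) := by
    rw [hΔd, Matrix.diagonal_pow, Matrix.trace_diagonal]
    refine (norm_sum_le _ _).trans (le_trans ?_ hT)
    rw [← mt_Y]
    refine le_trans (le_of_eq ?_) (sum_form b _ (adj_Y T) k d b b.orthonormal)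
    refine sum_congr rfl fun i _ => ?_
    rw [Pi.pow_apply, norm_pow, mt_apply]
  have hYN : ‖((Ym N) ^ (2 ^ (k + 1))).trace‖ ≤ (a + a) ^ (2 ^ (k + 1)) := by
    set 𝒜 : Bool → Matrix (Fin d) (Fin d) ℂ := fun x => if x then Ym (mt b T) else -Δ with h𝒜
    have hH : ∀ x, (𝒜 x)ᴴ = 𝒜 x := by
      intro x
      cases x
      · simp only [h𝒜, Bool.false_eq_true, if_false]
        rw [Matrix.conjTranspose_neg, hΔ, Ym_herm]
      · simp only [h𝒜, if_true]
        exact Ym_herm _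
    have hA : ∀ x, ‖((𝒜 x) ^ (2 ^ (k + 1))).trace‖ ≤ (fun _ : Bool => a) x ^ (2 ^ (k + 1)) := by
      intro x
      cases x
      · simp only [h𝒜, Bool.false_eq_true, if_false]
        have h3 : Even (2 ^ (k + 1)) := ⟨2 ^ k, by rw [pow_succ]; ring⟩
        rw [h3.neg_pow]
        exact hΔt
      · simp only [h𝒜, if_true]
        exact hT
    have h2 := word_sum 𝒜 hH k (fun _ => a) (fun _ => ha) hA [true] [false] 1 rfl rfl
      (2 ^ (k + 1)) [] (by simp)
    simp only [h𝒜, List.map_nil, List.prod_nil, one_mul, List.map_cons, List.prod_cons,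
      mul_one, if_true, Bool.false_eq_true, if_false] at h2
    rw [hYsub]
    exact h2
  have hXN := trunc' k N hSU (a + a) (by linarith) hYN
  -- counting
  have hX := sum_form b (U + LinearMap.adjoint U) (adj_X U) k m w hw
  have hY := sum_form b ((-I) • (U - LinearMap.adjoint U)) (adj_Y U) k m w hw
  rw [mt_X, ← hN] at hX
  rw [mt_Y, ← hN] at hY
  have hj : ∀ j, η ^ (2 ^ (k + 1))
      ≤ ‖(inner ℂ (w j) ((U + LinearMap.adjoint U) (w j)) : ℂ)‖ ^ (2 ^ (k + 1))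
        + ‖(inner ℂ (w j) (((-I) • (U - LinearMap.adjoint U)) (w j)) : ℂ)‖ ^ (2 ^ (k + 1)) := by
    intro j
    set x : ℂ := inner ℂ (w j) ((U + LinearMap.adjoint U) (w j)) with hx
    set y : ℂ := inner ℂ (w j) (((-I) • (U - LinearMap.adjoint U)) (w j)) with hy
    have h1 : x + I * y = 2 * inner ℂ (w j) (U (w j)) := XY_form U (w j)
    have h2 : η < ‖(inner ℂ (w j) (U (w j)) : ℂ)‖ := hbad j
    have h3 : 2 * ‖(inner ℂ (w j) (U (w j)) : ℂ)‖ ≤ ‖x‖ + ‖y‖ := by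
      calc 2 * ‖(inner ℂ (w j) (U (w j)) : ℂ)‖ = ‖x + I * y‖ := by
            rw [h1, norm_mul]
            simp
        _ ≤ ‖x‖ + ‖I * y‖ := norm_add_le _ _
        _ = ‖x‖ + ‖y‖ := by rw [norm_mul, norm_I, one_mul]
    rcases le_total ‖y‖ ‖x‖ with h | h
    · have h4 : η ≤ ‖x‖ := by linarith
      have h5 := pow_le_pow_left₀ hη.le h4 (2 ^ (k + 1))
      have h6 : 0 ≤ ‖y‖ ^ (2 ^ (k + 1)) := by positivity
      linarith
    · have h4 : η ≤ ‖y‖ := by linarith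
      have h5 := pow_le_pow_left₀ hη.le h4 (2 ^ (k + 1))
      have h6 : 0 ≤ ‖x‖ ^ (2 ^ (k + 1)) := by positivity
      linarith
  calc (m : ℝ) * η ^ (2 ^ (k + 1)) = ∑ j : Fin m, η ^ (2 ^ (k + 1)) := by
        rw [sum_const, card_univ, Fintype.card_fin, nsmul_eq_mul]
    _ ≤ ∑ j : Fin m, (‖(inner ℂ (w j) ((U + LinearMap.adjoint U) (w j)) : ℂ)‖ ^ (2 ^ (k + 1))
        + ‖(inner ℂ (w j) (((-I) • (U - LinearMap.adjoint U)) (w j)) : ℂ)‖ ^ (2 ^ (k + 1))) :=
        sum_le_sum fun j _ => hj j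
    _ = ∑ j : Fin m, ‖(inner ℂ (w j) ((U + LinearMap.adjoint U) (w j)) : ℂ)‖ ^ (2 ^ (k + 1))
        + ∑ j : Fin m, ‖(inner ℂ (w j) (((-I) • (U - LinearMap.adjoint U)) (w j)) : ℂ)‖
          ^ (2 ^ (k + 1)) := sum_add_distrib
    _ ≤ _ := add_le_add (hX.trans hXN) (hY.trans hYN)

/-- the constant in the number of intervals. -/
noncomputable def ck (k : ℕ) : ℝ :=
  (Ck k * 4) ^ (2 ^ (k + 1)) + 4 ^ (2 ^ (k + 1))

lemma ck_pos (k : ℕ) : 0 < ck k := by
  have := Ck_pos k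
  unfold ck
  positivity

/-- the number of intervals. -/
noncomputable def Sfun (k : ℕ) (D η : ℝ) : ℕ := 2 * ⌈ck k * D / η ^ (2 ^ (k + 1))⌉₊ + 1

/-- the trace condition controls the matrix of twice the imaginary part. -/
lemma trace_im (T : V →ₗ[ℂ] V) (b : OrthonormalBasis (Fin d) ℂ V) (k : ℕ) :
    ‖((Ym (mt b T)) ^ (2 ^ (k + 1))).trace‖
      = 2 ^ (2 ^ (k + 1)) * (LinearMap.trace ℂ V ((imPart T) ^ (2 ^ (k + 1)))).re := by
  have h1 := trace_pow_even b ((-I) • (T - LinearMap.adjoint T)) (adj_Y T) k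
  rw [mt_Y] at h1
  have h2 : Ym (mt b T) = (2 : ℂ) • mt b (imPart T) := by
    rw [← mt_Y]
    have h3 : (-I) • (T - LinearMap.adjoint T) = (2 : ℂ) • imPart T := by
      rw [imPart, smul_smul]
      congr 1
      field_simp
      rw [I_sq, neg_neg]
    rw [h3]
    exact map_smul (LinearMap.toMatrixOrthonormal b) _ _
  have h3 : ((Ym (mt b T)) ^ (2 ^ (k + 1))).trace
      = 2 ^ (2 ^ (k + 1)) * LinearMap.trace ℂ V ((imPart T) ^ (2 ^ (k + 1))) := by
    rw [h2, smul_pow, Matrix.trace_smul, smul_eq_mul]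
    congr 1
    rw [LinearMap.trace_eq_matrix_trace ℂ b.toBasis]
    have h4 : (mt b (imPart T)) ^ (2 ^ (k + 1)) = mt b ((imPart T) ^ (2 ^ (k + 1))) :=
      (map_pow (LinearMap.toMatrixOrthonormal b) (imPart T) (2 ^ (k + 1))).symm
    rw [h4]
    rfl
  have h4 : ((Ym (mt b T)) ^ (2 ^ (k + 1))).trace
      = ((‖((Ym (mt b T)) ^ (2 ^ (k + 1))).trace‖ : ℝ) : ℂ) := by
    rw [h1, norm_real, Real.norm_of_nonneg (by positivity)]
  have h5 := congrArg Complex.re (h4.symm.trans h3)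
  rw [ofReal_re] at h5
  rw [h5]
  have h6 : (2 : ℂ) ^ (2 ^ (k + 1)) = ((2 ^ (2 ^ (k + 1)) : ℝ) : ℂ) := by push_cast; rfl
  rw [h6, re_ofReal_mul]

/-- cutting in any Schur basis. -/
lemma schat_cutB (T : V →ₗ[ℂ] V) (b : OrthonormalBasis (Fin d) ℂ V)
    (htri : ∀ i j, j < i → (inner ℂ (b i) (T (b j)) : ℂ) = 0) (k : ℕ) {D : ℝ} (hD : 0 < D)
    (hT : (LinearMap.trace ℂ V ((imPart T) ^ (2 ^ (k + 1)))).re ≤ D) :
    CutB T b (Sfun k D) := by
  apply cutB_of_count T b (fun η => ⌈ck k * D / η ^ (2 ^ (k + 1))⌉₊)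
  intro η hη m w hw hbad
  have hp0 : 2 ^ (k + 1) ≠ 0 := by positivity
  obtain ⟨a, ha0, ha⟩ : ∃ a : ℝ, 0 ≤ a ∧ a ^ (2 ^ (k + 1)) = 2 ^ (2 ^ (k + 1)) * D :=
    ⟨(2 ^ (2 ^ (k + 1)) * D) ^ ((((2 ^ (k + 1) : ℕ) : ℝ))⁻¹), Real.rpow_nonneg (by positivity) _,
      Real.rpow_inv_natCast_pow (by positivity) hp0⟩
  have hapos : 0 < a := by
    rcases ha0.eq_or_lt with h | h
    · rw [← h, zero_pow hp0] at ha
      have : 0 < 2 ^ (2 ^ (k + 1)) * D := by positivity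
      linarith
    · exact h
  have h1 := schat_count T b htri k hapos
    (by
      rw [trace_im, ha]
      exact mul_le_mul_of_nonneg_left hT (by positivity)) hη m w hw hbad
  have h2 : (Ck k * (a + a)) ^ (2 ^ (k + 1)) + (a + a) ^ (2 ^ (k + 1)) = ck k * D := by
    have e1 : (a + a) ^ (2 ^ (k + 1)) = 4 ^ (2 ^ (k + 1)) * D := by
      have : a + a = 2 * a := by ring
      rw [this, mul_pow, ha, ← mul_assoc, ← mul_pow]
      norm_num
    rw [mul_pow, e1, ck, mul_pow]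
    ring
  rw [h2] at h1
  have h3 : (m : ℝ) ≤ ck k * D / η ^ (2 ^ (k + 1)) := by
    rw [le_div_iff₀ (by positivity)]
    exact h1
  exact_mod_cast h3.trans (Nat.le_ceil _)

omit [FiniteDimensional ℂ V] in
lemma CutB.smul {T : V →ₗ[ℂ] V} {b : OrthonormalBasis (Fin d) ℂ V} {L : ℝ → ℕ}
    (h : CutB T b L) {v : ℂ} (hv : ‖v‖ = 1) : CutB (v • T) b L := by
  intro η hη
  obtain ⟨s, hs1, hs2, hs3⟩ := h η hη
  refine ⟨s, hs1, hs2, ?_⟩
  intro j x hx
  have h4 : (v • T) x - dg b (v • T) x = v • (T x - dg b T x) := by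
    simp only [dg, LinearMap.coe_mk, AddHom.coe_mk, LinearMap.smul_apply, inner_smul_right,
      smul_sub, smul_sum, smul_smul, mul_assoc]
  rw [h4, inner_smul_right, norm_mul, hv, one_mul]
  exact hs3 j x hx

/-- the data of one block for the Schatten class. -/
lemma schat_cutIn (T : V →ₗ[ℂ] V) (k : ℕ) {D : ℝ} (hD : 0 < D)
    (hT : (LinearMap.trace ℂ V ((imPart T) ^ (2 ^ (k + 1)))).re ≤ D) {v : ℂ} (hv : ‖v‖ = 1)
    (c : ℝ) : CutIn (v • T) (Sfun k D) c := by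
  obtain ⟨k', e, hk, he, hQ1, hQ2⟩ :=
    ApproxInv.schur_sorted (fun z => (v * z).re ≤ c) (Module.finrank ℂ V) V T rfl
  have hon : Orthonormal ℂ (fun p : Fin (Module.finrank ℂ V) => e p) := by
    rw [orthonormal_iff_ite]
    intro i j
    by_cases hij : i = j
    · subst hij
      simp only [if_true]
      exact he.unit i i.2
    · rw [if_neg hij]
      exact he.orth i j i.2 j.2 (fun h' => hij (Fin.ext h'))
  have hspan : ⊤ ≤ Submodule.span ℂ (Set.range (fun p : Fin (Module.finrank ℂ V) => e p)) := by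
    rw [hon.linearIndependent.span_eq_top_of_card_eq_finrank' (by simp)]
  set b : OrthonormalBasis (Fin (Module.finrank ℂ V)) ℂ V := OrthonormalBasis.mk hon hspan with hb
  have hbe : ∀ p : Fin (Module.finrank ℂ V), b p = e p := fun p => by
    rw [hb]
    exact congrFun (OrthonormalBasis.coe_mk hon hspan) p
  have htri : ∀ i j, j < i → (inner ℂ (b i) (T (b j)) : ℂ) = 0 := by
    intro i j hji
    rw [hbe, hbe, he.tri j j.2, inner_sum]
    apply sum_eq_zero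
    intro r hr
    have hr' := mem_range.mp hr
    have hji' : (j : ℕ) < i := hji
    rw [inner_smul_right, he.orth i r i.2 (by omega) (by omega), mul_zero]
  apply cutIn_of_basis b _ hk _ _ ((schat_cutB T b htri k hD hT).smul hv)
  · intro i j hji
    rw [LinearMap.smul_apply, inner_smul_right, htri i j hji, mul_zero]
  · intro i hi
    rw [LinearMap.smul_apply, inner_smul_right, hbe]
    exact hQ1 i hi
  · intro i hi
    rw [LinearMap.smul_apply, inner_smul_right, hbe]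
    have := hQ2 i hi i.2
    push Not at this
    exact this

end ApproxC
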