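import Pool.Agent.Work.MP_ecaf63_an_c.Scale
import Pool.Agent.Work.MP_ecaf63_an.Sys

/-!
Triangular systems which are almost dissipative in a weighted norm, the estimate for two such
systems, and the lower bound for one such system.
-/

open Finset Complex InnerProductSpace ApproxInv

universe u

namespace ApproxC

variable {H : Type u} [NormedAddCommGroup H] [InnerProductSpace ℂ H]

/-- An orthonormal family, grouped in blocks of finite length, in which `C` is upper triangular,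
with diagonal entries of real part at most `c`, and such that for every positive number there are
weights, bounded above by one and below by a constant, in which the form is almost bounded
by `c`. -/
structure WSys (C : H →L[ℂ] H) (c : ℝ) (K : ℝ → ℝ) {ι : Type u} (n : ι → ℕ) (e : ι → ℕ → H) :
    Prop where
  unit : ∀ i p, p < n i → (inner ℂ (e i p) (e i p) : ℂ) = 1
  orth : ∀ i j p q, p < n i → q < n j → ¬ (i = j ∧ p = q) → (inner ℂ (e i p) (e j q) : ℂ) = 0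
  tri : ∀ i q, q < n i → C (e i q) = ∑ p ∈ range (q + 1), inner ℂ (e i p) (C (e i q)) • e i p
  diag : ∀ i p, p < n i → (inner ℂ (e i p) (C (e i p)) : ℂ).re ≤ c
  scale : ∀ η, 0 < η → ∀ i, ∃ W : ℕ → ℝ, (∀ p, (K η)⁻¹ ^ 2 ≤ W p) ∧ (∀ p, W p ≤ 1) ∧
      ∀ x : ℕ → ℂ, (∑ p ∈ range (n i), (W p : ℂ) * (starRingEnd ℂ (x p) *
        ∑ q ∈ Ico p (n i), (inner ℂ (e i p) (C (e i q)) : ℂ) * x q)).re
          ≤ (c + η) * ∑ p ∈ range (n i), W p * ‖x p‖ ^ 2

section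

variable {ι : Type u} {n : ι → ℕ} {e : ι → ℕ → H} {C : H →L[ℂ] H} {c : ℝ} {K : ℝ → ℝ}

lemma WSys.mono (h : WSys C c K n e) {c' : ℝ} (hc : c ≤ c') : WSys C c' K n e := by
  refine ⟨h.unit, h.orth, h.tri, fun i p hp => (h.diag i p hp).trans hc, ?_⟩
  intro η hη i
  obtain ⟨W, h1, h2, h3⟩ := h.scale η hη i
  refine ⟨W, h1, h2, fun x => (h3 x).trans ?_⟩
  apply mul_le_mul_of_nonneg_right (by linarith)
  apply sum_nonneg
  intro p _
  have : 0 ≤ W p := (sq_nonneg _).trans (h1 p)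
  positivity

lemma inner_wvec (h : WSys C c K n e) (F : Finset ι) (w w' : ι → ℕ → ℝ) (x y : ι → ℕ → ℂ) :
    (inner ℂ (wvec F n e w x) (wvec F n e w' y) : ℂ)
      = ∑ i ∈ F, ∑ p ∈ range (n i), ((w i p * w' i p : ℝ) : ℂ) * (starRingEnd ℂ (x i p) * y i p) := by
  classical
  simp only [wvec, LinearMap.coe_mk, AddHom.coe_mk]
  rw [sum_inner]
  refine sum_congr rfl fun i hi => ?_
  rw [sum_inner]
  refine sum_congr rfl fun p hp => ?_
  rw [inner_sum, sum_eq_single i]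
  · rw [inner_sum, sum_eq_single p]
    · rw [inner_smul_left, inner_smul_right, h.unit i p (mem_range.mp hp)]
      simp only [mul_one, map_mul, conj_ofReal]
      push_cast
      ring
    · intro q hq hqp
      rw [inner_smul_left, inner_smul_right,
        h.orth i i p q (mem_range.mp hp) (mem_range.mp hq) (by tauto)]
      simp
    · intro hp'
      exact absurd hp hp'
  · intro j hj hji
    rw [inner_sum]
    apply sum_eq_zero
    intro q hq
    rw [inner_smul_left, inner_smul_right,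
      h.orth i j p q (mem_range.mp hp) (mem_range.mp hq) (by tauto)]
    simp
  · intro hi'
    exact absurd hi hi'

lemma norm_wvec_sq (h : WSys C c K n e) (F : Finset ι) (w : ι → ℕ → ℝ) (x : ι → ℕ → ℂ) :
    ‖wvec F n e w x‖ ^ 2 = ∑ i ∈ F, ∑ p ∈ range (n i), w i p ^ 2 * ‖x i p‖ ^ 2 := by
  have h1 := inner_wvec h F w w x x
  rw [inner_self_eq_norm_sq_to_K] at h1
  have h2 : ((‖wvec F n e w x‖ ^ 2 : ℝ) : ℂ)
      = ((∑ i ∈ F, ∑ p ∈ range (n i), w i p ^ 2 * ‖x i p‖ ^ 2 : ℝ) : ℂ) := by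
    push_cast
    rw [show ((‖wvec F n e w x‖ : ℂ)) ^ 2 = ((‖wvec F n e w x‖ : ℝ) : ℂ) ^ 2 from rfl]
    refine Eq.trans h1 ?_
    refine sum_congr rfl fun i _ => sum_congr rfl fun p _ => ?_
    rw [mul_comm (starRingEnd ℂ (x i p)), mul_conj, normSq_eq_norm_sq]
    push_cast
    ring
  exact_mod_cast h2

lemma wvec_act (h : WSys C c K n e) (F : Finset ι) (x : ι → ℕ → ℂ) :
    wvec F n e (fun _ _ => 1) (act n (fun i p q => inner ℂ (e i p) (C (e i q))) x)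
      = C (wvec F n e (fun _ _ => 1) x) := by
  simp only [wvec, act, LinearMap.coe_mk, AddHom.coe_mk, ofReal_one, one_mul]
  rw [map_sum]
  refine sum_congr rfl fun i _ => ?_
  rw [map_sum]
  have h1 : ∀ q ∈ range (n i), C (x i q • e i q)
      = ∑ p ∈ range (n i), if p ≤ q then (x i q * inner ℂ (e i p) (C (e i q))) • e i p else 0 := by
    intro q hq
    rw [map_smul, h.tri i q (mem_range.mp hq), smul_sum, ← sum_filter]
    have h2 : (range (n i)).filter (fun p => p ≤ q) = range (q + 1) := by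
      ext p
      have := mem_range.mp hq
      simp only [mem_filter, mem_range]
      omega
    rw [h2]
    refine sum_congr rfl fun p hp => ?_
    rw [smul_smul]
    congr 2
    rw [← h.tri i q (mem_range.mp hq)]
  rw [sum_congr rfl h1, sum_comm]
  refine sum_congr rfl fun p hp => ?_
  rw [← sum_filter]
  have h2 : (range (n i)).filter (fun q => p ≤ q) = Ico p (n i) := by
    ext q
    simp only [mem_filter, mem_range, mem_Ico]
    omega
  rw [h2, sum_smul]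
  refine sum_congr rfl fun q _ => ?_
  rw [mul_comm]

/-- the weights: existence of a scaled norm for a system. -/
lemma exists_scale (h : WSys C c K n e) {η : ℝ} (hη : 0 < η) (hK : 0 < K η) :
    ∃ w : ι → ℕ → ℝ, ∀ F : Finset ι,
      (∀ x, ‖wvec F n e w x‖ ≤ ‖wvec F n e (fun _ _ => 1) x‖) ∧
      (∀ x, ‖wvec F n e (fun _ _ => 1) x‖ ≤ K η * ‖wvec F n e w x‖) ∧
      (∀ x, (inner ℂ (wvec F n e w x) (wvec F n e w
        (act n (fun i p q => inner ℂ (e i p) (C (e i q))) x)) : ℂ).re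
          ≤ (c + η) * ‖wvec F n e w x‖ ^ 2) := by
  choose W hW1 hW2 hW3 using h.scale η hη
  have hKi : 0 < (K η)⁻¹ ^ 2 := by positivity
  have hWpos : ∀ i p, 0 < W i p := fun i p => hKi.trans_le (hW1 i p)
  refine ⟨fun i p => Real.sqrt (W i p), fun F => ⟨?_, ?_, ?_⟩⟩
  · intro x
    apply le_of_sq_le_sq _ (norm_nonneg _)
    rw [norm_wvec_sq h, norm_wvec_sq h]
    apply sum_le_sum
    intro i _
    apply sum_le_sum
    intro p _
    apply mul_le_mul_of_nonneg_right _ (sq_nonneg _)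
    rw [Real.sq_sqrt (hWpos i p).le, one_pow]
    exact hW2 i p
  · intro x
    apply le_of_sq_le_sq _ (by positivity)
    rw [mul_pow, norm_wvec_sq h, norm_wvec_sq h, mul_sum]
    apply sum_le_sum
    intro i _
    rw [mul_sum]
    apply sum_le_sum
    intro p _
    rw [Real.sq_sqrt (hWpos i p).le, one_pow, ← mul_assoc]
    apply mul_le_mul_of_nonneg_right _ (sq_nonneg _)
    have h2 := hW1 i p
    rw [inv_pow, inv_le_iff_one_le_mul₀ (by positivity)] at h2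
    linarith [mul_comm (K η ^ 2) (W i p)]
  · intro x
    rw [inner_wvec h, norm_wvec_sq h, re_sum, mul_sum]
    apply sum_le_sum
    intro i _
    have h1 := hW3 i (x i)
    have h2 : ∑ p ∈ range (n i), Real.sqrt (W i p) ^ 2 * ‖x i p‖ ^ 2
        = ∑ p ∈ range (n i), W i p * ‖x i p‖ ^ 2 :=
      sum_congr rfl fun p _ => by rw [Real.sq_sqrt (hWpos i p).le]
    rw [h2]
    refine le_trans (le_of_eq ?_) h1
    congr 1
    refine sum_congr rfl fun p _ => ?_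
    rw [Real.mul_self_sqrt (hWpos i p).le]
    rfl

end

variable [CompleteSpace H]

/-- the estimate for two triangular systems. -/
lemma pair_bound {ι₁ ι₂ : Type u} {n₁ : ι₁ → ℕ} {e₁ : ι₁ → ℕ → H} {n₂ : ι₂ → ℕ} {e₂ : ι₂ → ℕ → H}
    {C₁ C₂ : H →L[ℂ] H} {c₁ c₂ : ℝ} {K₁ K₂ : ℝ → ℝ} (hK₁ : ∀ η, 0 < η → 0 < K₁ η)
    (hK₂ : ∀ η, 0 < η → 0 < K₂ η) (h₁ : WSys C₁ c₁ K₁ n₁ e₁)
    (h₂ : WSys C₂ c₂ K₂ n₂ e₂) (hc : c₁ + c₂ < 0) (T : H →L[ℂ] H) {g : ℝ} (hg0 : 0 ≤ g)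
    (hg : ∀ x : H, ‖T (C₁ x) + ContinuousLinearMap.adjoint C₂ (T x)‖ ≤ g * ‖x‖)
    {x y : H} (hx : x ∈ sysSpan n₁ e₁) (hy : y ∈ sysSpan n₂ e₂) :
    ‖(inner ℂ y (T x) : ℂ)‖
      ≤ 2 / (-(c₁ + c₂)) * (K₁ (-(c₁ + c₂) / 4) * K₂ (-(c₁ + c₂) / 4)) * g * ‖x‖ * ‖y‖ := by
  obtain ⟨F, a, rfl⟩ := exists_coord hx
  obtain ⟨G, b, rfl⟩ := exists_coord hy
  set η : ℝ := -(c₁ + c₂) / 4 with hη
  have hηpos : 0 < η := by
    rw [hη]
    linarith
  set k₁ : ℝ := K₁ η with hk₁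
  set k₂ : ℝ := K₂ η with hk₂
  have hk₁0 : 0 < k₁ := hK₁ η hηpos
  have hk₂0 : 0 < k₂ := hK₂ η hηpos
  obtain ⟨w₁, hw₁⟩ := exists_scale h₁ hηpos hk₁0
  obtain ⟨w₂, hw₂⟩ := exists_scale h₂ hηpos hk₂0
  obtain ⟨f1, f2, f3⟩ := hw₁ F
  obtain ⟨g1, g2, g3⟩ := hw₂ G
  set v₁ := wvec F n₁ e₁ (fun _ _ => 1) with hv₁
  set v₂ := wvec G n₂ e₂ (fun _ _ => 1) with hv₂
  set S₁ := wvec F n₁ e₁ w₁ with hS₁
  set S₂ := wvec G n₂ e₂ w₂ with hS₂
  set B₁ := act n₁ (fun i p q => inner ℂ (e₁ i p) (C₁ (e₁ i q))) with hB₁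
  set B₂ := act n₂ (fun i p q => inner ℂ (e₂ i p) (C₂ (e₂ i q))) with hB₂
  rw [← hk₁] at f2
  rw [← hk₂] at g2
  have hvB₁ : ∀ x, v₁ (B₁ x) = C₁ (v₁ x) := fun x => wvec_act h₁ F x
  have hvB₂ : ∀ x, v₂ (B₂ x) = C₂ (v₂ x) := fun x => wvec_act h₂ G x
  have hmain := sylvester S₁ S₂ B₁ B₂ (fun x y => inner ℂ (v₂ y) (T (v₁ x)))
    (by
      intro x x' y s
      simp only [map_add, map_smul, inner_add_right, inner_smul_right])
    (by
      intro x y y' s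
      simp only [map_add, map_smul, inner_add_left, inner_smul_left, conj_ofReal])
    (‖T‖ * (k₁ * k₂)) (‖C₁‖ * k₁) (‖C₂‖ * k₂) (c₁ + η) (c₂ + η) (g * (k₁ * k₂))
    (by
      intro x y
      calc ‖(inner ℂ (v₂ y) (T (v₁ x)) : ℂ)‖ ≤ ‖v₂ y‖ * ‖T (v₁ x)‖ := norm_inner_le_norm _ _
        _ ≤ (k₂ * ‖S₂ y‖) * (‖T‖ * (k₁ * ‖S₁ x‖)) := by
            apply mul_le_mul (g2 y) _ (norm_nonneg _) (by positivity)
            exact (T.le_opNorm _).trans (mul_le_mul_of_nonneg_left (f2 x) (norm_nonneg _))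
        _ = _ := by ring)
    (by
      intro x
      calc ‖S₁ (B₁ x)‖ ≤ ‖v₁ (B₁ x)‖ := f1 _
        _ = ‖C₁ (v₁ x)‖ := by rw [hvB₁]
        _ ≤ ‖C₁‖ * ‖v₁ x‖ := C₁.le_opNorm _
        _ ≤ ‖C₁‖ * (k₁ * ‖S₁ x‖) := mul_le_mul_of_nonneg_left (f2 x) (norm_nonneg _)
        _ = _ := by ring)
    (by
      intro x
      calc ‖S₂ (B₂ x)‖ ≤ ‖v₂ (B₂ x)‖ := g1 _
        _ = ‖C₂ (v₂ x)‖ := by rw [hvB₂]
        _ ≤ ‖C₂‖ * ‖v₂ x‖ := C₂.le_opNorm _
        _ ≤ ‖C₂‖ * (k₂ * ‖S₂ x‖) := mul_le_mul_of_nonneg_left (g2 x) (norm_nonneg _)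
        _ = _ := by ring)
    f3 g3
    (by
      intro x y
      have h1 : (inner ℂ (v₂ y) (T (v₁ (B₁ x))) : ℂ) + inner ℂ (v₂ (B₂ y)) (T (v₁ x))
          = inner ℂ (v₂ y) (T (C₁ (v₁ x)) + ContinuousLinearMap.adjoint C₂ (T (v₁ x))) := by
        rw [hvB₁, hvB₂, inner_add_right, ContinuousLinearMap.adjoint_inner_right]
      rw [h1]
      calc ‖(inner ℂ (v₂ y) (T (C₁ (v₁ x)) + ContinuousLinearMap.adjoint C₂ (T (v₁ x))) : ℂ)‖
          ≤ ‖v₂ y‖ * ‖T (C₁ (v₁ x)) + ContinuousLinearMap.adjoint C₂ (T (v₁ x))‖ :=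
            norm_inner_le_norm _ _
        _ ≤ (k₂ * ‖S₂ y‖) * (g * (k₁ * ‖S₁ x‖)) := by
            apply mul_le_mul (g2 y) _ (norm_nonneg _) (by positivity)
            exact (hg _).trans (mul_le_mul_of_nonneg_left (f2 x) hg0)
        _ = _ := by ring)
    (by positivity) (by rw [hη]; linarith) a b
  refine hmain.trans ?_
  have e1 : -(c₁ + η + (c₂ + η)) = -(c₁ + c₂) / 2 := by
    rw [hη]
    ring
  rw [e1]
  have h2 : ‖S₁ a‖ * ‖S₂ b‖ ≤ ‖v₁ a‖ * ‖v₂ b‖ :=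
    mul_le_mul (f1 a) (g1 b) (norm_nonneg _) (norm_nonneg _)
  have h3 : 0 ≤ g * (k₁ * k₂) / (-(c₁ + c₂) / 2) := by
    apply div_nonneg (by positivity)
    linarith
  refine (mul_le_mul_of_nonneg_left h2 h3).trans (le_of_eq ?_)
  have h4 : c₁ + c₂ ≠ 0 := hc.ne
  field_simp

omit [CompleteSpace H] in
/-- a system is bounded below off the half plane. -/
lemma lower_bound {ι : Type u} {n : ι → ℕ} {e : ι → ℕ → H} {C : H →L[ℂ] H} {c : ℝ} {K : ℝ → ℝ}
    (hK : ∀ η, 0 < η → 0 < K η)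
    (h : WSys C c K n e) {μ : ℂ} (hμ : c < μ.re) {x : H} (hx : x ∈ sysSpan n e) :
    (μ.re - c) / 2 * (K ((μ.re - c) / 2))⁻¹ * ‖x‖ ≤ ‖C x - μ • x‖ := by
  obtain ⟨F, a, rfl⟩ := exists_coord hx
  set η : ℝ := (μ.re - c) / 2 with hη
  have hηpos : 0 < η := by
    rw [hη]
    linarith
  have hKpos : 0 < K η := hK η hηpos
  obtain ⟨w, hw⟩ := exists_scale h hηpos hKpos
  obtain ⟨f1, f2, f3⟩ := hw F
  set v := wvec F n e (fun _ _ => 1) with hv
  set S := wvec F n e w with hS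
  set B := act n (fun i p q => inner ℂ (e i p) (C (e i q))) with hB
  have hvB : v (B a) = C (v a) := wvec_act h F a
  have h1 : ‖S (B a - μ • a)‖ ≤ ‖C (v a) - μ • v a‖ := by
    refine (f1 _).trans (le_of_eq ?_)
    rw [map_sub, map_smul, hvB]
  have h2 : η * ‖S a‖ ^ 2 ≤ ‖S a‖ * ‖S (B a - μ • a)‖ := by
    have h3 : -(inner ℂ (S a) (S (B a - μ • a)) : ℂ).re ≤ ‖S a‖ * ‖S (B a - μ • a)‖ := by
      calc -(inner ℂ (S a) (S (B a - μ • a)) : ℂ).re ≤ |(inner ℂ (S a) (S (B a - μ • a)) : ℂ).re| :=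
            neg_le_abs _
        _ ≤ ‖(inner ℂ (S a) (S (B a - μ • a)) : ℂ)‖ := abs_re_le_norm _
        _ ≤ _ := norm_inner_le_norm _ _
    refine le_trans ?_ h3
    rw [map_sub, map_smul, inner_sub_right, inner_smul_right, inner_self_eq_norm_sq_to_K, sub_re]
    have h4 : (μ * ((‖S a‖ : ℝ) : ℂ) ^ 2).re = μ.re * ‖S a‖ ^ 2 := by
      rw [← ofReal_pow, re_mul_ofReal]
    have h5 := f3 a
    have h6 : (μ * ((RCLike.ofReal ‖S a‖ : ℂ)) ^ 2).re = μ.re * ‖S a‖ ^ 2 := h4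
    rw [h6]
    have h7 : c + η = μ.re - η := by
      rw [hη]
      ring
    rw [h7] at h5
    nlinarith
  have h3 : η * ‖S a‖ ≤ ‖S (B a - μ • a)‖ := by
    rcases (norm_nonneg (S a)).eq_or_lt with h0 | h0
    · rw [← h0]
      simp
    · have : ‖S a‖ * (η * ‖S a‖) ≤ ‖S a‖ * ‖S (B a - μ • a)‖ := by
        calc ‖S a‖ * (η * ‖S a‖) = η * ‖S a‖ ^ 2 := by ring
          _ ≤ _ := h2
      exact le_of_mul_le_mul_left this h0
  have h4 : (K η)⁻¹ * ‖v a‖ ≤ ‖S a‖ := by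
    rw [inv_mul_le_iff₀ hKpos]
    exact f2 a
  calc η * (K η)⁻¹ * ‖v a‖ = η * ((K η)⁻¹ * ‖v a‖) := by ring
    _ ≤ η * ‖S a‖ := mul_le_mul_of_nonneg_left h4 hηpos.le
    _ ≤ ‖S (B a - μ • a)‖ := h3
    _ ≤ _ := h1

omit [CompleteSpace H] in
/-- off the half plane the range contains the system. -/
lemma span_le_range {ι : Type u} {n : ι → ℕ} {e : ι → ℕ → H} {C : H →L[ℂ] H} {c : ℝ} {K : ℝ → ℝ}
    (h : WSys C c K n e) {μ : ℂ} (hμ : c < μ.re) :
    sysSpan n e ≤ LinearMap.range ((C - μ • ContinuousLinearMap.id ℂ H : H →L[ℂ] H) : H →ₗ[ℂ] H) := by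
  apply Submodule.span_le.mpr
  rintro x ⟨i, p, hp, rfl⟩
  induction p using Nat.strong_induction_on with
  | _ p ih =>
    set Rg := LinearMap.range ((C - μ • ContinuousLinearMap.id ℂ H : H →L[ℂ] H) : H →ₗ[ℂ] H)
      with hRg
    have h1 := h.tri i p hp
    have h2 : (inner ℂ (e i p) (C (e i p)) - μ) • e i p
        = (C - μ • ContinuousLinearMap.id ℂ H) (e i p)
          - ∑ q ∈ range p, inner ℂ (e i q) (C (e i p)) • e i q := by
      rw [sum_range_succ] at h1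
      simp only [sub_apply, smul_apply,
        ContinuousLinearMap.id_apply, sub_smul]
      nth_rewrite 2 [h1]
      abel
    have h3 : (inner ℂ (e i p) (C (e i p)) - μ) • e i p ∈ Rg := by
      rw [h2]
      apply Rg.sub_mem
      · exact ⟨e i p, rfl⟩
      · apply Rg.sum_mem
        intro q hq
        apply Rg.smul_mem
        have hq' := mem_range.mp hq
        exact ih q hq' (by omega)
    have h4 : (inner ℂ (e i p) (C (e i p)) - μ : ℂ) ≠ 0 := by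
      intro h0
      have h5 := h.diag i p hp
      rw [sub_eq_zero.mp h0] at h5
      linarith
    have h6 := Rg.smul_mem (inner ℂ (e i p) (C (e i p)) - μ : ℂ)⁻¹ h3
    rwa [smul_smul, inv_mul_cancel₀ h4, one_smul] at h6

end ApproxC
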