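import Pool.Agent.Work.MP_ecaf63_an_c.Words

/-!
Triangular truncation in Schatten classes (dyadic exponents), finite dimension.
-/

open Finset Matrix Complex

namespace ApproxC

variable {n : ℕ}

/-- twice the real part. -/
noncomputable def Xm (N : Matrix (Fin n) (Fin n) ℂ) : Matrix (Fin n) (Fin n) ℂ := N + Nᴴ

/-- twice the imaginary part. -/
noncomputable def Ym (N : Matrix (Fin n) (Fin n) ℂ) : Matrix (Fin n) (Fin n) ℂ :=
  (-I) • (N - Nᴴ)

lemma Xm_herm (N : Matrix (Fin n) (Fin n) ℂ) : (Xm N)ᴴ = Xm N := by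
  rw [Xm, Matrix.conjTranspose_add, Matrix.conjTranspose_conjTranspose, add_comm]

lemma Ym_herm (N : Matrix (Fin n) (Fin n) ℂ) : (Ym N)ᴴ = Ym N := by
  rw [Ym, Matrix.conjTranspose_smul, Matrix.conjTranspose_sub, Matrix.conjTranspose_conjTranspose]
  simp only [star_neg, Complex.star_def, conj_I, neg_neg]
  rw [neg_smul, ← smul_neg, neg_sub]

/-- strictly upper triangular. -/
def SU (N : Matrix (Fin n) (Fin n) ℂ) : Prop := ∀ i j, j ≤ i → N i j = 0

lemma SU.mul {N P : Matrix (Fin n) (Fin n) ℂ} (hN : SU N) (hP : SU P) : SU (N * P) := by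
  intro i j hij
  rw [Matrix.mul_apply]
  apply sum_eq_zero
  intro l _
  rcases le_or_gt l i with h | h
  · rw [hN i l h, zero_mul]
  · rw [hP l j (hij.trans h.le), mul_zero]

lemma SU.smul {N : Matrix (Fin n) (Fin n) ℂ} (hN : SU N) (a : ℂ) : SU (a • N) := by
  intro i j hij
  rw [Matrix.smul_apply, hN i j hij, smul_zero]

lemma SU.trace {N : Matrix (Fin n) (Fin n) ℂ} (hN : SU N) : N.trace = 0 := by
  rw [Matrix.trace]
  exact sum_eq_zero fun i _ => hN i i le_rfl

lemma Xm_sq (N : Matrix (Fin n) (Fin n) ℂ) :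
    (Xm N) ^ 2 = N * N + N * Nᴴ + (Nᴴ * N + Nᴴ * Nᴴ) := by
  rw [Xm, pow_two]
  noncomm_ring

lemma Ym_sq (N : Matrix (Fin n) (Fin n) ℂ) :
    (Ym N) ^ 2 = -(N * N) + N * Nᴴ + (Nᴴ * N - Nᴴ * Nᴴ) := by
  rw [Ym, smul_pow, pow_two, pow_two]
  have : -I * -I = (-1 : ℂ) := by
    rw [neg_mul_neg, I_mul_I]
  rw [this, neg_one_smul]
  noncomm_ring

/-- the case of the Hilbert-Schmidt norm. -/
lemma trace_two {N : Matrix (Fin n) (Fin n) ℂ} (hN : SU N) :
    ((Ym N) ^ 2).trace = ((Xm N) ^ 2).trace := by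
  have h1 : (N * N).trace = 0 := (hN.mul hN).trace
  have h2 : (Nᴴ * Nᴴ).trace = 0 := by
    rw [← Matrix.conjTranspose_mul, Matrix.trace_conjTranspose, h1, star_zero]
  rw [Xm_sq, Ym_sq]
  simp only [Matrix.trace_add, Matrix.trace_sub, Matrix.trace_neg, h1, h2]
  ring

/-- constants. -/
def Ck : ℕ → ℝ
  | 0 => 1
  | k + 1 => 2 * Ck k + 1

lemma Ck_pos (k : ℕ) : 0 < Ck k := by
  induction k with
  | zero => exact one_pos
  | succ k ih =>
    rw [Ck]
    linarith

/-- the truncation theorem: from the real part to the imaginary part. -/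
theorem trunc (k : ℕ) : ∀ (N : Matrix (Fin n) (Fin n) ℂ), SU N → ∀ x : ℝ, 0 < x →
    ‖((Xm N) ^ (2 ^ (k + 1))).trace‖ ≤ x ^ (2 ^ (k + 1)) →
    ‖((Ym N) ^ (2 ^ (k + 1))).trace‖ ≤ (Ck k * x) ^ (2 ^ (k + 1)) := by
  induction k with
  | zero =>
    intro N hN x hx h
    rw [zero_add, pow_one] at *
    rw [trace_two hN, Ck, one_mul]
    exact h
  | succ k ih =>
    intro N hN x hx h
    by_contra hcon
    push Not at hcon
    set p := 2 ^ (k + 1 + 1) with hp
    set q := 2 ^ (k + 1) with hq
    have hpq : p = 2 * q := by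
      rw [hp, hq, pow_succ]
      ring
    have hq0 : 0 < q := by
      rw [hq]
      positivity
    have hp0 : p ≠ 0 := by omega
    obtain ⟨y, hy0, hy⟩ : ∃ y : ℝ, 0 ≤ y ∧ y ^ p = ‖((Ym N) ^ p).trace‖ :=
      ⟨‖((Ym N) ^ p).trace‖ ^ ((p : ℝ)⁻¹), Real.rpow_nonneg (norm_nonneg _) _,
        Real.rpow_inv_natCast_pow (norm_nonneg _) hp0⟩
    have hCk := Ck_pos k
    have hxy : Ck (k + 1) * x < y := by
      rw [← hy] at hcon
      exact lt_of_pow_lt_pow_left₀ p hy0 hcon
    have hCx : 0 < Ck (k + 1) * x := mul_pos (Ck_pos _) hx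
    have hypos : 0 < y := hCx.trans hxy
    -- letters
    set 𝒜 : Bool → Matrix (Fin n) (Fin n) ℂ := fun b => if b then Xm N else Ym N with h𝒜
    set c : Bool → ℝ := fun b => if b then x else y with hc
    have hH : ∀ a, (𝒜 a)ᴴ = 𝒜 a := by
      intro a
      cases a
      · simp only [h𝒜]
        exact Ym_herm N
      · simp only [h𝒜]
        exact Xm_herm N
    have hcpos : ∀ a, 0 < c a := by
      intro a
      cases a
      · simpa [hc] using hypos
      · simpa [hc] using hx
    have hA : ∀ a, ‖((𝒜 a) ^ (2 ^ (k + 1 + 1))).trace‖ ≤ c a ^ (2 ^ (k + 1 + 1)) := by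
      intro a
      cases a
      · simp only [h𝒜, hc]
        exact hy.symm.le
      · simp only [h𝒜, hc]
        exact h
    -- the product
    set Z := Xm N * Ym N + Ym N * Xm N with hZ
    have hZt : ‖(Z ^ q).trace‖ ≤ (2 * x * y) ^ q := by
      have h2 := word_sum 𝒜 hH (k + 1) c hcpos hA [true, false] [false, true] 2 rfl rfl q []
        (by
          rw [List.length_nil, zero_add, mul_comm]
          exact hpq.symm)
      simp only [h𝒜, hc, List.map_nil, List.prod_nil, one_mul, List.map_cons, List.prod_cons,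
        mul_one, if_true, Bool.false_eq_true, if_false] at h2
      refine h2.trans (le_of_eq ?_)
      congr 1
      ring
    set N' := (-(2 * I)) • (N * N) with hN'
    have hN'SU : SU N' := (hN.mul hN).smul _
    have hXN' : Xm N' = Z := by
      rw [Xm, hN', hZ, Matrix.conjTranspose_smul, Matrix.conjTranspose_mul]
      simp only [Xm, Ym, star_neg, star_mul', Complex.star_def, conj_I]
      have e1 : (starRingEnd ℂ) (2 : ℂ) = 2 := by
        rw [show (2 : ℂ) = ((2 : ℝ) : ℂ) by norm_num, conj_ofReal]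
      rw [e1]
      simp only [mul_smul_comm, smul_mul_assoc]
      rw [← smul_add]
      have e2 : (N + Nᴴ) * (N - Nᴴ) + (N - Nᴴ) * (N + Nᴴ) = (2 : ℂ) • (N * N - Nᴴ * Nᴴ) := by
        rw [two_smul]
        noncomm_ring
      rw [e2, smul_smul, smul_sub]
      rw [show (-I * 2 : ℂ) = -(2 * I) by ring, show -((2 : ℂ) * -I) = 2 * I by ring]
      rw [neg_smul, neg_smul, sub_neg_eq_add]
    have hYN' : Ym N' = (Ym N) ^ 2 - (Xm N) ^ 2 := by
      rw [Ym_sq, Xm_sq, hN', Ym, Matrix.conjTranspose_smul, Matrix.conjTranspose_mul]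
      simp only [star_neg, star_mul', Complex.star_def, conj_I]
      have e1 : (starRingEnd ℂ) (2 : ℂ) = 2 := by
        rw [show (2 : ℂ) = ((2 : ℝ) : ℂ) by norm_num, conj_ofReal]
      have e3 : (-I * (2 * I) : ℂ) = 2 := by
        have : (-I * (2 * I) : ℂ) = -(2 * (I * I)) := by ring
        rw [this, I_mul_I]
        ring
      have e4 : (-I * -(2 * I) : ℂ) = -2 := by
        rw [mul_neg, e3]
      rw [e1, show -((2 : ℂ) * -I) = 2 * I by ring, smul_sub, smul_smul, smul_smul, e3, e4]
      rw [neg_smul, two_smul, two_smul]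
      noncomm_ring
    set W := (Ym N) ^ 2 - (Xm N) ^ 2 with hW
    have hWH : Wᴴ = W := by
      rw [← hYN']
      exact Ym_herm _
    have h2xy : 0 < 2 * x * y := by positivity
    have hWt : ‖(W ^ q).trace‖ ≤ (Ck k * (2 * x * y)) ^ q := by
      have := ih N' hN'SU (2 * x * y) h2xy (by rw [hXN']; exact hZt)
      rwa [hYN'] at this
    -- second set of letters
    set 𝒜' : Bool → Matrix (Fin n) (Fin n) ℂ := fun b => if b then W else (Ym N) ^ 2 with h𝒜'
    set c' : Bool → ℝ := fun b => if b then Ck k * (2 * x * y) else y ^ 2 with hc'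
    have hH' : ∀ a, (𝒜' a)ᴴ = 𝒜' a := by
      intro a
      cases a
      · simp only [h𝒜', Bool.false_eq_true, if_false]
        rw [Matrix.conjTranspose_pow, Ym_herm]
      · simp only [h𝒜', if_true]
        exact hWH
    have hcpos' : ∀ a, 0 < c' a := by
      intro a
      cases a
      · simp only [hc', Bool.false_eq_true, if_false]
        positivity
      · simp only [hc', if_true]
        positivity
    have hA' : ∀ a, ‖((𝒜' a) ^ (2 ^ (k + 1))).trace‖ ≤ c' a ^ (2 ^ (k + 1)) := by
      intro a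
      cases a
      · simp only [h𝒜', hc', Bool.false_eq_true, if_false]
        rw [← pow_mul, ← pow_mul, ← hq, ← hpq]
        exact hy.symm.le
      · simp only [h𝒜', hc', if_true]
        exact hWt
    have b1 : ‖((Ym N) ^ (2 * (q - 1)) * (Xm N) ^ 2).trace‖ ≤ y ^ (2 * (q - 1)) * x ^ 2 := by
      have h2 := word_hom 𝒜 hH (k + 1) c hcpos hA
        (List.replicate (2 * (q - 1)) false ++ List.replicate 2 true) (by
          rw [List.length_append, List.length_replicate, List.length_replicate, ← hp]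
          omega)
      simp only [tw, List.map_append, List.prod_append, List.map_replicate, List.prod_replicate,
        h𝒜, hc, if_true, Bool.false_eq_true, if_false] at h2
      exact h2
    have b2 : ‖(((Ym N) ^ 2) ^ (q - 1) * W).trace‖
        ≤ (y ^ 2) ^ (q - 1) * (Ck k * (2 * x * y)) := by
      have h2 := word_hom 𝒜' hH' k c' hcpos' hA'
        (List.replicate (q - 1) false ++ List.replicate 1 true) (by
          rw [List.length_append, List.length_replicate, List.length_replicate, ← hq]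
          omega)
      simp only [tw, List.map_append, List.prod_append, List.map_replicate, List.prod_replicate,
        h𝒜', hc', if_true, Bool.false_eq_true, if_false, pow_one] at h2
      exact h2
    have e5 : (Ym N) ^ p = (Ym N) ^ (2 * (q - 1)) * (Xm N) ^ 2 + ((Ym N) ^ 2) ^ (q - 1) * W := by
      rw [hW, ← pow_mul, mul_sub, ← pow_add]
      have : 2 * (q - 1) + 2 = p := by omega
      rw [this]
      abel
    have e6 : y ^ p ≤ y ^ (2 * (q - 1)) * (x ^ 2 + Ck k * (2 * x * y)) := by
      rw [hy, e5, Matrix.trace_add]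
      refine (norm_add_le _ _).trans ((add_le_add b1 b2).trans (le_of_eq ?_))
      rw [← pow_mul]
      ring
    have e7 : y ^ p = y ^ (2 * (q - 1)) * y ^ 2 := by
      rw [← pow_add]
      congr 1
      omega
    rw [e7] at e6
    have e8 : y ^ 2 ≤ x ^ 2 + Ck k * (2 * x * y) :=
      le_of_mul_le_mul_left e6 (pow_pos hypos _)
    have e9 : Ck (k + 1) = 2 * Ck k + 1 := rfl
    rw [e9] at hxy
    have e10 : x < y := by
      have : 0 < 2 * Ck k * x := by positivity
      nlinarith
    nlinarith [mul_lt_mul_of_pos_right hxy hypos]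

/-- the truncation theorem: from the imaginary part to the real part. -/
theorem trunc' (k : ℕ) (N : Matrix (Fin n) (Fin n) ℂ) (hN : SU N) (x : ℝ) (hx : 0 < x)
    (h : ‖((Ym N) ^ (2 ^ (k + 1))).trace‖ ≤ x ^ (2 ^ (k + 1))) :
    ‖((Xm N) ^ (2 ^ (k + 1))).trace‖ ≤ (Ck k * x) ^ (2 ^ (k + 1)) := by
  have e1 : Xm ((-I) • N) = Ym N := by
    rw [Xm, Ym, Matrix.conjTranspose_smul]
    simp only [star_neg, Complex.star_def, conj_I, neg_neg]
    rw [smul_sub, neg_smul, neg_smul, sub_neg_eq_add]
  have e2 : Ym ((-I) • N) = -Xm N := by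
    rw [Xm, Ym, Matrix.conjTranspose_smul]
    simp only [star_neg, Complex.star_def, conj_I, neg_neg]
    have e3 : (-I * I : ℂ) = 1 := by
      rw [neg_mul, I_mul_I, neg_neg]
    have e4 : (-I * -I : ℂ) = -1 := by
      rw [neg_mul_neg, I_mul_I]
    rw [smul_sub, smul_smul, smul_smul, e3, e4, neg_one_smul, one_smul]
    abel
  have h2 := trunc k ((-I) • N) (hN.smul _) x hx (by rw [e1]; exact h)
  rw [e2] at h2
  have h3 : Even (2 ^ (k + 1)) := ⟨2 ^ k, by rw [pow_succ]; ring⟩
  rwa [h3.neg_pow] at h2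

end ApproxC
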