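import Mathlib

/-!
Traces of words in Hermitian matrices.
-/

open Finset Matrix

namespace ApproxC

variable {ι : Type*} [Fintype ι] [DecidableEq ι]

omit [DecidableEq ι] in
lemma trace_mul_conj (A : Matrix ι ι ℂ) :
    (A * Aᴴ).trace = ((∑ i, ∑ j, ‖A i j‖ ^ 2 : ℝ) : ℂ) := by
  rw [Matrix.trace]
  push_cast
  refine sum_congr rfl fun i _ => ?_
  rw [Matrix.diag_apply, Matrix.mul_apply]
  refine sum_congr rfl fun j _ => ?_
  rw [Matrix.conjTranspose_apply, ← starRingEnd_apply, Complex.mul_conj,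
    Complex.normSq_eq_norm_sq]
  push_cast
  rfl

omit [DecidableEq ι] in
lemma trace_conj_mul (A : Matrix ι ι ℂ) :
    (Aᴴ * A).trace = ((∑ i, ∑ j, ‖A i j‖ ^ 2 : ℝ) : ℂ) := by
  rw [Matrix.trace_mul_comm, trace_mul_conj]

omit [DecidableEq ι] in
/-- Cauchy-Schwarz for the trace. -/
lemma trace_cs (A B : Matrix ι ι ℂ) :
    ‖(A * B).trace‖ ^ 2 ≤ ‖(A * Aᴴ).trace‖ * ‖(Bᴴ * B).trace‖ := by
  rw [trace_mul_conj, trace_conj_mul, Complex.norm_real, Complex.norm_real,
    Real.norm_of_nonneg (by positivity), Real.norm_of_nonneg (by positivity)]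
  have h1 : ‖(A * B).trace‖ ≤ ∑ x : ι × ι, ‖A x.1 x.2‖ * ‖B x.2 x.1‖ := by
    rw [Fintype.sum_prod_type, Matrix.trace]
    refine (norm_sum_le _ _).trans (sum_le_sum fun i _ => ?_)
    rw [Matrix.diag_apply, Matrix.mul_apply]
    refine (norm_sum_le _ _).trans (sum_le_sum fun j _ => ?_)
    rw [norm_mul]
  have h2 := sum_mul_sq_le_sq_mul_sq (univ : Finset (ι × ι)) (fun x => ‖A x.1 x.2‖)
    (fun x => ‖B x.2 x.1‖)
  have h3 : ∑ x : ι × ι, ‖A x.1 x.2‖ ^ 2 = ∑ i, ∑ j, ‖A i j‖ ^ 2 := by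
    rw [Fintype.sum_prod_type]
  have h4 : ∑ x : ι × ι, ‖B x.2 x.1‖ ^ 2 = ∑ i, ∑ j, ‖B i j‖ ^ 2 := by
    rw [Fintype.sum_prod_type_right]
  rw [h3, h4] at h2
  exact (pow_le_pow_left₀ (norm_nonneg _) h1 2).trans h2

/-- the trace of a word. -/
noncomputable def tw {α : Type*} (𝒜 : α → Matrix ι ι ℂ) (w : List α) : ℝ :=
  ‖((w.map 𝒜).prod).trace‖

lemma tw_comm {α : Type*} (𝒜 : α → Matrix ι ι ℂ) (u v : List α) :
    tw 𝒜 (u ++ v) = tw 𝒜 (v ++ u) := by
  simp only [tw, List.map_append, List.prod_append]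
  rw [Matrix.trace_mul_comm]

lemma prod_conj {α : Type*} (𝒜 : α → Matrix ι ι ℂ) (hH : ∀ a, (𝒜 a)ᴴ = 𝒜 a) (u : List α) :
    ((u.map 𝒜).prod)ᴴ = ((u.reverse).map 𝒜).prod := by
  induction u with
  | nil => simp
  | cons a u ih =>
    rw [List.map_cons, List.prod_cons, Matrix.conjTranspose_mul, ih, hH, List.reverse_cons,
      List.map_append, List.prod_append]
    simp

lemma tw_cs {α : Type*} (𝒜 : α → Matrix ι ι ℂ) (hH : ∀ a, (𝒜 a)ᴴ = 𝒜 a) (u v : List α) :
    tw 𝒜 (u ++ v) ^ 2 ≤ tw 𝒜 (u ++ u.reverse) * tw 𝒜 (v.reverse ++ v) := by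
  simp only [tw, List.map_append, List.prod_append]
  have h := trace_cs ((u.map 𝒜).prod) ((v.map 𝒜).prod)
  rwa [prod_conj 𝒜 hH, prod_conj 𝒜 hH] at h

/-- normalised word inequality. -/
lemma word_bound {α : Type*} [Finite α] (𝒜 : α → Matrix ι ι ℂ) (hH : ∀ a, (𝒜 a)ᴴ = 𝒜 a)
    (k : ℕ) (h1 : ∀ a, ‖((𝒜 a) ^ (2 ^ (k + 1))).trace‖ ≤ 1) (w : List α)
    (hw : w.length = 2 ^ (k + 1)) : tw 𝒜 w ≤ 1 := by
  obtain ⟨w₀, hw₀, hmax⟩ := Set.exists_max_image {l : List α | l.length = 2 ^ (k + 1)} (tw 𝒜)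
    (List.finite_length_eq α _) ⟨w, hw⟩
  refine (hmax w hw).trans ?_
  by_contra hcon
  push Not at hcon
  set M := tw 𝒜 w₀ with hM
  have hM0 : 0 < M := by linarith
  have hpp : 2 ^ (k + 1) = 2 ^ k + 2 ^ k := by
    rw [pow_succ]
    ring
  have claim : ∀ j ≤ k + 1, ∃ (a : α) (rest : List α),
      (List.replicate (2 ^ j) a ++ rest).length = 2 ^ (k + 1) ∧
      M ≤ tw 𝒜 (List.replicate (2 ^ j) a ++ rest) := by
    intro j
    induction j with
    | zero =>
      intro _
      have hpos : 0 < 2 ^ (k + 1) := by positivity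
      cases hl : w₀ with
      | nil =>
        have h2 : w₀.length = 2 ^ (k + 1) := hw₀
        rw [hl, List.length_nil] at h2
        omega
      | cons a rest =>
        refine ⟨a, rest, ?_, ?_⟩
        · have h2 : w₀.length = 2 ^ (k + 1) := hw₀
          rw [hl] at h2
          simpa using h2
        · rw [hM, hl]
          simp
    | succ j ih =>
      intro hj
      obtain ⟨a, rest, hlen, hmx⟩ := ih (by omega)
      have hjk : 2 ^ j ≤ 2 ^ k := Nat.pow_le_pow_right (by norm_num) (by omega)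
      rw [List.length_append, List.length_replicate] at hlen
      set z := rest.take (2 ^ k) with hz
      set y := rest.drop (2 ^ k) with hy
      have hzy : rest = z ++ y := (List.take_append_drop _ _).symm
      have hzl : z.length = 2 ^ k := by
        rw [hz, List.length_take]
        omega
      have hyl : y.length = 2 ^ k - 2 ^ j := by
        rw [hy, List.length_drop]
        omega
      set rep := List.replicate (2 ^ j) a with hrep
      have hrepl : rep.length = 2 ^ j := List.length_replicate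
      have e1 : tw 𝒜 (rep ++ rest) = tw 𝒜 ((y ++ rep) ++ z) := by
        rw [hzy, ← List.append_assoc, tw_comm, List.append_assoc]
      have e2 := tw_cs 𝒜 hH (y ++ rep) z
      have e3 : (y ++ rep) ++ (y ++ rep).reverse = y ++ ((rep ++ rep) ++ y.reverse) := by
        rw [List.reverse_append, hrep, List.reverse_replicate]
        simp only [List.append_assoc]
      have hpow : rep ++ rep = List.replicate (2 ^ (j + 1)) a := by
        rw [hrep, List.replicate_append_replicate, pow_succ]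
        congr 1
        ring
      have e4 : tw 𝒜 ((y ++ rep) ++ (y ++ rep).reverse)
          = tw 𝒜 (List.replicate (2 ^ (j + 1)) a ++ (y.reverse ++ y)) := by
        rw [e3, tw_comm, hpow, List.append_assoc]
      have e5 : tw 𝒜 (z.reverse ++ z) ≤ M := by
        apply hmax
        show (z.reverse ++ z).length = 2 ^ (k + 1)
        rw [List.length_append, List.length_reverse]
        omega
      refine ⟨a, y.reverse ++ y, ?_, ?_⟩
      · rw [List.length_append, List.length_append, List.length_replicate, List.length_reverse,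
          hyl, pow_succ]
        omega
      · rw [← e4]
        have h2 : 0 ≤ tw 𝒜 ((y ++ rep) ++ (y ++ rep).reverse) := norm_nonneg _
        have h3 : M ^ 2 ≤ tw 𝒜 ((y ++ rep) ++ (y ++ rep).reverse) * M := by
          calc M ^ 2 ≤ tw 𝒜 (rep ++ rest) ^ 2 := pow_le_pow_left₀ hM0.le hmx 2
            _ = tw 𝒜 ((y ++ rep) ++ z) ^ 2 := by rw [e1]
            _ ≤ _ := e2
            _ ≤ _ := mul_le_mul_of_nonneg_left e5 h2
        nlinarith
  obtain ⟨a, rest, hlen, hmx⟩ := claim (k + 1) le_rfl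
  rw [List.length_append, List.length_replicate] at hlen
  have hrest : rest = [] := List.length_eq_zero_iff.mp (by omega)
  rw [hrest, List.append_nil] at hmx
  have h2 := h1 a
  have h3 : tw 𝒜 (List.replicate (2 ^ (k + 1)) a) = ‖((𝒜 a) ^ (2 ^ (k + 1))).trace‖ := by
    simp only [tw, List.map_replicate, List.prod_replicate]
  rw [h3] at hmx
  linarith

/-- word inequality. -/
lemma word_hom {α : Type*} [Finite α] (𝒜 : α → Matrix ι ι ℂ) (hH : ∀ a, (𝒜 a)ᴴ = 𝒜 a)
    (k : ℕ) (c : α → ℝ) (hc : ∀ a, 0 < c a)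
    (h1 : ∀ a, ‖((𝒜 a) ^ (2 ^ (k + 1))).trace‖ ≤ c a ^ (2 ^ (k + 1))) (w : List α)
    (hw : w.length = 2 ^ (k + 1)) : tw 𝒜 w ≤ (w.map c).prod := by
  set ℬ : α → Matrix ι ι ℂ := fun a => (((c a)⁻¹ : ℝ) : ℂ) • 𝒜 a with hℬ
  have hcpos : ∀ u : List α, 0 < (u.map c).prod := by
    intro u
    apply List.prod_pos
    intro x hx
    obtain ⟨a, -, rfl⟩ := List.mem_map.mp hx
    exact hc a
  have hprod : ∀ u : List α, (u.map ℬ).prod
      = ((((u.map c).prod)⁻¹ : ℝ) : ℂ) • (u.map 𝒜).prod := by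
    intro u
    induction u with
    | nil => simp
    | cons a u ih =>
      rw [List.map_cons, List.prod_cons, ih, List.map_cons, List.prod_cons, List.map_cons,
        List.prod_cons]
      simp only [hℬ]
      rw [smul_mul_smul_comm, mul_inv]
      push_cast
      rfl
  have h2 := word_bound ℬ
    (by
      intro a
      simp only [hℬ]
      rw [Matrix.conjTranspose_smul, hH]
      congr 1
      simp) k
    (by
      intro a
      simp only [hℬ]
      rw [smul_pow, Matrix.trace_smul, norm_smul, norm_pow, Complex.norm_real, Real.norm_of_nonneg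
        (inv_nonneg.mpr (hc a).le), inv_pow, inv_mul_le_iff₀ (pow_pos (hc a) _), mul_one]
      exact h1 a) w hw
  have h3 : tw ℬ w = ((w.map c).prod)⁻¹ * tw 𝒜 w := by
    simp only [tw]
    rw [hprod, Matrix.trace_smul, norm_smul, Complex.norm_real, Real.norm_of_nonneg
      (inv_nonneg.mpr (hcpos w).le)]
  rw [h3, inv_mul_le_iff₀ (hcpos w), mul_one] at h2
  exact h2

/-- powers of a sum of two words. -/
lemma word_sum {α : Type*} [Finite α] (𝒜 : α → Matrix ι ι ℂ) (hH : ∀ a, (𝒜 a)ᴴ = 𝒜 a)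
    (k : ℕ) (c : α → ℝ) (hc : ∀ a, 0 < c a)
    (h1 : ∀ a, ‖((𝒜 a) ^ (2 ^ (k + 1))).trace‖ ≤ c a ^ (2 ^ (k + 1)))
    (u₁ u₂ : List α) (q : ℕ) (hu₁ : u₁.length = q) (hu₂ : u₂.length = q) (j : ℕ) :
    ∀ l : List α, l.length + j * q = 2 ^ (k + 1) →
      ‖((l.map 𝒜).prod * ((u₁.map 𝒜).prod + (u₂.map 𝒜).prod) ^ j).trace‖
        ≤ (l.map c).prod * ((u₁.map c).prod + (u₂.map c).prod) ^ j := by
  induction j with
  | zero =>
    intro l hl
    rw [pow_zero, pow_zero, mul_one, mul_one]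
    exact word_hom 𝒜 hH k c hc h1 l (by simpa using hl)
  | succ j ih =>
    intro l hl
    have e1 : (l.map 𝒜).prod * ((u₁.map 𝒜).prod + (u₂.map 𝒜).prod) ^ (j + 1)
        = ((l ++ u₁).map 𝒜).prod * ((u₁.map 𝒜).prod + (u₂.map 𝒜).prod) ^ j
          + ((l ++ u₂).map 𝒜).prod * ((u₁.map 𝒜).prod + (u₂.map 𝒜).prod) ^ j := by
      simp only [List.map_append, List.prod_append]
      rw [pow_succ', ← add_mul, ← mul_add, mul_assoc]
    rw [e1, Matrix.trace_add]
    have hl' : l.length + q + j * q = 2 ^ (k + 1) := by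
      rw [← hl]
      ring
    have h2 := ih (l ++ u₁) (by rw [List.length_append, hu₁]; exact hl')
    have h3 := ih (l ++ u₂) (by rw [List.length_append, hu₂]; exact hl')
    refine (norm_add_le _ _).trans ((add_le_add h2 h3).trans (le_of_eq ?_))
    simp only [List.map_append, List.prod_append]
    ring

end ApproxC
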